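import Pool.Agent.helper43.Rob.Geo

/-!
# Addresses of tiles in the patches
-/

namespace Pool.Agent.helper43.Rob

open Real

/-- the ten tiles of the star, `1 ≤ k ≤ 10` -/
noncomputable def tile0 (k : ℕ) : Tile :=
  if k % 2 = 1 then ⟨true, zeta ^ k, 0, gr * zeta ^ (k + 9)⟩
  else ⟨true, zeta ^ (k + 7), 0, gr * zeta ^ (k + 8)⟩

noncomputable def tileAt : ℕ → ℕ → Tile
  | 0, k => tile0 k
  | n + 1, x => childTile (x % 8) (tileAt n (x / 8))

def real : ℕ → ℕ → Prop
  | 0, k => 1 ≤ k ∧ k ≤ 10
  | n + 1, x => real n (x / 8) ∧ compat ((Xg n).sh (x / 8)) (x % 8) = true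

theorem X0_sh : ∀ k, 1 ≤ k → k ≤ 10 → X0.sh k = true := by
  intro k h1 h2
  interval_cases k <;> decide

theorem real_obt {n x : ℕ} (h : real n x) : (tileAt n x).obt = (Xg n).sh x := by
  induction n generalizing x with
  | zero =>
    show (tile0 x).obt = X0.sh x
    rw [X0_sh x h.1 h.2]
    unfold tile0
    split_ifs <;> rfl
  | succ n ih =>
    show (childTile (x % 8) (tileAt n (x / 8))).obt = (sub (Xg n)).sh x
    have h2 := h.2
    rw [← ih h.1] at h2
    rw [childTile_obt h2, sub_sh]

theorem real_compat {n x : ℕ} (h : real (n + 1) x) :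
    compat (tileAt n (x / 8)).obt (x % 8) = true := by
  rw [real_obt h.1]
  exact h.2

/-! ### patches -/

theorem zeta_zpow_mod {m : ℤ} {k : ℕ} (h : (10 : ℤ) ∣ m - k) : zeta ^ m = zeta ^ k := by
  obtain ⟨c, hc⟩ := h
  have : m = (k : ℤ) + 10 * c := by linarith
  rw [this, zpow_add₀ zeta_ne_zero, zpow_mul, zeta_zpow_ten, one_zpow, mul_one, zpow_natCast]

theorem mem_star_iff (t : Tile) : t ∈ star true ↔ ∃ k, 1 ≤ k ∧ k ≤ 10 ∧ t = tile0 k := by
  unfold star
  simp only [Set.mem_ofPred_eq, if_true]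
  constructor
  · rintro ⟨m, k, hm, hk, rfl⟩
    obtain ⟨j, hj⟩ := hm
    rcases hk with rfl | rfl
    · -- k = m + 1 : even index `2 i + 2` with A = ζ^(2 i - 1)
      have hr : ∃ i : ℕ, i < 5 ∧ (5 : ℤ) ∣ j - i := by
        refine ⟨(j % 5).toNat, ?_, ?_⟩
        · have := Int.emod_lt_of_pos j (show (0 : ℤ) < 5 by norm_num)
          omega
        · have h1 := Int.emod_nonneg j (show (5 : ℤ) ≠ 0 by norm_num)
          rw [Int.toNat_of_nonneg h1]
          exact Int.dvd_self_sub_emod
      obtain ⟨i, hi, c, hc⟩ := hr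
      refine ⟨if i = 4 then 2 else 2 * i + 4, ?_, ?_, ?_⟩
      · split_ifs <;> omega
      · split_ifs <;> omega
      · unfold tile0
        have he : (if i = 4 then 2 else 2 * i + 4) % 2 ≠ 1 := by split_ifs <;> omega
        rw [if_neg he]
        congr 1
        · apply zeta_zpow_mod
          rw [hj]
          split_ifs with h4
          · subst h4
            refine ⟨c, ?_⟩
            push_cast at hc ⊢
            linarith
          · refine ⟨c - 1, ?_⟩
            push_cast
            linarith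
        · congr 1
          apply zeta_zpow_mod
          rw [hj]
          split_ifs with h4
          · subst h4
            refine ⟨c, ?_⟩
            push_cast at hc ⊢
            linarith
          · refine ⟨c - 1, ?_⟩
            push_cast
            linarith
    · have hr : ∃ i : ℕ, i < 5 ∧ (5 : ℤ) ∣ j - i := by
        refine ⟨(j % 5).toNat, ?_, ?_⟩
        · have := Int.emod_lt_of_pos j (show (0 : ℤ) < 5 by norm_num)
          omega
        · have h1 := Int.emod_nonneg j (show (5 : ℤ) ≠ 0 by norm_num)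
          rw [Int.toNat_of_nonneg h1]
          exact Int.dvd_self_sub_emod
      obtain ⟨i, hi, c, hc⟩ := hr
      refine ⟨2 * i + 1, by omega, by omega, ?_⟩
      unfold tile0
      rw [if_pos (by omega)]
      congr 1
      · apply zeta_zpow_mod
        rw [hj]
        refine ⟨c, ?_⟩
        push_cast
        linarith
      · congr 1
        apply zeta_zpow_mod
        rw [hj]
        refine ⟨c - 1, ?_⟩
        push_cast
        linarith
  · rintro ⟨k, h1, h2, rfl⟩
    unfold tile0
    split_ifs with hk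
    · refine ⟨k, (k : ℤ) - 1, ⟨(k / 2 : ℕ), by push_cast; omega⟩, Or.inr rfl, ?_⟩
      congr 1
      congr 1
      rw [zeta_zpow_mod (k := k + 9) ⟨-1, by push_cast; ring⟩]
    · refine ⟨(k : ℤ) + 7, (k : ℤ) + 7 + 1, ⟨(k / 2 + 3 : ℕ), by push_cast; omega⟩, Or.inl rfl, ?_⟩
      congr 1

theorem mem_patch_iff (n : ℕ) (t : Tile) :
    t ∈ patch true n ↔ ∃ x, real n x ∧ t = tileAt n x := by
  induction n generalizing t with
  | zero =>
    show t ∈ star true ↔ _
    rw [mem_star_iff]
    constructor
    · rintro ⟨k, h1, h2, rfl⟩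
      exact ⟨k, ⟨h1, h2⟩, rfl⟩
    · rintro ⟨k, h, rfl⟩
      exact ⟨k, h.1, h.2, rfl⟩
  | succ n ih =>
    show t ∈ substitute (patch true n) ↔ _
    unfold substitute
    simp only [Set.mem_iUnion, mem_dissect]
    constructor
    · rintro ⟨u, hu, d, hd, rfl⟩
      obtain ⟨y, hy, rfl⟩ := (ih u).mp hu
      have hd5 := compat_lt hd
      refine ⟨8 * y + d, ⟨?_, ?_⟩, ?_⟩
      · rw [show (8 * y + d) / 8 = y by omega]; exact hy
      · rw [show (8 * y + d) / 8 = y by omega, show (8 * y + d) % 8 = d by omega,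
          ← real_obt hy]
        exact hd
      · show _ = childTile ((8 * y + d) % 8) (tileAt n ((8 * y + d) / 8))
        rw [show (8 * y + d) / 8 = y by omega, show (8 * y + d) % 8 = d by omega]
    · rintro ⟨x, hx, rfl⟩
      exact ⟨tileAt n (x / 8), (ih _).mpr ⟨_, hx.1, rfl⟩, x % 8, real_compat hx, rfl⟩

theorem inv_tile0 {k : ℕ} : Inv (tile0 k) := by
  have hr := zeta_rel
  have h5 := zeta_pow_five
  have h10 := zeta_pow_ten
  unfold tile0
  split_ifs with hk
  · refine ⟨zeta ^ 3, ?_, ?_, Or.inl ⟨rfl, Or.inl rfl⟩⟩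
    · rw [gr_eq]
      have e : zeta ^ (k + 9) = zeta ^ k * zeta ^ 9 := pow_add _ _ _
      rw [e]
      simp only
      linear_combination zeta ^ k * (1 - zeta ^ 3) * h10
    · simp [norm_zeta]
  · refine ⟨-zeta ^ 2, ?_, ?_, Or.inl ⟨rfl, Or.inr rfl⟩⟩
    · rw [gr_eq]
      have e : zeta ^ (k + 8) = zeta ^ (k + 7) * zeta := pow_succ _ _
      rw [e]
      simp only
      linear_combination zeta ^ (k + 7) * (-1 - zeta) * hr
    · simp [norm_zeta]

theorem inv_tileAt {n x : ℕ} (h : real n x) : Inv (tileAt n x) := by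
  induction n generalizing x with
  | zero => exact inv_tile0
  | succ n ih => exact (ih h.1).child (real_compat h)

/-! ### edges -/

/-- `u` is the neighbour of `t` across the edge of type `l` -/
def ER (l : ℕ) (t u : Tile) : Prop :=
  (l = 0 → (t.obt = u.obt ∧ u.a = t.a ∧ u.b = t.b) ∨ (t.obt ≠ u.obt ∧ u.a = t.b ∧ u.b = t.a)) ∧
  (l = 1 → t.obt = u.obt ∧ u.b = t.b ∧ u.c = t.c) ∧
  (l = 2 → u.c = t.c ∧ u.a = t.a)

theorem stepE_int {G : PG} {i e : ℕ} (h : e % 4 = 3) : stepE G i e = 8 * i + e / 32 := by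
  unfold stepE
  have hb : Nat.beq (Nat.mod e 4) 3 = true := by rw [Nat.beq_eq]; exact h
  rw [hb]
  rfl

theorem stepE_cross {G : PG} {i e : ℕ} (h : e % 4 ≠ 3) (hne : stepE G i e ≠ 0) :
    G.nb (e % 4) i ≠ 0 ∧ stepE G i e =
      8 * G.nb (e % 4) i + cond (G.sh (G.nb (e % 4) i)) (e / 32) (e / 4 % 8) := by
  unfold stepE at hne ⊢
  have hb : Nat.beq (Nat.mod e 4) 3 = false := by
    rw [← Bool.not_eq_true, Nat.beq_eq]; exact h
  rw [hb] at hne ⊢
  simp only [cond_false] at hne ⊢
  unfold stepT at hne ⊢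
  by_cases ht : G.nb (e % 4) i = 0
  · exfalso
    apply hne
    have : G.nb (Nat.mod e 4) i = 0 := ht
    rw [this]
    rfl
  · have hbt : Nat.beq (G.nb (Nat.mod e 4) i) 0 = false := by
      rw [← Bool.not_eq_true, Nat.beq_eq]; exact ht
    rw [hbt]
    exact ⟨ht, rfl⟩

/-- the induction statement: neighbours are real, distinct, and share the right edge. -/
def NbOK (n : ℕ) : Prop :=
  ∀ x, real n x → ∀ l, l < 3 → (Xg n).nb l x ≠ 0 →
    real n ((Xg n).nb l x) ∧ (Xg n).nb l x ≠ x ∧ ER l (tileAt n x) (tileAt n ((Xg n).nb l x))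

theorem nbOK_zero : NbOK 0 := by
  intro x hx l hl hne
  have h5 := zeta_pow_five
  have h10 := zeta_pow_ten
  have key : ∀ k, 1 ≤ k → k ≤ 10 → ∀ l, l < 3 → X0.nb l k ≠ 0 →
      (1 ≤ X0.nb l k ∧ X0.nb l k ≤ 10) ∧ X0.nb l k ≠ k ∧ (l = 0 ∨ l = 1) ∧
      ((l = 0 ∧ (X0.nb l k) % 2 ≠ k % 2 ∧ (k % 2 = 1 → (X0.nb l k + 7) % 10 = k % 10) ∧
        (k % 2 = 0 → (X0.nb l k) % 10 = (k + 7) % 10)) ∨
      (l = 1 ∧ (X0.nb l k) % 2 ≠ k % 2 ∧ (k % 2 = 1 → X0.nb l k = k + 1) ∧
        (k % 2 = 0 → X0.nb l k + 1 = k))) := by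
    intro k h1 h2 l hl
    interval_cases k <;> interval_cases l <;> decide
  obtain ⟨h1, h2, -, h3⟩ := key x hx.1 hx.2 l hl hne
  refine ⟨h1, h2, ?_⟩
  show ER l (tile0 x) (tile0 (X0.nb l x))
  have hpw : ∀ a b : ℕ, a % 10 = b % 10 → zeta ^ a = zeta ^ b := by
    intro a b hab
    rw [← Nat.div_add_mod a 10, ← Nat.div_add_mod b 10, hab, pow_add, pow_add, pow_mul, pow_mul,
      h10, one_pow, one_pow]
  rcases h3 with ⟨rfl, h4, h5', h6⟩ | ⟨rfl, h4, h5', h6⟩
  · refine ⟨fun _ => Or.inl ?_, fun h => absurd h (by norm_num), fun h => absurd h (by norm_num)⟩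
    unfold tile0
    by_cases hx2 : x % 2 = 1
    · rw [if_pos hx2, if_neg (by omega)]
      exact ⟨rfl, hpw _ _ (h5' hx2), rfl⟩
    · rw [if_neg hx2, if_pos (by omega)]
      exact ⟨rfl, hpw _ _ (h6 (by omega)), rfl⟩
  · refine ⟨fun h => absurd h (by norm_num), fun _ => ?_, fun h => absurd h (by norm_num)⟩
    unfold tile0
    by_cases hx2 : x % 2 = 1
    · rw [if_pos hx2, if_neg (by omega)]
      have := h5' hx2
      exact ⟨rfl, rfl, by rw [this]⟩
    · rw [if_neg hx2, if_pos (by omega)]
      have := h6 (by omega)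
      refine ⟨rfl, rfl, ?_⟩
      have e : X0.nb 1 x + 9 = x + 8 := by omega
      show gr * zeta ^ (X0.nb 1 x + 9) = gr * zeta ^ (x + 8)
      rw [e]

theorem real_step {n t dd : ℕ} (ht : real n t) (hc : compat (tileAt n t).obt dd = true) :
    real (n + 1) (8 * t + dd) ∧ tileAt (n + 1) (8 * t + dd) = childTile dd (tileAt n t) := by
  have hd5 := compat_lt hc
  refine ⟨⟨?_, ?_⟩, ?_⟩
  · rw [show (8 * t + dd) / 8 = t by omega]; exact ht
  · rw [show (8 * t + dd) / 8 = t by omega, show (8 * t + dd) % 8 = dd by omega, ← real_obt ht]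
    exact hc
  · show childTile ((8 * t + dd) % 8) (tileAt n ((8 * t + dd) / 8)) = _
    rw [show (8 * t + dd) / 8 = t by omega, show (8 * t + dd) % 8 = dd by omega]

/-- internal adjacency -/
theorem int_step {n i d dd l e : ℕ} (hi : real n i)
    (he : fld 8 TABS (3 * d + l) = e) (he3 : e % 4 = 3) (hdd : e / 32 = dd)
    (hcd : compat (tileAt n i).obt d = true)
    (hc : compat (tileAt n i).obt dd = true) (hne : dd ≠ d)
    (hER : ER l (childTile d (tileAt n i)) (childTile dd (tileAt n i))) :
    real (n + 1) ((Xg (n + 1)).nb l (8 * i + d)) ∧ (Xg (n + 1)).nb l (8 * i + d) ≠ 8 * i + d ∧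
      ER l (tileAt (n + 1) (8 * i + d)) (tileAt (n + 1) ((Xg (n + 1)).nb l (8 * i + d))) := by
  have hd5 := compat_lt hcd
  have h1 : (Xg (n + 1)).nb l (8 * i + d) = 8 * i + dd := by
    show (sub (Xg n)).nb l (8 * i + d) = _
    rw [sub_nb, show (8 * i + d) / 8 = i by omega, show (8 * i + d) % 8 = d by omega, he,
      stepE_int he3, hdd]
  obtain ⟨h2, h3⟩ := real_step hi hc
  obtain ⟨-, h4⟩ := real_step hi hcd
  rw [h1, h3, h4]
  exact ⟨h2, by omega, hER⟩

/-- crossing adjacency -/
theorem cross_step {n i d l e lp pa po : ℕ} (IH : NbOK n) (hi : real n i)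
    (he : fld 8 TABS (3 * d + l) = e) (he3 : e % 4 = lp) (hlp : lp < 3)
    (hpa : e / 4 % 8 = pa) (hpo : e / 32 = po)
    (hcd : compat (tileAt n i).obt d = true)
    (hne : (Xg (n + 1)).nb l (8 * i + d) ≠ 0)
    (hER : ∀ U : Tile, ER lp (tileAt n i) U →
      (U.obt = false → compat false pa = true ∧ ER l (childTile d (tileAt n i)) (childTile pa U)) ∧
      (U.obt = true → compat true po = true ∧ ER l (childTile d (tileAt n i)) (childTile po U))) :
    real (n + 1) ((Xg (n + 1)).nb l (8 * i + d)) ∧ (Xg (n + 1)).nb l (8 * i + d) ≠ 8 * i + d ∧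
      ER l (tileAt (n + 1) (8 * i + d)) (tileAt (n + 1) ((Xg (n + 1)).nb l (8 * i + d))) := by
  have hd5 := compat_lt hcd
  have h1 : (Xg (n + 1)).nb l (8 * i + d) = stepE (Xg n) i e := by
    show (sub (Xg n)).nb l (8 * i + d) = _
    rw [sub_nb, show (8 * i + d) / 8 = i by omega, show (8 * i + d) % 8 = d by omega, he]
  rw [h1] at hne
  obtain ⟨h2, h3⟩ := stepE_cross (by omega) hne
  rw [he3] at h2 h3
  obtain ⟨h4, h5, h6⟩ := IH i hi lp hlp h2
  obtain ⟨-, h8⟩ := real_step hi hcd
  have h9 := real_obt h4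
  rw [h1, h3, h8, hpa, hpo, ← h9]
  generalize (Xg n).nb lp i = t at *
  cases hU : (tileAt n t).obt
  · obtain ⟨h10, h11⟩ := (hER _ h6).1 hU
    have h10' : compat (tileAt n t).obt pa = true := by rw [hU]; exact h10
    obtain ⟨h12, h13⟩ := real_step h4 h10'
    simp only [cond_false]
    have := compat_lt h10'
    exact ⟨h12, by omega, by rw [h13]; exact h11⟩
  · obtain ⟨h10, h11⟩ := (hER _ h6).2 hU
    have h10' : compat (tileAt n t).obt po = true := by rw [hU]; exact h10
    obtain ⟨h12, h13⟩ := real_step h4 h10'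
    simp only [cond_true]
    have := compat_lt h10'
    exact ⟨h12, by omega, by rw [h13]; exact h11⟩

theorem ER_zero_of {t u : Tile} (h : (t.obt = u.obt ∧ u.a = t.a ∧ u.b = t.b) ∨
    (t.obt ≠ u.obt ∧ u.a = t.b ∧ u.b = t.a)) : ER 0 t u :=
  ⟨fun _ => h, fun h => absurd h (by norm_num), fun h => absurd h (by norm_num)⟩

theorem ER_one_of {t u : Tile} (h : t.obt = u.obt ∧ u.b = t.b ∧ u.c = t.c) : ER 1 t u :=
  ⟨fun h => absurd h (by norm_num), fun _ => h, fun h => absurd h (by norm_num)⟩

theorem ER_two_of {t u : Tile} (h : u.c = t.c ∧ u.a = t.a) : ER 2 t u :=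
  ⟨fun h => absurd h (by norm_num), fun h => absurd h (by norm_num), fun _ => h⟩

theorem ER.zero {t u : Tile} (h : ER 0 t u) : (t.obt = u.obt ∧ u.a = t.a ∧ u.b = t.b) ∨
    (t.obt ≠ u.obt ∧ u.a = t.b ∧ u.b = t.a) := h.1 rfl

theorem ER.one {t u : Tile} (h : ER 1 t u) : t.obt = u.obt ∧ u.b = t.b ∧ u.c = t.c := h.2.1 rfl

theorem ER.two {t u : Tile} (h : ER 2 t u) : u.c = t.c ∧ u.a = t.a := h.2.2 rfl

theorem nbOK_succ {n : ℕ} (IH : NbOK n) : NbOK (n + 1) := by
  intro x hx l hl hne
  obtain ⟨i, d, rfl, hd8⟩ : ∃ i d, x = 8 * i + d ∧ d < 8 :=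
    ⟨x / 8, x % 8, by omega, by omega⟩
  have hi : real n i := by
    have := hx.1
    rwa [show (8 * i + d) / 8 = i by omega] at this
  have hcd : compat (tileAt n i).obt d = true := by
    have := real_compat hx
    rwa [show (8 * i + d) / 8 = i by omega, show (8 * i + d) % 8 = d by omega] at this
  cases hT : (tileAt n i).obt
  · have hcd' := hcd
    rw [hT] at hcd'
    rcases compat_false.mp hcd' with rfl | rfl
    · interval_cases l
      · refine int_step (e := 39) (dd := 1) hi (by decide) (by norm_num) (by norm_num) hcd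
          (by rw [hT]; decide) (by norm_num) (ER_zero_of ?_)
        simp [childTile]
      · refine cross_step (e := 128) (lp := 0) (pa := 0) (po := 4) IH hi (by decide)
          (by norm_num) (by norm_num) (by norm_num) (by norm_num) hcd hne ?_
        intro U hU
        refine ⟨fun h => ⟨by decide, ER_one_of ?_⟩, fun h => ⟨by decide, ER_one_of ?_⟩⟩
        · rcases hU.zero with ⟨-, e2, e3⟩ | ⟨e1, -, -⟩
          · simp [childTile, e2, e3]
          · exact absurd (hT.trans h.symm) e1
        · rcases hU.zero with ⟨e1, -, -⟩ | ⟨-, e2, e3⟩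
          · exact absurd (hT.symm.trans (e1.trans h)) (by decide)
          · simp [childTile, e2, e3]
      · refine cross_step (e := 1) (lp := 1) (pa := 0) (po := 0) IH hi (by decide)
          (by norm_num) (by norm_num) (by norm_num) (by norm_num) hcd hne ?_
        intro U hU
        obtain ⟨e1, e2, e3⟩ := hU.one
        rw [hT] at e1
        refine ⟨fun h => ⟨by decide, ER_two_of ?_⟩, fun h => absurd (e1.trans h) (by decide)⟩
        simp [childTile, e2, e3]
    · interval_cases l
      · refine int_step (e := 3) (dd := 0) hi (by decide) (by norm_num) (by norm_num) hcd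
          (by rw [hT]; decide) (by norm_num) (ER_zero_of ?_)
        simp [childTile]
      · refine cross_step (e := 70) (lp := 2) (pa := 1) (po := 2) IH hi (by decide)
          (by norm_num) (by norm_num) (by norm_num) (by norm_num) hcd hne ?_
        intro U hU
        obtain ⟨e2, e3⟩ := hU.two
        refine ⟨fun h => ⟨by decide, ER_one_of ?_⟩, fun h => ⟨by decide, ER_one_of ?_⟩⟩ <;>
          simp [childTile, e2, e3]
      · refine cross_step (e := 100) (lp := 0) (pa := 1) (po := 3) IH hi (by decide)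
          (by norm_num) (by norm_num) (by norm_num) (by norm_num) hcd hne ?_
        intro U hU
        refine ⟨fun h => ⟨by decide, ER_two_of ?_⟩, fun h => ⟨by decide, ER_two_of ?_⟩⟩
        · rcases hU.zero with ⟨-, e2, e3⟩ | ⟨e1, -, -⟩
          · simp [childTile, e2, e3]
          · exact absurd (hT.trans h.symm) e1
        · rcases hU.zero with ⟨e1, -, -⟩ | ⟨-, e2, e3⟩
          · exact absurd (hT.symm.trans (e1.trans h)) (by decide)
          · simp [childTile, e2, e3]
  · have hcd' := hcd
    rw [hT] at hcd'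
    rcases compat_true.mp hcd' with rfl | rfl | rfl
    · interval_cases l
      · refine cross_step (e := 73) (lp := 1) (pa := 2) (po := 2) IH hi (by decide)
          (by norm_num) (by norm_num) (by norm_num) (by norm_num) hcd hne ?_
        intro U hU
        obtain ⟨e1, e2, e3⟩ := hU.one
        rw [hT] at e1
        refine ⟨fun h => absurd (e1.trans h) (by decide), fun h => ⟨by decide, ER_zero_of ?_⟩⟩
        simp [childTile, e2, e3]
      · refine cross_step (e := 70) (lp := 2) (pa := 1) (po := 2) IH hi (by decide)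
          (by norm_num) (by norm_num) (by norm_num) (by norm_num) hcd hne ?_
        intro U hU
        obtain ⟨e2, e3⟩ := hU.two
        refine ⟨fun h => ⟨by decide, ER_one_of ?_⟩, fun h => ⟨by decide, ER_one_of ?_⟩⟩ <;>
          simp [childTile, e2, e3]
      · refine int_step (e := 147) (dd := 4) hi (by decide) (by norm_num) (by norm_num) hcd
          (by rw [hT]; decide) (by norm_num) (ER_two_of ?_)
        simp [childTile]
    · interval_cases l
      · refine int_step (e := 147) (dd := 4) hi (by decide) (by norm_num) (by norm_num) hcd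
          (by rw [hT]; decide) (by norm_num) (ER_zero_of ?_)
        simp [childTile]
      · refine cross_step (e := 109) (lp := 1) (pa := 3) (po := 3) IH hi (by decide)
          (by norm_num) (by norm_num) (by norm_num) (by norm_num) hcd hne ?_
        intro U hU
        obtain ⟨e1, e2, e3⟩ := hU.one
        rw [hT] at e1
        refine ⟨fun h => absurd (e1.trans h) (by decide), fun h => ⟨by decide, ER_one_of ?_⟩⟩
        simp [childTile, e2, e3]
      · refine cross_step (e := 100) (lp := 0) (pa := 1) (po := 3) IH hi (by decide)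
          (by norm_num) (by norm_num) (by norm_num) (by norm_num) hcd hne ?_
        intro U hU
        refine ⟨fun h => ⟨by decide, ER_two_of ?_⟩, fun h => ⟨by decide, ER_two_of ?_⟩⟩
        · rcases hU.zero with ⟨e1, -, -⟩ | ⟨-, e2, e3⟩
          · exact absurd (hT.symm.trans (e1.trans h)) (by decide)
          · simp [childTile, e2, e3]
        · rcases hU.zero with ⟨-, e2, e3⟩ | ⟨e1, -, -⟩
          · simp [childTile, e2, e3]
          · exact absurd (hT.trans h.symm) e1
    · interval_cases l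
      · refine int_step (e := 111) (dd := 3) hi (by decide) (by norm_num) (by norm_num) hcd
          (by rw [hT]; decide) (by norm_num) (ER_zero_of ?_)
        simp [childTile]
      · refine cross_step (e := 128) (lp := 0) (pa := 0) (po := 4) IH hi (by decide)
          (by norm_num) (by norm_num) (by norm_num) (by norm_num) hcd hne ?_
        intro U hU
        refine ⟨fun h => ⟨by decide, ER_one_of ?_⟩, fun h => ⟨by decide, ER_one_of ?_⟩⟩
        · rcases hU.zero with ⟨e1, -, -⟩ | ⟨-, e2, e3⟩
          · exact absurd (hT.symm.trans (e1.trans h)) (by decide)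
          · simp [childTile, e2, e3]
        · rcases hU.zero with ⟨-, e2, e3⟩ | ⟨e1, -, -⟩
          · simp [childTile, e2, e3]
          · exact absurd (hT.trans h.symm) e1
      · refine int_step (e := 75) (dd := 2) hi (by decide) (by norm_num) (by norm_num) hcd
          (by rw [hT]; decide) (by norm_num) (ER_two_of ?_)
        simp [childTile]

theorem nbOK (n : ℕ) : NbOK n := by
  induction n with
  | zero => exact nbOK_zero
  | succ n ih => exact nbOK_succ ih

end Pool.Agent.helper43.Rob
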