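import Mathlib

/-!
# From a finite-range parametrix with small `ℓ¹` column error to an `ℓ²` lower bound
-/

namespace Pool.Agent.helper43.Rob

open Finset

variable {V : Type*}

/-- the `ℓ¹` norm of a finitely supported function -/
noncomputable def N1 (h : V →₀ ℝ) : ℝ := ∑ x ∈ h.support, |h x|

theorem N1_eq {h : V →₀ ℝ} {S : Finset V} (hS : h.support ⊆ S) : N1 h = ∑ x ∈ S, |h x| := by
  unfold N1
  apply Finset.sum_subset hS
  intro x _ hx
  rw [Finsupp.notMem_support_iff.mp hx, abs_zero]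

theorem N1_nonneg (h : V →₀ ℝ) : 0 ≤ N1 h := Finset.sum_nonneg fun _ _ => abs_nonneg _

theorem N1_add (h k : V →₀ ℝ) : N1 (h + k) ≤ N1 h + N1 k := by
  classical
  have h1 : h.support ⊆ h.support ∪ k.support := Finset.subset_union_left
  have h2 : k.support ⊆ h.support ∪ k.support := Finset.subset_union_right
  rw [N1_eq h1, N1_eq h2, N1_eq (Finsupp.support_add (g₁ := h) (g₂ := k)), ← Finset.sum_add_distrib]
  exact Finset.sum_le_sum fun x _ => abs_add_le _ _

theorem N1_smul (a : ℝ) (h : V →₀ ℝ) : N1 (a • h) ≤ |a| * N1 h := by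
  rw [N1_eq (Finsupp.support_smul (b := a) (g := h)), N1, Finset.mul_sum]
  exact Finset.sum_le_sum fun x _ => by rw [Finsupp.smul_apply, smul_eq_mul, abs_mul]

theorem N1_neg (h : V →₀ ℝ) : N1 (-h) = N1 h := by
  unfold N1
  rw [Finsupp.support_neg]
  exact Finset.sum_congr rfl fun x _ => by rw [Finsupp.neg_apply, abs_neg]

theorem N1_zero : N1 (0 : V →₀ ℝ) = 0 := by
  unfold N1; simp

theorem N1_single (x : V) (a : ℝ) : N1 (Finsupp.single x a) ≤ |a| := by
  classical
  have h1 : (Finsupp.single x a).support ⊆ {x} := Finsupp.support_single_subset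
  rw [N1_eq h1]
  simp

theorem N1_sum {ι : Type*} (S : Finset ι) (f : ι → V →₀ ℝ) : N1 (∑ i ∈ S, f i) ≤ ∑ i ∈ S, N1 (f i) := by
  classical
  induction S using Finset.induction_on with
  | empty => simp [N1_zero]
  | insert a S ha ih =>
    rw [Finset.sum_insert ha, Finset.sum_insert ha]
    exact (N1_add _ _).trans (add_le_add le_rfl ih)

theorem abs_le_N1 (h : V →₀ ℝ) (x : V) : |h x| ≤ N1 h := by
  by_cases hx : x ∈ h.support
  · exact Finset.single_le_sum (f := fun x => |h x|) (fun _ _ => abs_nonneg _) hx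
  · rw [Finsupp.notMem_support_iff.mp hx, abs_zero]
    exact N1_nonneg h

theorem N1_lin {G : V → V →₀ ℝ} {M : ℝ} (hG : ∀ v, N1 (G v) ≤ M) (h : V →₀ ℝ) :
    N1 (Finsupp.linearCombination ℝ G h) ≤ M * N1 h := by
  rw [Finsupp.linearCombination_apply, Finsupp.sum]
  refine (N1_sum _ _).trans ?_
  rw [N1, Finset.mul_sum]
  refine Finset.sum_le_sum fun x _ => ?_
  calc N1 (h x • G x) ≤ |h x| * N1 (G x) := N1_smul _ _
    _ ≤ |h x| * M := mul_le_mul_of_nonneg_left (hG x) (abs_nonneg _)
    _ = M * |h x| := mul_comm _ _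

section Op

variable (s : Fin 3 → V → V) (c : ℝ)

/-- the operator `A - c` on finitely supported functions -/
noncomputable def TF : (V →₀ ℝ) →ₗ[ℝ] (V →₀ ℝ) :=
  Finsupp.linearCombination ℝ fun x => Finsupp.single (s 0 x) 1 + Finsupp.single (s 1 x) 1 +
    Finsupp.single (s 2 x) 1 - c • Finsupp.single x 1

/-- the operator `A - c` on functions -/
def Tc {M : Type*} [AddCommGroup M] [Module ℝ M] (φ : V → M) (x : V) : M :=
  φ (s 0 x) + φ (s 1 x) + φ (s 2 x) - c • φ x

theorem pair_TF {M : Type*} [AddCommGroup M] [Module ℝ M] (φ : V → M) (h : V →₀ ℝ) :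
    Finsupp.linearCombination ℝ φ (TF s c h) = Finsupp.linearCombination ℝ (Tc s c φ) h := by
  induction h using Finsupp.induction_linear with
  | zero => simp
  | add f g hf hg => rw [map_add, map_add, map_add, hf, hg]
  | single x a =>
    unfold TF Tc
    simp only [Finsupp.linearCombination_single, map_smul, map_add, map_sub, one_smul]

variable {s c}

theorem pair_comm (u h : V →₀ ℝ) :
    Finsupp.linearCombination ℝ (fun x => h x) u = Finsupp.linearCombination ℝ (fun x => u x) h := by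
  classical
  rw [Finsupp.linearCombination_apply, Finsupp.linearCombination_apply, Finsupp.sum, Finsupp.sum]
  have h1 : ∑ x ∈ u.support, u x • h x = ∑ x ∈ u.support ∪ h.support, u x * h x := by
    apply Finset.sum_subset Finset.subset_union_left
    intro x _ hx
    rw [Finsupp.notMem_support_iff.mp hx]; simp
  have h2 : ∑ x ∈ h.support, h x • u x = ∑ x ∈ u.support ∪ h.support, u x * h x := by
    rw [Finset.sum_subset (Finset.subset_union_right (s₁ := u.support))]
    · exact Finset.sum_congr rfl fun x _ => by rw [smul_eq_mul, mul_comm]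
    · intro x _ hx
      rw [Finsupp.notMem_support_iff.mp hx]; simp
  rw [h1, h2]

theorem TF_apply (hs : ∀ l, Function.Involutive (s l)) (h : V →₀ ℝ) (x : V) :
    TF s c h x = Tc s c (fun y => h y) x := by
  classical
  induction h using Finsupp.induction_linear with
  | zero => simp [Tc]
  | add f g hf hg =>
    rw [map_add, Finsupp.add_apply, hf, hg]
    unfold Tc
    simp only [Finsupp.add_apply, smul_eq_mul]
    ring
  | single z a =>
    unfold TF Tc
    have e : ∀ l, (Finsupp.single (s l z) (1 : ℝ)) x = (Finsupp.single z (1 : ℝ)) (s l x) := by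
      intro l
      rw [Finsupp.single_apply, Finsupp.single_apply]
      have : s l z = x ↔ z = s l x := by
        constructor
        · intro h; rw [← h, hs l z]
        · intro h; rw [h, hs l x]
      simp only [this]
    have e2 : ∀ y, (Finsupp.single z a) y = a * (Finsupp.single z (1 : ℝ)) y := by
      intro y
      rw [Finsupp.single_apply, Finsupp.single_apply]
      split_ifs <;> simp
    rw [Finsupp.linearCombination_single, Finsupp.smul_apply, Finsupp.sub_apply,
      Finsupp.add_apply, Finsupp.add_apply, Finsupp.smul_apply, e, e, e]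
    beta_reduce
    rw [e2 (s 0 x), e2 (s 1 x), e2 (s 2 x), e2 x]
    simp only [smul_eq_mul]
    ring

/-- symmetry of `TF` -/
theorem TF_symm (hs : ∀ l, Function.Involutive (s l)) (u h : V →₀ ℝ) :
    Finsupp.linearCombination ℝ (fun x => h x) (TF s c u) =
      Finsupp.linearCombination ℝ (fun x => (TF s c h) x) u := by
  rw [pair_TF]
  congr 1
  congr 1
  ext x
  exact (TF_apply hs h x).symm

end Op

theorem pair_norm_le {h : V →₀ ℝ} {φ : V → ℂ} {B : ℝ} (hφ : ∀ x, ‖φ x‖ ≤ B) :
    ‖Finsupp.linearCombination ℝ φ h‖ ≤ N1 h * B := by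
  rw [Finsupp.linearCombination_apply, Finsupp.sum]
  refine (norm_sum_le _ _).trans ?_
  rw [N1, Finset.sum_mul]
  refine Finset.sum_le_sum fun x _ => ?_
  rw [norm_smul, Real.norm_eq_abs]
  exact mul_le_mul_of_nonneg_left (hφ x) (abs_nonneg _)

theorem pair_abs_le {h u : V →₀ ℝ} :
    |Finsupp.linearCombination ℝ (fun x => u x) h| ≤ N1 h * N1 u := by
  rw [Finsupp.linearCombination_apply, Finsupp.sum]
  refine (Finset.abs_sum_le_sum_abs _ _).trans ?_
  rw [N1, Finset.sum_mul]
  refine Finset.sum_le_sum fun x _ => ?_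
  rw [smul_eq_mul, abs_mul]
  exact mul_le_mul_of_nonneg_left (abs_le_N1 u x) (abs_nonneg _)

/-- Cauchy-Schwarz with weights -/
theorem pair_sq_le {h : V →₀ ℝ} {φ : V → ℂ} :
    ‖Finsupp.linearCombination ℝ φ h‖ ^ 2 ≤ N1 h * ∑ x ∈ h.support, |h x| * ‖φ x‖ ^ 2 := by
  rw [Finsupp.linearCombination_apply, Finsupp.sum]
  have h1 : ‖∑ x ∈ h.support, h x • φ x‖ ≤ ∑ x ∈ h.support, √|h x| * (√|h x| * ‖φ x‖) := by
    refine (norm_sum_le _ _).trans (le_of_eq (Finset.sum_congr rfl fun x _ => ?_))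
    rw [norm_smul, Real.norm_eq_abs, ← mul_assoc, Real.mul_self_sqrt (abs_nonneg _)]
  have h2 := Finset.sum_mul_sq_le_sq_mul_sq h.support (fun x => √|h x|)
    (fun x => √|h x| * ‖φ x‖)
  calc ‖∑ x ∈ h.support, h x • φ x‖ ^ 2 ≤ (∑ x ∈ h.support, √|h x| * (√|h x| * ‖φ x‖)) ^ 2 :=
        pow_le_pow_left₀ (norm_nonneg _) h1 2
    _ ≤ (∑ x ∈ h.support, √|h x| ^ 2) * ∑ x ∈ h.support, (√|h x| * ‖φ x‖) ^ 2 := h2
    _ = N1 h * ∑ x ∈ h.support, |h x| * ‖φ x‖ ^ 2 := by
        unfold N1
        congr 1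
        · exact Finset.sum_congr rfl fun x _ => Real.sq_sqrt (abs_nonneg _)
        · exact Finset.sum_congr rfl fun x _ => by
            rw [mul_pow, Real.sq_sqrt (abs_nonneg _)]

section Main

variable {s : Fin 3 → V → V} {c : ℝ} {G E : V → V →₀ ℝ} {M θ : ℝ}

/-- residuals -/
noncomputable def rho (E : V → V →₀ ℝ) (y : V) : ℕ → V →₀ ℝ
  | 0 => Finsupp.single y 1
  | n + 1 => -Finsupp.linearCombination ℝ E (rho E y n)

/-- approximate inverse columns -/
noncomputable def Rn (G E : V → V →₀ ℝ) (y : V) (n : ℕ) : V →₀ ℝ :=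
  ∑ k ∈ range n, Finsupp.linearCombination ℝ G (rho E y k)

theorem N1_rho (hθ : 0 ≤ θ) (hE : ∀ v, N1 (E v) ≤ θ) (y : V) (n : ℕ) :
    N1 (rho E y n) ≤ θ ^ n := by
  induction n with
  | zero =>
    refine (N1_single y 1).trans ?_
    simp
  | succ n ih =>
    show N1 (-Finsupp.linearCombination ℝ E (rho E y n)) ≤ _
    rw [N1_neg]
    calc _ ≤ θ * N1 (rho E y n) := N1_lin hE _
      _ ≤ θ * θ ^ n := mul_le_mul_of_nonneg_left ih hθ
      _ = θ ^ (n + 1) := by ring

theorem N1_Rn (hM : 0 ≤ M) (hθ : 0 ≤ θ) (hθ1 : θ < 1) (hG : ∀ v, N1 (G v) ≤ M)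
    (hE : ∀ v, N1 (E v) ≤ θ) (y : V) (n : ℕ) : N1 (Rn G E y n) ≤ M / (1 - θ) := by
  have h1 : N1 (Rn G E y n) ≤ ∑ k ∈ range n, M * θ ^ k := by
    refine (N1_sum _ _).trans (Finset.sum_le_sum fun k _ => ?_)
    exact (N1_lin hG _).trans (mul_le_mul_of_nonneg_left (N1_rho hθ hE y k) hM)
  refine h1.trans ?_
  rw [← Finset.mul_sum, div_eq_mul_inv]
  apply mul_le_mul_of_nonneg_left _ hM
  have h2 : (∑ k ∈ range n, θ ^ k) * (1 - θ) = 1 - θ ^ n := geom_sum_mul_neg θ n
  have h3 : 0 < 1 - θ := by linarith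
  rw [← one_div, le_div_iff₀ h3, h2]
  linarith [pow_nonneg hθ n]

theorem TF_Rn (hT : ∀ y, TF s c (G y) = Finsupp.single y 1 + E y) (y : V) (n : ℕ) :
    TF s c (Rn G E y n) = Finsupp.single y 1 - rho E y n := by
  have key : ∀ h : V →₀ ℝ, TF s c (Finsupp.linearCombination ℝ G h) =
      h + Finsupp.linearCombination ℝ E h := by
    intro h
    induction h using Finsupp.induction_linear with
    | zero => simp
    | add f g hf hg =>
      simp only [map_add, hf, hg]
      abel
    | single x a =>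
      rw [Finsupp.linearCombination_single, Finsupp.linearCombination_single, map_smul, hT,
        smul_add, Finsupp.smul_single, smul_eq_mul, mul_one]
  induction n with
  | zero => simp [Rn, rho]
  | succ n ih =>
    have h1 : Rn G E y (n + 1) = Rn G E y n + Finsupp.linearCombination ℝ G (rho E y n) := by
      unfold Rn
      rw [Finset.sum_range_succ]
    rw [h1, map_add, ih, key]
    show _ = Finsupp.single y 1 - -Finsupp.linearCombination ℝ E (rho E y n)
    abel

/-- near symmetry of the approximate inverse -/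
theorem Rn_symm (hs : ∀ l, Function.Involutive (s l)) (hM : 0 ≤ M) (hθ : 0 ≤ θ) (hθ1 : θ < 1)
    (hG : ∀ v, N1 (G v) ≤ M) (hE : ∀ v, N1 (E v) ≤ θ)
    (hT : ∀ y, TF s c (G y) = Finsupp.single y 1 + E y) (x y : V) (n : ℕ) :
    |Rn G E y n x| ≤ |Rn G E x n y| + 2 * (M / (1 - θ)) * θ ^ n := by
  have h1 := TF_symm (c := c) hs (Rn G E y n) (Rn G E x n)
  have h2 : Finsupp.linearCombination ℝ (fun z => (TF s c (Rn G E x n)) z) (Rn G E y n) =
      Rn G E y n x - Finsupp.linearCombination ℝ (fun z => rho E x n z) (Rn G E y n) := by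
    rw [pair_comm, TF_Rn hT, map_sub, Finsupp.linearCombination_single, one_smul, pair_comm]
  have h3 : Finsupp.linearCombination ℝ (fun z => (Rn G E x n) z) (TF s c (Rn G E y n)) =
      Rn G E x n y - Finsupp.linearCombination ℝ (fun z => (Rn G E x n) z) (rho E y n) := by
    rw [TF_Rn hT, map_sub, Finsupp.linearCombination_single, one_smul]
  rw [h2, h3] at h1
  have h4 : |Finsupp.linearCombination ℝ (fun z => rho E x n z) (Rn G E y n)| ≤
      M / (1 - θ) * θ ^ n :=
    pair_abs_le.trans (mul_le_mul (N1_Rn hM hθ hθ1 hG hE y n) (N1_rho hθ hE x n) (N1_nonneg _)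
      (div_nonneg hM (by linarith)))
  have h5 : |Finsupp.linearCombination ℝ (fun z => (Rn G E x n) z) (rho E y n)| ≤
      M / (1 - θ) * θ ^ n := by
    rw [mul_comm]
    exact pair_abs_le.trans (mul_le_mul (N1_rho hθ hE y n) (N1_Rn hM hθ hθ1 hG hE x n)
      (N1_nonneg _) (pow_nonneg hθ n))
  have h6 : Rn G E y n x = Rn G E x n y -
      Finsupp.linearCombination ℝ (fun z => (Rn G E x n) z) (rho E y n) +
      Finsupp.linearCombination ℝ (fun z => rho E x n z) (Rn G E y n) := by linarith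
  rw [h6]
  calc _ ≤ |Rn G E x n y - Finsupp.linearCombination ℝ (fun z => (Rn G E x n) z) (rho E y n)| +
        |Finsupp.linearCombination ℝ (fun z => rho E x n z) (Rn G E y n)| := abs_add_le _ _
    _ ≤ |Rn G E x n y| + |Finsupp.linearCombination ℝ (fun z => (Rn G E x n) z) (rho E y n)| +
        |Finsupp.linearCombination ℝ (fun z => rho E x n z) (Rn G E y n)| := by
        gcongr
        exact abs_sub _ _
    _ ≤ _ := by linarith

/-- The `ℓ²` bound. -/
theorem l2_bound (hs : ∀ l, Function.Involutive (s l)) (hM : 0 ≤ M) (hθ : 0 ≤ θ) (hθ1 : θ < 1)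
    (hG : ∀ v, N1 (G v) ≤ M) (hE : ∀ v, N1 (E v) ≤ θ)
    (hT : ∀ y, TF s c (G y) = Finsupp.single y 1 + E y) (ψ : V → ℂ) {B A : ℝ}
    (hB : ∀ x, ‖ψ x‖ ≤ B) (hA : ∀ S : Finset V, ∑ x ∈ S, ‖Tc s c ψ x‖ ^ 2 ≤ A) (S : Finset V) :
    ∑ y ∈ S, ‖ψ y‖ ^ 2 ≤ (M / (1 - θ)) ^ 2 * A := by
  classical
  set C := M / (1 - θ) with hC
  have hC0 : 0 ≤ C := div_nonneg hM (by linarith)
  have hA0 : 0 ≤ A := by simpa using hA ∅
  -- the approximations
  have hstep : ∀ n, ∑ y ∈ S, ‖Finsupp.linearCombination ℝ (Tc s c ψ) (Rn G E y n)‖ ^ 2 ≤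
      C * ((C + S.card * (2 * C * θ ^ n)) * A) := by
    intro n
    set U : Finset V := S.biUnion fun y => (Rn G E y n).support with hU
    have hsub : ∀ y ∈ S, (Rn G E y n).support ⊆ U := fun y hy =>
      Finset.subset_biUnion_of_mem (fun y => (Rn G E y n).support) hy
    calc ∑ y ∈ S, ‖Finsupp.linearCombination ℝ (Tc s c ψ) (Rn G E y n)‖ ^ 2
        ≤ ∑ y ∈ S, C * ∑ x ∈ U, |Rn G E y n x| * ‖Tc s c ψ x‖ ^ 2 := by
          refine Finset.sum_le_sum fun y hy => pair_sq_le.trans ?_
          refine mul_le_mul (N1_Rn hM hθ hθ1 hG hE y n) ?_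
            (Finset.sum_nonneg fun x _ => by positivity) hC0
          exact Finset.sum_le_sum_of_subset_of_nonneg (hsub y hy) fun x _ _ => by positivity
      _ = C * ∑ x ∈ U, (∑ y ∈ S, |Rn G E y n x|) * ‖Tc s c ψ x‖ ^ 2 := by
          rw [← Finset.mul_sum, Finset.sum_comm]
          congr 1
          exact Finset.sum_congr rfl fun x _ => by rw [Finset.sum_mul]
      _ ≤ C * ∑ x ∈ U, (C + S.card * (2 * C * θ ^ n)) * ‖Tc s c ψ x‖ ^ 2 := by
          gcongr with x _
          calc ∑ y ∈ S, |Rn G E y n x| ≤ ∑ y ∈ S, (|Rn G E x n y| + 2 * C * θ ^ n) :=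
                Finset.sum_le_sum fun y _ => Rn_symm hs hM hθ hθ1 hG hE hT x y n
            _ = ∑ y ∈ S, |Rn G E x n y| + S.card * (2 * C * θ ^ n) := by
                rw [Finset.sum_add_distrib, Finset.sum_const, nsmul_eq_mul]
            _ ≤ C + S.card * (2 * C * θ ^ n) := by
                gcongr
                have h1 : ∑ y ∈ S, |Rn G E x n y| ≤ N1 (Rn G E x n) := by
                  rw [N1_eq (Finset.subset_union_left (s₂ := S))]
                  exact Finset.sum_le_sum_of_subset_of_nonneg Finset.subset_union_right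
                    fun _ _ _ => abs_nonneg _
                exact h1.trans (N1_Rn hM hθ hθ1 hG hE x n)
      _ ≤ C * ((C + S.card * (2 * C * θ ^ n)) * A) := by
          rw [← Finset.mul_sum]
          have h0 : 0 ≤ C + S.card * (2 * C * θ ^ n) := by positivity
          gcongr
          exact hA U
  -- the limit
  have hlim : ∀ y, Filter.Tendsto
      (fun n => Finsupp.linearCombination ℝ (Tc s c ψ) (Rn G E y n)) Filter.atTop
      (nhds (ψ y)) := by
    intro y
    have h1 : ∀ n, Finsupp.linearCombination ℝ (Tc s c ψ) (Rn G E y n) =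
        ψ y - Finsupp.linearCombination ℝ ψ (rho E y n) := by
      intro n
      rw [← pair_TF, TF_Rn hT, map_sub, Finsupp.linearCombination_single, one_smul]
    simp only [h1]
    have h2 : Filter.Tendsto (fun n => Finsupp.linearCombination ℝ ψ (rho E y n)) Filter.atTop
        (nhds 0) := by
      rw [tendsto_zero_iff_norm_tendsto_zero]
      have h3 : Filter.Tendsto (fun n => θ ^ n * B) Filter.atTop (nhds 0) := by
        have := (tendsto_pow_atTop_nhds_zero_of_lt_one hθ hθ1).mul_const B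
        simpa using this
      refine squeeze_zero (fun n => norm_nonneg _) (fun n => ?_) h3
      refine (pair_norm_le hB).trans ?_
      exact mul_le_mul_of_nonneg_right (N1_rho hθ hE y n) ((norm_nonneg _).trans (hB y))
    simpa using h2.const_sub (ψ y)
  have hl : Filter.Tendsto
      (fun n => ∑ y ∈ S, ‖Finsupp.linearCombination ℝ (Tc s c ψ) (Rn G E y n)‖ ^ 2) Filter.atTop
      (nhds (∑ y ∈ S, ‖ψ y‖ ^ 2)) :=
    tendsto_finsetSum _ fun y _ => ((hlim y).norm.pow 2)
  have hr : Filter.Tendsto (fun n : ℕ => C * ((C + S.card * (2 * C * θ ^ n)) * A)) Filter.atTop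
      (nhds (C ^ 2 * A)) := by
    have h3 := tendsto_pow_atTop_nhds_zero_of_lt_one hθ hθ1
    have h4 : Filter.Tendsto (fun n : ℕ => C * ((C + S.card * (2 * C * θ ^ n)) * A)) Filter.atTop
        (nhds (C * ((C + S.card * (2 * C * 0)) * A))) :=
      ((((h3.const_mul (2 * C)).const_mul (S.card : ℝ)).const_add C).mul_const A).const_mul C
    have e : C * ((C + S.card * (2 * C * 0)) * A) = C ^ 2 * A := by ring
    rwa [e] at h4
  exact le_of_tendsto_of_tendsto' hl hr hstep

end Main

end Pool.Agent.helper43.Rob
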