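import Pool.Agent.helper43.Rob.Comb

/-!
# Robinson triangle tilings: parametrix certificates

A certificate is a finite coloured graph (nodes `1, …, m`, node `1` is the centre, the
neighbour of `j` across the colour `l` is `fld 10 N (3 * j + l)`) with a coefficient for each node.
-/

namespace Pool.Agent.helper43.Rob

/-- the properties extracted from `chkKap` -/
structure KapOK (m N g : ℕ) : Prop where
  g0 : kv g 0 = 65536
  sum : ∑ i ∈ Finset.range m, kerr N g (i + 1) ≤ 507904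
  sym : ∀ j, dom m j → ∀ l, l < 3 → kn N l j ≠ 0 → kn N l j ≤ m ∧ kn N l (kn N l j) = j
  par : ∀ j, 2 ≤ j → j ≤ m → ∃ l, l < 3 ∧ kn N l j ≠ 0 ∧ kn N l j < j
  bd : ∀ j, dom m j → ∀ l, l < 3 → kn N l j = 0 → kv g j = 65536

theorem chkN_spec {m N l j t : ℕ} (H : chkN m N l j t = true) (ht : t ≠ 0) :
    t ≤ m ∧ kn N l t = j := by
  unfold chkN at H
  have hbt : Nat.beq t 0 = false := by rw [← Bool.not_eq_true, Nat.beq_eq]; exact ht
  rw [hbt, cond_false] at H
  obtain ⟨h1, h2⟩ := cond_and H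
  exact ⟨Nat.ble_eq.mp h1, Nat.beq_eq.mp h2⟩

theorem isPar_spec {j t : ℕ} (H : isPar j t = true) : t ≠ 0 ∧ t < j := by
  unfold isPar at H
  obtain ⟨h1, h2⟩ := cond_nand H
  rw [← Bool.not_eq_true, Nat.beq_eq] at h1
  exact ⟨h1, Nat.ble_eq.mp h2⟩

theorem cond_or {a b : Bool} (h : cond a true b = true) : a = true ∨ b = true := by
  cases a
  · exact Or.inr h
  · exact Or.inl rfl

theorem chkKap_spec {m N g : ℕ} (H : chkKap m N g = true) : KapOK m N g := by
  unfold chkKap at H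
  obtain ⟨h1, H⟩ := cond_and H
  obtain ⟨h2, H⟩ := cond_and H
  have key : ∀ j, dom m j →
      (∀ l, l < 3 → kn N l j ≠ 0 → kn N l j ≤ m ∧ kn N l (kn N l j) = j) ∧
      (2 ≤ j → ∃ l, l < 3 ∧ kn N l j ≠ 0 ∧ kn N l j < j) ∧
      (∀ l, l < 3 → kn N l j = 0 → kv g j = 65536) := by
    intro j hj
    obtain ⟨i, rfl⟩ : ∃ i, j = i + 1 := ⟨j - 1, by have := hj.1; omega⟩
    have h3 := allB_iff.mp H i (by have := hj.2; omega)
    obtain ⟨h4, h5⟩ := cond_and h3
    obtain ⟨h6, h7⟩ := cond_and h5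
    obtain ⟨h8, h9⟩ := cond_and h7
    obtain ⟨h10, h11⟩ := cond_and h9
    refine ⟨?_, ?_, ?_⟩
    · intro l hl hne
      interval_cases l
      · exact chkN_spec h4 hne
      · exact chkN_spec h6 hne
      · exact chkN_spec h8 hne
    · intro h2j
      rcases cond_or h10 with h | h
      · rw [Nat.beq_eq] at h; omega
      · rcases cond_or h with h | h
        · exact ⟨0, by norm_num, isPar_spec h⟩
        · rcases cond_or h with h | h
          · exact ⟨1, by norm_num, isPar_spec h⟩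
          · exact ⟨2, by norm_num, isPar_spec h⟩
    · intro l hl h0
      have hz : Nat.beq (Nat.mul (kn N 0 (Nat.succ i)) (Nat.mul (kn N 1 (Nat.succ i))
          (kn N 2 (Nat.succ i)))) 0 = true := by
        rw [Nat.beq_eq]
        show kn N 0 (i + 1) * (kn N 1 (i + 1) * kn N 2 (i + 1)) = 0
        interval_cases l
        · rw [h0]; simp
        · rw [h0]; simp
        · rw [h0]; simp
      rw [hz] at h11
      exact Nat.beq_eq.mp h11
  refine ⟨Nat.beq_eq.mp h1, ?_, fun j hj => (key j hj).1, fun j h2 hm =>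
    (key j ⟨by omega, hm⟩).2.1 h2, fun j hj => (key j hj).2.2⟩
  have := Nat.ble_eq.mp h2
  rw [sumB_eq] at this
  exact this

/-- real coefficient -/
noncomputable def gam (g j : ℕ) : ℝ := ((kv g j : ℝ) - 65536) / 32768

/-- real error coefficient -/
noncomputable def eps (N g j : ℕ) : ℝ :=
  gam g (kn N 0 j) + gam g (kn N 1 j) + gam g (kn N 2 j) - 5 / 16 * gam g j -
    (if j = 1 then 1 else 0)

theorem adiff_cast (a b : ℕ) : ((adiff a b : ℕ) : ℝ) = |(a : ℝ) - b| := by
  have h : adiff a b = (a - b) + (b - a) := rfl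
  rw [h]
  rcases le_total a b with hab | hab
  · rw [Nat.sub_eq_zero_of_le hab, zero_add, Nat.cast_sub hab, abs_of_nonpos]
    · ring
    · have : (a : ℝ) ≤ b := by exact_mod_cast hab
      linarith
  · rw [Nat.sub_eq_zero_of_le hab, add_zero, Nat.cast_sub hab, abs_of_nonneg]
    have : (b : ℝ) ≤ a := by exact_mod_cast hab
    linarith

theorem abs_eps (N g j : ℕ) : |eps N g j| = (kerr N g j : ℝ) / 524288 := by
  unfold kerr
  rw [adiff_cast]
  have h1 : (((Nat.mul 16 (Nat.add (kv g (kn N 0 j)) (Nat.add (kv g (kn N 1 j))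
      (kv g (kn N 2 j)))) : ℕ) : ℝ)) =
      16 * ((kv g (kn N 0 j) : ℝ) + kv g (kn N 1 j) + kv g (kn N 2 j)) := by
    simp only [Nat.mul_eq, Nat.add_eq]
    push_cast
    ring
  have h2 : (((Nat.add (Nat.mul 5 (kv g j)) (Nat.add 2818048 (cond (Nat.beq j 1) 524288 0)) : ℕ)
      : ℝ)) = 5 * (kv g j : ℝ) + 2818048 + (if j = 1 then 524288 else 0) := by
    simp only [Nat.mul_eq, Nat.add_eq]
    by_cases hj : j = 1
    · subst hj
      simp
      ring
    · have : Nat.beq j 1 = false := by rw [← Bool.not_eq_true, Nat.beq_eq]; exact hj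
      rw [this, if_neg hj]
      simp only [cond_false]
      push_cast
      ring
  rw [h1, h2]
  have h3 : eps N g j = (16 * ((kv g (kn N 0 j) : ℝ) + kv g (kn N 1 j) + kv g (kn N 2 j)) -
      (5 * (kv g j : ℝ) + 2818048 + (if j = 1 then 524288 else 0))) / 524288 := by
    unfold eps gam
    split_ifs
    · ring
    · ring
  rw [h3, abs_div, abs_of_pos (show (0 : ℝ) < 524288 by norm_num)]

theorem abs_gam_le (g j : ℕ) : |gam g j| ≤ 2 := by
  unfold gam
  have h1 : kv g j < 2 ^ 17 := fld_lt _ _ _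
  have h2 : (kv g j : ℝ) < 131072 := by
    have : kv g j < 131072 := by simpa using h1
    exact_mod_cast this
  have h3 : (0 : ℝ) ≤ kv g j := Nat.cast_nonneg _
  rw [abs_le]
  constructor
  · linarith
  · linarith

theorem sum_eps_le {m N g : ℕ} (K : KapOK m N g) :
    ∑ j ∈ Finset.Icc 1 m, |eps N g j| ≤ 31 / 32 := by
  have h1 : ∑ j ∈ Finset.Icc 1 m, |eps N g j| = ∑ i ∈ Finset.range m, |eps N g (i + 1)| := by
    rw [Finset.range_eq_Ico, Finset.sum_Ico_add' (fun j => |eps N g j|) 0 m 1, zero_add]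
    rfl
  rw [h1]
  simp only [abs_eps]
  rw [← Finset.sum_div, ← Nat.cast_sum]
  have h2 : ((∑ i ∈ Finset.range m, kerr N g (i + 1) : ℕ) : ℝ) ≤ 507904 := by
    exact_mod_cast K.sum
  calc _ ≤ (507904 : ℝ) / 524288 := by gcongr
    _ = 31 / 32 := by norm_num

theorem gam_zero {m N g : ℕ} (K : KapOK m N g) : gam g 0 = 0 := by
  unfold gam
  rw [K.g0]
  norm_num

theorem gam_bd {m N g : ℕ} (K : KapOK m N g) {j : ℕ} (hj : dom m j) {l : ℕ} (hl : l < 3)
    (h0 : kn N l j = 0) : gam g j = 0 := by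
  unfold gam
  rw [K.bd j hj l hl h0]
  norm_num

/-- reindexing along one colour -/
theorem reindex {M : Type*} [AddCommGroup M] [Module ℝ M] {m N g : ℕ} (K : KapOK m N g)
    (F : ℕ → M) {l : ℕ} (hl : l < 3) :
    ∑ j ∈ Finset.Icc 1 m, gam g j • F (kn N l j) =
      ∑ j ∈ Finset.Icc 1 m, gam g (kn N l j) • F j := by
  have h1 : ∑ j ∈ Finset.Icc 1 m, gam g j • F (kn N l j) =
      ∑ j ∈ (Finset.Icc 1 m).filter (fun j => kn N l j ≠ 0), gam g j • F (kn N l j) := by
    rw [Finset.sum_filter]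
    refine Finset.sum_congr rfl fun j hj => ?_
    rw [Finset.mem_Icc] at hj
    split_ifs with h
    · rfl
    · rw [not_not] at h
      rw [gam_bd K hj hl h, zero_smul]
  have h2 : ∑ j ∈ Finset.Icc 1 m, gam g (kn N l j) • F j =
      ∑ j ∈ (Finset.Icc 1 m).filter (fun j => kn N l j ≠ 0), gam g (kn N l j) • F j := by
    rw [Finset.sum_filter]
    refine Finset.sum_congr rfl fun j hj => ?_
    split_ifs with h
    · rfl
    · rw [not_not] at h
      rw [h, gam_zero K, zero_smul]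
  rw [h1, h2]
  refine Finset.sum_nbij' (fun j => kn N l j) (fun j => kn N l j) ?_ ?_ ?_ ?_ ?_
  · intro j hj
    rw [Finset.mem_filter, Finset.mem_Icc] at hj ⊢
    obtain ⟨h3, h4⟩ := K.sym j hj.1 l hl hj.2
    refine ⟨⟨Nat.one_le_iff_ne_zero.mpr hj.2, h3⟩, ?_⟩
    rw [h4]
    have := hj.1.1
    omega
  · intro j hj
    rw [Finset.mem_filter, Finset.mem_Icc] at hj ⊢
    obtain ⟨h3, h4⟩ := K.sym j hj.1 l hl hj.2
    refine ⟨⟨Nat.one_le_iff_ne_zero.mpr hj.2, h3⟩, ?_⟩
    rw [h4]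
    have := hj.1.1
    omega
  · intro j hj
    rw [Finset.mem_filter, Finset.mem_Icc] at hj
    exact (K.sym j hj.1 l hl hj.2).2
  · intro j hj
    rw [Finset.mem_filter, Finset.mem_Icc] at hj
    exact (K.sym j hj.1 l hl hj.2).2
  · intro j hj
    rw [Finset.mem_filter, Finset.mem_Icc] at hj
    rw [(K.sym j hj.1 l hl hj.2).2]

/-- The parametrix identity of a certificate. -/
theorem kap_identity {M : Type*} [AddCommGroup M] [Module ℝ M] {m N g : ℕ} (K : KapOK m N g)
    (hm : 1 ≤ m) (F : ℕ → M) :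
    ∑ j ∈ Finset.Icc 1 m, gam g j •
      (F (kn N 0 j) + F (kn N 1 j) + F (kn N 2 j) - (5 / 16 : ℝ) • F j) =
      F 1 + ∑ j ∈ Finset.Icc 1 m, eps N g j • F j := by
  have h1 : ∀ j ∈ Finset.Icc 1 m, gam g j •
      (F (kn N 0 j) + F (kn N 1 j) + F (kn N 2 j) - (5 / 16 : ℝ) • F j) =
      gam g j • F (kn N 0 j) + gam g j • F (kn N 1 j) + gam g j • F (kn N 2 j) -
        (5 / 16 * gam g j) • F j := by
    intro j _
    rw [smul_sub, smul_add, smul_add, smul_smul, mul_comm (gam g j)]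
  rw [Finset.sum_congr rfl h1, Finset.sum_sub_distrib, Finset.sum_add_distrib,
    Finset.sum_add_distrib, reindex K F (by norm_num), reindex K F (by norm_num),
    reindex K F (by norm_num), ← Finset.sum_add_distrib, ← Finset.sum_add_distrib,
    ← Finset.sum_sub_distrib]
  have h2 : F 1 = ∑ j ∈ Finset.Icc 1 m, (if j = 1 then (1 : ℝ) else 0) • F j := by
    rw [Finset.sum_eq_single 1]
    · simp
    · intro j _ hj
      rw [if_neg hj, zero_smul]
    · intro h
      exact absurd (Finset.mem_Icc.mpr ⟨le_refl 1, hm⟩) h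
  rw [h2, ← Finset.sum_add_distrib]
  refine Finset.sum_congr rfl fun j _ => ?_
  unfold eps
  rw [← add_smul, ← add_smul, ← sub_smul, ← add_smul]
  congr 1
  ring

/-! ### placing a certificate in a substituted patch -/

/-- A certificate graph placed in `G` with centre `x`. -/
structure Placed (m N : ℕ) (G : PG) (x : ℕ) (f : ℕ → ℕ) : Prop where
  one : f 1 = x
  ne : ∀ j, dom m j → f j ≠ 0
  nb : ∀ j, dom m j → ∀ l, l < 3 → kn N l j ≠ 0 → G.nb l (f j) = f (kn N l j)

theorem chkEnt_spec {mQ shQ nbQ m N y F : ℕ} (H : chkEnt mQ shQ nbQ m N y F = true) :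
    fld 16 F 1 = 512 + y ∧ ∀ j, dom m j → dom mQ (fld 16 F j / 512) ∧
      ∀ l, l < 3 → kn N l j ≠ 0 →
        (sub (sub (sub (tab shQ nbQ)))).nb l (fld 16 F j) = fld 16 F (kn N l j) := by
  unfold chkEnt at H
  obtain ⟨h1, H⟩ := cond_and H
  refine ⟨Nat.beq_eq.mp h1, ?_⟩
  intro j hj
  obtain ⟨i, rfl⟩ : ∃ i, j = i + 1 := ⟨j - 1, by have := hj.1; omega⟩
  have h2 := allB_iff.mp H i (by have := hj.2; omega)
  unfold chkEntJ at h2
  obtain ⟨h3, h4⟩ := cond_nand h2
  obtain ⟨h5, h6⟩ := cond_and h4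
  obtain ⟨h7, h8⟩ := cond_and h6
  obtain ⟨h9, h10⟩ := cond_and h8
  rw [← Bool.not_eq_true, Nat.beq_eq] at h3
  rw [Nat.ble_eq] at h5
  have aux : ∀ l, chkE1 (sub (sub (sub (tab shQ nbQ)))) N F (fld 16 F (Nat.succ i)) l
      (Nat.succ i) = true → kn N l (i + 1) ≠ 0 →
      (sub (sub (sub (tab shQ nbQ)))).nb l (fld 16 F (i + 1)) = fld 16 F (kn N l (i + 1)) := by
    intro l hl hne
    unfold chkE1 at hl
    have hbt : Nat.beq (kn N l (Nat.succ i)) 0 = false := by
      rw [← Bool.not_eq_true, Nat.beq_eq]; exact hne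
    rw [hbt, cond_false] at hl
    exact Nat.beq_eq.mp hl
  refine ⟨⟨Nat.one_le_iff_ne_zero.mpr h3, h5⟩, ?_⟩
  intro l hl hne
  interval_cases l
  · exact aux 0 h7 hne
  · exact aux 1 h9 hne
  · exact aux 2 h10 hne

end Pool.Agent.helper43.Rob
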