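import Pool.Agent.helper43.Rob.K
import Pool.Agent.helper43.Rob.Fam

/-! Kernel checks: the closed family of rooted patches. -/

namespace Pool.Agent.helper43.Rob

set_option maxRecDepth 100000

/-- the `p`-th patch -/
def pdm (p : Nat) : Nat := (pd.getD p (0, 0, 0)).1

def pdG (p : Nat) : PG := tab (pd.getD p (0, 0, 0)).2.1 (pd.getD p (0, 0, 0)).2.2

def inDom (m t : Nat) : Bool := cond (Nat.beq t 0) false (Nat.ble t m)

/-- closure check for the patch `p`, child `d`, patch `p'` and map `h` -/
def chkC (p d : Nat) (t : Nat × Nat × Nat) : Bool :=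
  cond (Nat.beq t.1 d) (cond (Nat.ble (Nat.succ t.2.1) 53)
    (cond (Nat.beq (fld 10 t.2.2 1) (Nat.add 8 d))
      (cond (chkMor (pdG t.2.1) (pdm t.2.1) (sub (pdG p)) 10 t.2.2)
        (allB (fun i => inDom (pdm p) (Nat.div (fld 10 t.2.2 (Nat.succ i)) 8)) (pdm t.2.1)) false)
      false) false) false

theorem closure_check : allB (fun p => cond (Nat.ble 1 (pdm p)) (allB (fun d =>
    cond (compat ((pdG p).sh 1) d) ((cd.getD p []).any (chkC p d)) true) 5) false) 53 = true := by
  decide +kernel

theorem base_check : allB (fun k => cond (Nat.ble (Nat.succ (bd.getD k (0, 0)).1) 53)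
    (cond (Nat.beq (fld 16 (bd.getD k (0, 0)).2 1) (Nat.add (Nat.mul 4096 (Nat.succ k)) 1690))
    (chkMor (pdG (bd.getD k (0, 0)).1) (pdm (bd.getD k (0, 0)).1) (sub (sub (sub (sub X0)))) 16
      (bd.getD k (0, 0)).2) false) false) 10 = true := by
  decide +kernel

/-- the root of every patch has three neighbours -/
theorem root_check : allB (fun p => cond (Nat.beq ((pdG p).nb 0 1) 0) false
    (cond (Nat.beq ((pdG p).nb 1 1) 0) false (cond (Nat.beq ((pdG p).nb 2 1) 0) false true)))
    53 = true := by
  decide +kernel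

end Pool.Agent.helper43.Rob
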