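import Pool.Agent.helper43.Rob.ChkA
import Pool.Agent.helper43.Rob.CovD
import Pool.Agent.helper43.Rob.Ch0
import Pool.Agent.helper43.Rob.Ch1
import Pool.Agent.helper43.Rob.Ch2
import Pool.Agent.helper43.Rob.Ch3
import Pool.Agent.helper43.Rob.Ch4
import Pool.Agent.helper43.Rob.Ch5
import Pool.Agent.helper43.Rob.Ch6
import Pool.Agent.helper43.Rob.Ch7

/-! Kernel checks: every triangle below a root of a patch has a certificate. -/

namespace Pool.Agent.helper43.Rob

set_option maxRecDepth 100000

/-- all placements -/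
def ents : List (Nat × Nat × Nat × Nat × Nat) :=
  (gs0 ++ (gs1 ++ (gs2 ++ (gs3 ++ (gs4 ++ (gs5 ++ (gs6 ++ gs7))))))).flatMap
    (fun g => g.flatMap Prod.snd)

/-- shape of the child with number `d` -/
def dsh (d : Nat) : Bool := Nat.testBit 14 d

/-- three consecutive child numbers, packed in base 8 -/
def compat3 (s : Bool) (y : Nat) : Bool :=
  cond (compat s (Nat.div y 64)) (cond (compat (dsh (Nat.div y 64)) (Nat.mod (Nat.div y 8) 8))
    (compat (dsh (Nat.mod (Nat.div y 8) 8)) (Nat.mod y 8)) false) false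

def chkV1 (p y h : Nat) (E : Nat × Nat × Nat × Nat × Nat) : Bool :=
  cond (Nat.beq E.2.2.2.1 y) (cond (Nat.beq (fld 7 h 1) 1)
    (cond (chkMor (tab E.2.1 E.2.2.1) E.1 (pdG p) 7 h)
      (allB (fun i => inDom (pdm p) (fld 7 h (Nat.succ i))) E.1) false) false) false

def chkV (p y : Nat) (t : Nat × Nat × Nat) : Bool :=
  cond (Nat.beq t.1 y) (cond (Nat.ble (Nat.succ t.2.1) 412)
    (chkV1 p y t.2.2 (ents.getD t.2.1 (0, 0, 0, 0, 0))) false) false

theorem ents_length : ents.length = 412 := by decide +kernel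

theorem cover_check : allB (fun p => allB (fun y =>
    cond (compat3 ((pdG p).sh 1) y) ((cv.getD p []).any (chkV p y)) true) 512) 53 = true := by
  decide +kernel

end Pool.Agent.helper43.Rob
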