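import Pool.Agent.helper43.Rob.Cert
import Pool.Agent.helper43.Rob.ChkA

/-!
# The closed family of rooted patches
-/

namespace Pool.Agent.helper43.Rob

set_option maxRecDepth 100000

/-- `x` is the root of one of the patches of the family, inside `X`. -/
def Good (X : PG) (x : ℕ) : Prop :=
  ∃ p, p < 53 ∧ ∃ h : ℕ → ℕ, IsMor (pdG p) (dom (pdm p)) X h ∧ h 1 = x

theorem inDom_spec {m t : ℕ} (h : inDom m t = true) : dom m t := by
  unfold inDom at h
  obtain ⟨h1, h2⟩ := cond_nand h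
  rw [← Bool.not_eq_true, Nat.beq_eq] at h1
  exact ⟨Nat.one_le_iff_ne_zero.mpr h1, Nat.ble_eq.mp h2⟩

theorem Good.sh {X : PG} {x : ℕ} (h : Good X x) :
    ∃ p, p < 53 ∧ X.sh x = (pdG p).sh 1 ∧ 1 ≤ pdm p ∧
      ∃ h : ℕ → ℕ, IsMor (pdG p) (dom (pdm p)) X h ∧ h 1 = x := by
  obtain ⟨p, hp, g, M, h1⟩ := h
  have hm := (cond_and (allB_iff.mp closure_check p hp)).1
  rw [Nat.ble_eq] at hm
  refine ⟨p, hp, ?_, hm, g, M, h1⟩
  rw [← h1]
  exact M.sh 1 ⟨le_refl 1, hm⟩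

theorem compat_lt {s : Bool} {d : ℕ} (h : compat s d = true) : d < 5 := by
  cases s
  · rcases compat_false.mp h with h | h <;> omega
  · rcases compat_true.mp h with h | h | h <;> omega

/-- children of good nodes are good -/
theorem Good.child {X : PG} {x : ℕ} (h : Good X x) {d : ℕ} (hd : compat (X.sh x) d = true) :
    Good (sub X) (8 * x + d) := by
  obtain ⟨p, hp, hs, hm, g, M, h1⟩ := h.sh
  have h2 := (cond_and (allB_iff.mp closure_check p hp)).2
  have hd5 := compat_lt hd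
  have h3 := allB_iff.mp h2 d hd5
  rw [← hs, hd, cond_true, List.any_eq_true] at h3
  obtain ⟨t, _, ht⟩ := h3
  unfold chkC at ht
  obtain ⟨_, ht⟩ := cond_and ht
  obtain ⟨h5, ht⟩ := cond_and ht
  obtain ⟨h6, ht⟩ := cond_and ht
  obtain ⟨h7, h8⟩ := cond_and ht
  have M1 := chkMor_spec h7
  have M2 := M.sub
  have hp' : t.2.1 < 53 := by
    have := Nat.ble_eq.mp h5
    omega
  refine ⟨t.2.1, hp', fun q => subMap g (fld 10 t.2.2 q), M1.comp M2 ?_, ?_⟩
  · intro q hq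
    obtain ⟨i, rfl⟩ : ∃ i, q = i + 1 := ⟨q - 1, by have := hq.1; omega⟩
    exact inDom_spec (allB_iff.mp h8 i (by have := hq.2; omega))
  · show subMap g (fld 10 t.2.2 1) = _
    rw [Nat.beq_eq.mp h6]
    unfold subMap
    have e1 : Nat.add 8 d / 8 = 1 := by show (8 + d) / 8 = 1; omega
    have e2 : Nat.add 8 d % 8 = d := by show (8 + d) % 8 = d; omega
    rw [e1, e2, h1]

/-! ### the base -/

/-- the graph of the level `n` patch -/
def Xg : ℕ → PG
  | 0 => X0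
  | n + 1 => sub (Xg n)

theorem good_base {k : ℕ} (h1 : 1 ≤ k) (h2 : k ≤ 10) : Good (Xg 4) (4096 * k + 1690) := by
  obtain ⟨i, rfl⟩ : ∃ i, k = i + 1 := ⟨k - 1, by omega⟩
  have h3 := allB_iff.mp base_check i (by omega)
  obtain ⟨h4, h5⟩ := cond_and h3
  obtain ⟨h6, h7⟩ := cond_and h5
  exact ⟨(bd.getD i (0, 0)).1, Nat.ble_eq.mp h4, _, chkMor_spec h7, Nat.beq_eq.mp h6⟩

end Pool.Agent.helper43.Rob
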