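/-!
# Robinson triangle tilings: functions evaluated by the kernel

The dual graph of a Robinson triangle patch is properly edge-coloured by the three edge
types `ab` (0), `bc` (1), `ca` (2) of the triangles, and the substitution acts functorially on
such coloured graphs.  Nodes are coded by natural numbers, `0` means `undefined`, and the
child number `d` of the node `i` is coded by `8 * i + d`, with `d = 0, 1` for the two children of
an acute triangle and `d = 2, 3, 4` for the three children of an obtuse triangle.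
All functions are written so that the kernel evaluates them quickly.
-/

namespace Pool.Agent.helper43.Rob

/-- A coloured graph with shapes: `sh x = true` iff `x` is obtuse, `nb l x` is the neighbour of
`x` across the edge of type `l` (`0` if undefined). -/
structure PG where
  sh : Nat → Bool
  nb : Nat → Nat → Nat

/-- The `j`-th block of `w` bits of `g`. -/
def fld (w g j : Nat) : Nat := Nat.mod (Nat.shiftRight g (Nat.mul w j)) (Nat.pow 2 w)

/-- A finite coloured graph stored in two numbers. -/
def tab (shT nbT : Nat) : PG :=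
  ⟨fun i => Nat.testBit shT i, fun l i => fld 7 nbT (Nat.add (Nat.mul 3 i) l)⟩

/-- Transition table of the substitution, one byte for each pair (child, colour). -/
def TABS : Nat := 0x4b806f646d93934649644603018027

def stepT (G : PG) (e t : Nat) : Nat :=
  cond (Nat.beq t 0) 0
    (Nat.add (Nat.mul 8 t) (cond (G.sh t) (Nat.div e 32) (Nat.mod (Nat.div e 4) 8)))

def stepE (G : PG) (i e : Nat) : Nat :=
  cond (Nat.beq (Nat.mod e 4) 3) (Nat.add (Nat.mul 8 i) (Nat.div e 32))
    (stepT G e (G.nb (Nat.mod e 4) i))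

/-- The substituted graph. -/
def sub (G : PG) : PG :=
  ⟨fun x => Nat.testBit 14 (Nat.mod x 8),
   fun l x => stepE G (Nat.div x 8) (fld 8 TABS (Nat.add (Nat.mul 3 (Nat.mod x 8)) l))⟩

/-- `p i` for all `i < n`. -/
def allB (p : Nat → Bool) (n : Nat) : Bool :=
  Nat.rec true (fun n ih => cond (p n) ih false) n

/-- sum of `f i` over `i < n`. -/
def sumB (f : Nat → Nat) (n : Nat) : Nat := Nat.rec 0 (fun n ih => Nat.add (f n) ih) n

/-- digit group: children of acute triangles are `0, 1`, of obtuse ones `2, 3, 4`. -/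
def compat (s : Bool) (d : Nat) : Bool :=
  cond s (cond (Nat.ble 2 d) (Nat.ble d 4) false) (Nat.ble d 1)

def chk1 (G : PG) (w m h hq l : Nat) (t : Nat) : Bool :=
  cond (Nat.beq t 0) true (cond (Nat.ble t m) (Nat.beq (G.nb l hq) (fld w h t)) false)

/-- check that `q ↦ fld w h q` is a morphism from the nodes `1, …, m` of `H` to `G`. -/
def chkMor (H : PG) (m : Nat) (G : PG) (w h : Nat) : Bool :=
  allB (fun i =>
    cond (Nat.beq (fld w h (Nat.succ i)) 0) false
    (cond (Bool.xor (G.sh (fld w h (Nat.succ i))) (H.sh (Nat.succ i))) false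
    (cond (chk1 G w m h (fld w h (Nat.succ i)) 0 (H.nb 0 (Nat.succ i)))
    (cond (chk1 G w m h (fld w h (Nat.succ i)) 1 (H.nb 1 (Nat.succ i)))
    (chk1 G w m h (fld w h (Nat.succ i)) 2 (H.nb 2 (Nat.succ i)))
     false) false))) m

/-- neighbour table of a certificate. -/
def kn (N l j : Nat) : Nat := fld 10 N (Nat.add (Nat.mul 3 j) l)

/-- coefficient, shifted by `65536` -/
def kv (g j : Nat) : Nat := fld 17 g j

def adiff (a b : Nat) : Nat := Nat.add (Nat.sub a b) (Nat.sub b a)

def kerr (N g j : Nat) : Nat :=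
  adiff (Nat.mul 16 (Nat.add (kv g (kn N 0 j)) (Nat.add (kv g (kn N 1 j)) (kv g (kn N 2 j)))))
    (Nat.add (Nat.mul 5 (kv g j)) (Nat.add 2818048 (cond (Nat.beq j 1) 524288 0)))

def chkN (m N l j t : Nat) : Bool :=
  cond (Nat.beq t 0) true (cond (Nat.ble t m) (Nat.beq (kn N l t) j) false)

def isPar (j t : Nat) : Bool := cond (Nat.beq t 0) false (Nat.ble (Nat.succ t) j)

/-- validity of a certificate -/
def chkKap (m N g : Nat) : Bool :=
  cond (Nat.beq (kv g 0) 65536)
  (cond (Nat.ble (sumB (fun i => kerr N g (Nat.succ i)) m) 507904)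
  (allB (fun i =>
    cond (chkN m N 0 (Nat.succ i) (kn N 0 (Nat.succ i)))
    (cond (chkN m N 1 (Nat.succ i) (kn N 1 (Nat.succ i)))
    (cond (chkN m N 2 (Nat.succ i) (kn N 2 (Nat.succ i)))
    (cond (cond (Nat.beq i 0) true (cond (isPar (Nat.succ i) (kn N 0 (Nat.succ i))) true
      (cond (isPar (Nat.succ i) (kn N 1 (Nat.succ i))) true
        (isPar (Nat.succ i) (kn N 2 (Nat.succ i))))))
    (cond (Nat.beq (Nat.mul (kn N 0 (Nat.succ i)) (Nat.mul (kn N 1 (Nat.succ i))
      (kn N 2 (Nat.succ i)))) 0) (Nat.beq (kv g (Nat.succ i)) 65536) true)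
    false) false) false) false) m) false) false

def chkE1 (G : PG) (N F fj l j : Nat) : Bool :=
  cond (Nat.beq (kn N l j) 0) true (Nat.beq (G.nb l fj) (fld 16 F (kn N l j)))

def chkEntJ (G : PG) (mQ N F j fj : Nat) : Bool :=
  cond (Nat.beq (Nat.div fj 512) 0) false
  (cond (Nat.ble (Nat.div fj 512) mQ)
  (cond (chkE1 G N F fj 0 j) (cond (chkE1 G N F fj 1 j) (chkE1 G N F fj 2 j) false) false) false)

/-- `j ↦ fld 16 F j` places the certificate graph `(m, N)` in the third substitution of the
table graph `Q`, the centre being at the node `512 + y`. -/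
def chkEnt (mQ shQ nbQ m N y F : Nat) : Bool :=
  cond (Nat.beq (fld 16 F 1) (Nat.add 512 y))
  (allB (fun i => chkEntJ (sub (sub (sub (tab shQ nbQ)))) mQ N F (Nat.succ i)
    (fld 16 F (Nat.succ i))) m) false

/-- a list of certificates `(m, N, g)`, each with a list of placements `(mQ, shQ, nbQ, y, F)`. -/
def chkG (gc : List ((Nat × Nat × Nat) × List (Nat × Nat × Nat × Nat × Nat))) : Bool :=
  gc.all (fun k => cond (chkKap k.1.1 k.1.2.1 k.1.2.2) (cond (Nat.ble 1 k.1.1)
    (k.2.all (fun e => chkEnt e.1 e.2.1 e.2.2.1 k.1.1 k.1.2.1 e.2.2.2.1 e.2.2.2.2)) false) false)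

end Pool.Agent.helper43.Rob
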