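import Mathlib
import Pool.Agent.helper43.Rob.K

/-!
# Robinson triangle tilings: the combinatorial skeleton
-/

namespace Pool.Agent.helper43.Rob

theorem allB_iff {p : ℕ → Bool} {n : ℕ} : allB p n = true ↔ ∀ i, i < n → p i = true := by
  induction n with
  | zero => simp [allB]
  | succ n ih =>
    have h : allB p (n + 1) = cond (p n) (allB p n) false := rfl
    rw [h]
    cases hp : p n with
    | false =>
      simp only [cond_false, Bool.false_eq_true, false_iff, not_forall]
      exact ⟨n, Nat.lt_succ_self n, by simp [hp]⟩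
    | true =>
      simp only [cond_true, ih]
      constructor
      · intro H i hi
        rcases Nat.lt_succ_iff_lt_or_eq.mp hi with h | h
        · exact H i h
        · rw [h]; exact hp
      · intro H i hi
        exact H i (Nat.lt_succ_of_lt hi)

theorem sumB_eq (f : ℕ → ℕ) (n : ℕ) : sumB f n = ∑ i ∈ Finset.range n, f i := by
  induction n with
  | zero => simp [sumB]
  | succ n ih =>
    have h : sumB f (n + 1) = f n + sumB f n := rfl
    rw [h, ih, Finset.sum_range_succ, add_comm]

/-! ### semantics of `sub` -/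

theorem compat_false {d : ℕ} : compat false d = true ↔ d = 0 ∨ d = 1 := by
  unfold compat
  simp only [cond_false]
  rw [Nat.ble_eq]
  omega

theorem compat_true {d : ℕ} : compat true d = true ↔ d = 2 ∨ d = 3 ∨ d = 4 := by
  unfold compat
  simp only [cond_true]
  cases h : Nat.ble 2 d with
  | false =>
    simp only [cond_false, Bool.false_eq_true, false_iff]
    intro hd
    have : Nat.ble 2 d = true := by rw [Nat.ble_eq]; omega
    rw [h] at this
    exact Bool.false_ne_true this
  | true =>
    simp only [cond_true]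
    rw [Nat.ble_eq] at h ⊢
    omega

theorem sub_sh (G : PG) (x : ℕ) : (sub G).sh x = Nat.testBit 14 (x % 8) := rfl

theorem sub_nb (G : PG) (l x : ℕ) :
    (sub G).nb l x = stepE G (x / 8) (fld 8 TABS (3 * (x % 8) + l)) := rfl

/-- A coloured-graph morphism defined on the nodes satisfying `D`. -/
structure IsMor (H : PG) (D : ℕ → Prop) (G : PG) (h : ℕ → ℕ) : Prop where
  ne : ∀ q, D q → h q ≠ 0
  sh : ∀ q, D q → G.sh (h q) = H.sh q
  cl : ∀ q, D q → ∀ l, l < 3 → H.nb l q ≠ 0 → D (H.nb l q)
  nb : ∀ q, D q → ∀ l, l < 3 → H.nb l q ≠ 0 → G.nb l (h q) = h (H.nb l q)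

/-- functoriality of the substitution on maps. -/
def subMap (h : ℕ → ℕ) (x : ℕ) : ℕ := 8 * h (x / 8) + x % 8

def subD (D : ℕ → Prop) (x : ℕ) : Prop := D (x / 8)

/-- the letters occurring in the transition table are good -/
theorem TABS_spec : ∀ d, d < 8 → ∀ l, l < 3 →
    (fld 8 TABS (3 * d + l)) % 4 = 3 ∨ (fld 8 TABS (3 * d + l)) % 4 < 3 := by
  intro d _ l _
  omega

theorem fld_lt (w g j : ℕ) : fld w g j < 2 ^ w := Nat.mod_lt _ (Nat.two_pow_pos w)

theorem IsMor.sub {H : PG} {D : ℕ → Prop} {G : PG} {h : ℕ → ℕ} (M : IsMor H D G h) :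
    IsMor (sub H) (subD D) (Rob.sub G) (subMap h) := by
  refine ⟨?_, ?_, ?_, ?_⟩
  · intro x hx
    have := M.ne _ hx
    unfold subMap
    omega
  · intro x _
    rw [sub_sh, sub_sh]
    congr 1
    unfold subMap
    omega
  · intro x hx l hl hne
    rw [sub_nb] at hne ⊢
    set e := fld 8 TABS (3 * (x % 8) + l) with he
    have hebd : e < 256 := by rw [he]; exact fld_lt 8 _ _
    unfold stepE at hne ⊢
    by_cases h3 : e % 4 = 3
    · have hb : Nat.beq (Nat.mod e 4) 3 = true := by rw [Nat.beq_eq]; exact h3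
      rw [hb]
      show D ((8 * (x / 8) + e / 32) / 8)
      have : (8 * (x / 8) + e / 32) / 8 = x / 8 := by omega
      rw [this]; exact hx
    · have hb : Nat.beq (Nat.mod e 4) 3 = false := by
        rw [← Bool.not_eq_true, Nat.beq_eq]; exact h3
      rw [hb] at hne ⊢
      simp only [cond_false] at hne ⊢
      unfold stepT at hne ⊢
      by_cases ht : H.nb (Nat.mod e 4) (x / 8) = 0
      · rw [ht] at hne
        exact absurd rfl hne
      · have hbt : Nat.beq (H.nb (Nat.mod e 4) (x / 8)) 0 = false := by
          rw [← Bool.not_eq_true, Nat.beq_eq]; exact ht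
        rw [hbt]
        simp only [cond_false]
        show D ((8 * (H.nb (Nat.mod e 4) (x / 8)) + cond (H.sh (H.nb (Nat.mod e 4) (x / 8)))
            (e / 32) (e / 4 % 8)) / 8)
        have hl' : Nat.mod e 4 < 3 := by
          have := Nat.mod_lt e (show 0 < 4 by norm_num)
          change e % 4 < 3
          omega
        have hD := M.cl _ hx _ hl' ht
        have : (8 * (H.nb (Nat.mod e 4) (x / 8)) + cond (H.sh (H.nb (Nat.mod e 4) (x / 8)))
            (e / 32) (e / 4 % 8)) / 8 = H.nb (Nat.mod e 4) (x / 8) := by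
          cases H.sh (H.nb (Nat.mod e 4) (x / 8))
          · simp only [cond_false]; omega
          · simp only [cond_true]; omega
        rw [this]; exact hD
  · intro x hx l hl hne
    rw [sub_nb] at hne
    rw [sub_nb, sub_nb]
    have hm8 : subMap h x % 8 = x % 8 := by unfold subMap; omega
    have hd8 : subMap h x / 8 = h (x / 8) := by unfold subMap; omega
    rw [hm8, hd8]
    set e := fld 8 TABS (3 * (x % 8) + l) with he
    have hebd : e < 256 := by rw [he]; exact fld_lt 8 _ _
    unfold stepE at hne ⊢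
    by_cases h3 : e % 4 = 3
    · have hb : Nat.beq (Nat.mod e 4) 3 = true := by rw [Nat.beq_eq]; exact h3
      rw [hb]
      simp only [cond_true]
      show 8 * h (x / 8) + e / 32 = subMap h (8 * (x / 8) + e / 32)
      unfold subMap
      have h1 : (8 * (x / 8) + e / 32) / 8 = x / 8 := by omega
      have h2 : (8 * (x / 8) + e / 32) % 8 = e / 32 := by omega
      rw [h1, h2]
    · have hb : Nat.beq (Nat.mod e 4) 3 = false := by
        rw [← Bool.not_eq_true, Nat.beq_eq]; exact h3
      rw [hb] at hne ⊢
      simp only [cond_false] at hne ⊢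
      by_cases ht : H.nb (Nat.mod e 4) (x / 8) = 0
      · unfold stepT at hne
        rw [ht] at hne
        exact absurd rfl hne
      · have hl' : Nat.mod e 4 < 3 := by
          have := Nat.mod_lt e (show 0 < 4 by norm_num)
          change e % 4 < 3
          omega
        have hnb := M.nb _ hx _ hl' ht
        have hD := M.cl _ hx _ hl' ht
        have hsh := M.sh _ hD
        have hnz := M.ne _ hD
        rw [hnb]
        unfold stepT
        have hbt : Nat.beq (H.nb (Nat.mod e 4) (x / 8)) 0 = false := by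
          rw [← Bool.not_eq_true, Nat.beq_eq]; exact ht
        have hbt' : Nat.beq (h (H.nb (Nat.mod e 4) (x / 8))) 0 = false := by
          rw [← Bool.not_eq_true, Nat.beq_eq]; exact hnz
        rw [hbt, hbt', hsh]
        simp only [cond_false]
        generalize H.nb (Nat.mod e 4) (x / 8) = t
        show 8 * h t + cond (H.sh t) (e / 32) (e / 4 % 8) =
          subMap h (8 * t + cond (H.sh t) (e / 32) (e / 4 % 8))
        unfold subMap
        have hlt : cond (H.sh t) (e / 32) (e / 4 % 8) < 8 := by
          cases H.sh t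
          · simp only [cond_false]; omega
          · simp only [cond_true]; omega
        generalize cond (H.sh t) (e / 32) (e / 4 % 8) = c at hlt
        have h1 : (8 * t + c) / 8 = t := by omega
        have h2 : (8 * t + c) % 8 = c := by omega
        rw [h1, h2]

theorem IsMor.comp {H K G : PG} {D D' : ℕ → Prop} {h g : ℕ → ℕ} (M : IsMor K D' H g)
    (M' : IsMor H D G h) (hD : ∀ q, D' q → D (g q)) : IsMor K D' G (fun q => h (g q)) := by
  refine ⟨fun q hq => M'.ne _ (hD q hq), fun q hq => ?_, M.cl, fun q hq l hl hne => ?_⟩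
  · rw [M'.sh _ (hD q hq), M.sh _ hq]
  · have h1 := M.nb _ hq _ hl hne
    have h2 : H.nb l (g q) ≠ 0 := by
      rw [h1]; exact M.ne _ (M.cl _ hq _ hl hne)
    have h3 := M'.nb _ (hD q hq) _ hl h2
    show G.nb l (h (g q)) = _
    rw [h3, h1]

/-! ### the morphism check -/

/-- domain of a table graph -/
def dom (m : ℕ) (q : ℕ) : Prop := 1 ≤ q ∧ q ≤ m

theorem chk1_spec {G : PG} {w m h hq l t : ℕ} (H0 : chk1 G w m h hq l t = true)
    (ht : t ≠ 0) : t ≤ m ∧ G.nb l hq = fld w h t := by
  unfold chk1 at H0
  have hbt : Nat.beq t 0 = false := by rw [← Bool.not_eq_true, Nat.beq_eq]; exact ht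
  rw [hbt, cond_false] at H0
  cases h1 : Nat.ble t m with
  | false => rw [h1] at H0; exact absurd H0 (by simp)
  | true =>
    rw [h1, cond_true] at H0
    exact ⟨Nat.ble_eq.mp h1, Nat.beq_eq.mp H0⟩

theorem cond_and {a b : Bool} (h : cond a b false = true) : a = true ∧ b = true := by
  cases a
  · simp at h
  · exact ⟨rfl, h⟩

theorem cond_nand {a b : Bool} (h : cond a false b = true) : a = false ∧ b = true := by
  cases a
  · exact ⟨rfl, h⟩
  · simp at h

theorem chkMor_spec {H : PG} {m : ℕ} {G : PG} {w h : ℕ} (H0 : chkMor H m G w h = true) :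
    IsMor H (dom m) G (fun q => fld w h q) := by
  have key : ∀ q, dom m q → fld w h q ≠ 0 ∧ G.sh (fld w h q) = H.sh q ∧
      ∀ l, l < 3 → H.nb l q ≠ 0 → H.nb l q ≤ m ∧ G.nb l (fld w h q) = fld w h (H.nb l q) := by
    intro q hq
    obtain ⟨i, rfl⟩ : ∃ i, q = i + 1 := ⟨q - 1, by have := hq.1; omega⟩
    have h1 := allB_iff.mp H0 i (by have := hq.2; omega)
    obtain ⟨h2, h3⟩ := cond_nand h1
    obtain ⟨h4, h5⟩ := cond_nand h3
    obtain ⟨h6, h7⟩ := cond_and h5
    obtain ⟨h8, h9⟩ := cond_and h7
    refine ⟨?_, ?_, ?_⟩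
    · intro h0
      rw [← Bool.not_eq_true, Nat.beq_eq] at h2
      exact h2 h0
    · have h4' : Bool.xor (G.sh (fld w h (i + 1))) (H.sh (i + 1)) = false := h4
      revert h4'
      cases G.sh (fld w h (i + 1)) <;> cases H.sh (i + 1) <;> simp
    · intro l hl hne
      interval_cases l
      · exact chk1_spec h6 hne
      · exact chk1_spec h8 hne
      · exact chk1_spec h9 hne
  refine ⟨fun q hq => (key q hq).1, fun q hq => (key q hq).2.1, ?_, ?_⟩
  · intro q hq l hl hne
    exact ⟨Nat.one_le_iff_ne_zero.mpr hne, ((key q hq).2.2 l hl hne).1⟩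
  · intro q hq l hl hne
    exact ((key q hq).2.2 l hl hne).2

end Pool.Agent.helper43.Rob
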