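import Pool.Agent.helper43.Rob.Closed
import Pool.Agent.helper43.Rob.ChkB

/-!
# Every good node has a certificate
-/

namespace Pool.Agent.helper43.Rob

set_option maxRecDepth 100000

/-- a placement `(mQ, shQ, nbQ, y, F)` together with its certificate -/
def EntOK (e : ℕ × ℕ × ℕ × ℕ × ℕ) : Prop :=
  ∃ m N g, KapOK m N g ∧ 1 ≤ m ∧
    chkEnt e.1 e.2.1 e.2.2.1 m N e.2.2.2.1 e.2.2.2.2 = true

theorem entOK_of {gc : List ((Nat × Nat × Nat) × List (Nat × Nat × Nat × Nat × Nat))}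
    (h : chkG gc = true) : ∀ e ∈ gc.flatMap Prod.snd, EntOK e := by
  intro e he
  obtain ⟨k, hk, hek⟩ := List.mem_flatMap.mp he
  unfold chkG at h
  rw [List.all_eq_true] at h
  obtain ⟨h1, h2⟩ := cond_and (h k hk)
  obtain ⟨h3, h4⟩ := cond_and h2
  rw [List.all_eq_true] at h4
  exact ⟨_, _, _, chkKap_spec h1, Nat.ble_eq.mp h3, h4 e hek⟩

theorem ents_ok : ∀ e ∈ ents, EntOK e := by
  intro e he
  unfold ents at he
  obtain ⟨g, hg, heg⟩ := List.mem_flatMap.mp he
  refine entOK_of ?_ e heg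
  simp only [List.mem_append] at hg
  rcases hg with hg | hg | hg | hg | hg | hg | hg | hg
  · exact gs0_ok g hg
  · exact gs1_ok g hg
  · exact gs2_ok g hg
  · exact gs3_ok g hg
  · exact gs4_ok g hg
  · exact gs5_ok g hg
  · exact gs6_ok g hg
  · exact gs7_ok g hg

theorem compat3_lt {s : Bool} {y : ℕ} (h : compat3 s y = true) : y < 512 := by
  unfold compat3 at h
  obtain ⟨h1, _⟩ := cond_and h
  have := compat_lt h1
  have h2 : Nat.div y 64 = y / 64 := rfl
  rw [h2] at this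
  omega

/-- every triangle three levels below a good one has a certificate -/
theorem Good.cert {X : PG} {x : ℕ} (hx : Good X x) {y : ℕ} (hy : compat3 (X.sh x) y = true) :
    ∃ m N g f, KapOK m N g ∧ 1 ≤ m ∧ Placed m N (sub (sub (sub X))) (512 * x + y) f := by
  obtain ⟨p, hp, hs, _, g0, M0, h01⟩ := hx.sh
  have hy512 := compat3_lt hy
  have h1 := allB_iff.mp (allB_iff.mp cover_check p hp) y hy512
  rw [← hs, hy, cond_true, List.any_eq_true] at h1
  obtain ⟨t, _, ht⟩ := h1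
  unfold chkV at ht
  obtain ⟨_, ht⟩ := cond_and ht
  obtain ⟨h2, ht⟩ := cond_and ht
  have h2' := Nat.ble_eq.mp h2
  have h3 : ents.getD t.2.1 (0, 0, 0, 0, 0) ∈ ents := by
    rw [List.getD_eq_getElem _ _ (by rw [ents_length]; omega)]
    exact List.getElem_mem _
  obtain ⟨m, N, g, K, hm, hE⟩ := ents_ok _ h3
  generalize ents.getD t.2.1 (0, 0, 0, 0, 0) = E at ht hE
  unfold chkV1 at ht
  obtain ⟨h4, ht⟩ := cond_and ht
  obtain ⟨h5, ht⟩ := cond_and ht
  obtain ⟨h6, h7⟩ := cond_and ht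
  rw [Nat.beq_eq] at h4 h5
  have M1 := chkMor_spec h6
  have M2 : IsMor (tab E.2.1 E.2.2.1) (dom E.1) X (fun q => g0 (fld 7 t.2.2 q)) := by
    refine M1.comp M0 ?_
    intro q hq
    obtain ⟨i, rfl⟩ : ∃ i, q = i + 1 := ⟨q - 1, by have := hq.1; omega⟩
    exact inDom_spec (allB_iff.mp h7 i (by have := hq.2; omega))
  have M3 := M2.sub.sub.sub
  obtain ⟨h8, h9⟩ := chkEnt_spec hE
  rw [h4] at h8
  have hdiv : ∀ z : ℕ, z / 8 / 8 / 8 = z / 512 := by
    intro z; omega
  have hD : ∀ j, dom m j → subD (subD (subD (dom E.1))) (fld 16 E.2.2.2.2 j) := by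
    intro j hj
    show dom E.1 (fld 16 E.2.2.2.2 j / 8 / 8 / 8)
    rw [hdiv]
    exact (h9 j hj).1
  refine ⟨m, N, g, fun j => subMap (subMap (subMap (fun q => g0 (fld 7 t.2.2 q))))
    (fld 16 E.2.2.2.2 j), K, hm, ?_, ?_, ?_⟩
  · show subMap (subMap (subMap (fun q => g0 (fld 7 t.2.2 q)))) (fld 16 E.2.2.2.2 1) = _
    rw [h8]
    have e1 : subMap (subMap (subMap (fun q => g0 (fld 7 t.2.2 q)))) (512 + y) =
        8 * (8 * (8 * g0 (fld 7 t.2.2 ((512 + y) / 8 / 8 / 8)) + (512 + y) / 8 / 8 % 8) +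
          (512 + y) / 8 % 8) + (512 + y) % 8 := rfl
    rw [e1, hdiv, show (512 + y) / 512 = 1 by omega, h5, h01]
    omega
  · intro j hj
    exact M3.ne _ (hD j hj)
  · intro j hj l hl hne
    have h10 := (h9 j hj).2 l hl hne
    have h11 : dom m (kn N l j) :=
      ⟨Nat.one_le_iff_ne_zero.mpr hne, (K.sym j hj l hl hne).1⟩
    have h12 : (sub (sub (sub (tab E.2.1 E.2.2.1)))).nb l (fld 16 E.2.2.2.2 j) ≠ 0 := by
      rw [h10]
      intro h0
      have := (h9 _ h11).1.1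
      rw [h0] at this
      omega
    have h13 := M3.nb _ (hD j hj) l hl h12
    rw [h10] at h13
    exact h13

end Pool.Agent.helper43.Rob
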