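import Mathlib

/-!
# Robinson triangle tilings and the Laplacian of their dual graph: definitions

The plane is `ℂ` and `φ` is the golden ratio.
-/

namespace Pool.Agent.helper43.Rob

open scoped InnerProductSpace

open Real in
/-- The tenth root of unity `ζ = exp (i π / 5)`. -/
noncomputable def zeta : ℂ := Complex.exp (Complex.I * (π / 5))

/-- A Robinson triangle in the plane with labelled vertices. `obt = true` for the obtuse triangle
`O` (angles 108°, 36°, 36° at `a`, `b`, `c`), `obt = false` for the acute triangle `A` (angles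
36°, 72°, 72° at `a`, `b`, `c`).  The two orientations of `(a, b, c)` are the two mirror-image
versions of each prototile. -/
structure Tile where
  obt : Bool
  a : ℂ
  b : ℂ
  c : ℂ

/-- The closed triangle covered by a tile. -/
def Tile.carrier (t : Tile) : Set ℂ := convexHull ℝ {t.a, t.b, t.c}

/-- The three edges of a tile, given by their unordered pairs of endpoints. -/
def Tile.edges (t : Tile) : Set (Sym2 ℂ) := {s(t.a, t.b), s(t.b, t.c), s(t.c, t.a)}

/-- The translate of a tile by `v`. -/
def Tile.translate (v : ℂ) (t : Tile) : Tile := ⟨t.obt, t.a + v, t.b + v, t.c + v⟩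

/-- The tile inflated by the factor `φ`. -/
noncomputable def Tile.inflate (t : Tile) : Tile :=
  ⟨t.obt, Real.goldenRatio * t.a, Real.goldenRatio * t.b, Real.goldenRatio * t.c⟩

/-- The golden section point of the segment from `p` to `q`, at distance `|q - p| / φ` of `p`. -/
noncomputable def gold (p q : ℂ) : ℂ := p + (q - p) / Real.goldenRatio

/-- The Penrose dissection: an (inflated) acute triangle `a b c` is cut into an acute and an
obtuse triangle by the segment from `c` to the golden section point `gold a b` of `ab`; an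
(inflated) obtuse triangle is cut into two obtuse triangles and an acute one by means of the
golden section points `gold b a` and `gold b c`. -/
noncomputable def Tile.dissect (t : Tile) : Set Tile :=
  if t.obt = true then
    {⟨true, gold t.b t.c, t.c, t.a⟩, ⟨true, gold t.b t.a, gold t.b t.c, t.b⟩,
      ⟨false, gold t.b t.c, gold t.b t.a, t.a⟩}
  else {⟨false, t.c, gold t.a t.b, t.b⟩, ⟨true, gold t.a t.b, t.c, t.a⟩}

/-- The Robinson triangle substitution `S` on sets of tiles: inflate and dissect every tile. -/
noncomputable def substitute (P : Set Tile) : Set Tile := ⋃ t ∈ P, t.inflate.dissect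

/-- The star of ten obtuse tiles of alternating orientation around the origin, with the 36°
vertex `b` (if `w = true`) or the 36° vertex `c` (if `w = false`) of every tile at the origin. -/
noncomputable def star (w : Bool) : Set Tile :=
  {t | ∃ m k : ℤ, Odd m ∧ (k = m + 1 ∨ k = m - 1) ∧
    t = if w = true then ⟨true, zeta ^ m, 0, Real.goldenRatio * zeta ^ k⟩
      else ⟨true, zeta ^ m, Real.goldenRatio * zeta ^ k, 0⟩}

/-- The level-`n` patch `S^n(T_0)`. -/
noncomputable def patch (w : Bool) : ℕ → Set Tile
  | 0 => star w
  | n + 1 => substitute (patch w n)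

/-- A Robinson triangle tiling: the tiles cover the plane, distinct tiles have disjoint
interiors, and every finite set of tiles occurs, up to translation, in some level-`n` patch. -/
structure IsRobinsonTiling (w : Bool) (𝒯 : Set Tile) : Prop where
  covers : ⋃ t ∈ 𝒯, t.carrier = Set.univ
  disjoint : ∀ s ∈ 𝒯, ∀ t ∈ 𝒯, s ≠ t → Disjoint (interior s.carrier) (interior t.carrier)
  patches : ∀ F : Set Tile, F.Finite → F ⊆ 𝒯 → ∃ n v, Tile.translate v '' F ⊆ patch w n

/-- The graph of a tiling: the vertices are the tiles, and two tiles are adjacent iff they share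
an edge. -/
def tileGraph (𝒯 : Set Tile) : SimpleGraph 𝒯 where
  Adj s t := s ≠ t ∧ ∃ e, e ∈ (s : Tile).edges ∧ e ∈ (t : Tile).edges
  symm := ⟨fun _ _ h => ⟨h.1.symm, h.2.imp fun _ he => ⟨he.2, he.1⟩⟩⟩
  loopless := ⟨fun _ h => h.1 rfl⟩

/-- Let `H` be the Hilbert space `ℓ²` of a tiling, i.e. a Hilbert space with an orthonormal basis
`δ` indexed by the tiles; `⟪δ v, ψ⟫` is the value of `ψ` at the tile `v`. The bounded operator `L`
on `H` is the Laplacian of the graph of the tiling. -/
def IsLaplacian {𝒯 : Set Tile} {H : Type} [NormedAddCommGroup H] [InnerProductSpace ℂ H]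
    (δ : HilbertBasis 𝒯 ℂ H) (L : H →L[ℂ] H) : Prop :=
  ∀ (ψ : H) (v : 𝒯), ⟪δ v, L ψ⟫_ℂ =
    ∑ᶠ u ∈ (tileGraph 𝒯).neighborSet v, (⟪δ v, ψ⟫_ℂ - ⟪δ u, ψ⟫_ℂ)

/-- The set of real numbers in the spectrum of a bounded operator; this is the whole spectrum if
the operator is self-adjoint. -/
def realSpectrum {H : Type} [NormedAddCommGroup H] [InnerProductSpace ℂ H] (L : H →L[ℂ] H) :
    Set ℝ := {E : ℝ | (E : ℂ) ∈ spectrum ℂ L}

/-- A spectral gap of `S ⊆ ℝ`: a bounded connected component of the complement. -/
def IsSpectralGap (S C : Set ℝ) : Prop :=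
  Bornology.IsBounded C ∧ ∃ x ∈ Sᶜ, C = connectedComponentIn Sᶜ x

end Pool.Agent.helper43.Rob
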