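import Pool.Agent.helper43.Rob.Addr

/-!
# Tiles with different addresses have disjoint interiors
-/

namespace Pool.Agent.helper43.Rob

open Real

/-- the open triangle of a tile -/
def Tile.op (t : Tile) : Set ℂ := OT t.a t.b t.c

theorem carrier_eq (t : Tile) : t.carrier = CT t.a t.b t.c := CT_eq_hull _ _ _

/-! ### nondegeneracy -/

theorem zeta_pow_im (n : ℕ) : (zeta ^ n).im = sin (n * (π / 5)) := by
  rw [zeta_pow, Complex.exp_ofReal_mul_I_im]

theorem zeta_pow_im_nonneg {n : ℕ} (h : n ≤ 5) : 0 ≤ (zeta ^ n).im := by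
  rw [zeta_pow_im]
  apply Real.sin_nonneg_of_nonneg_of_le_pi
  · positivity
  · have h1 : (n : ℝ) ≤ 5 := by exact_mod_cast h
    nlinarith [Real.pi_pos]

theorem zeta_pow_im_nonpos {n : ℕ} (h5 : 5 ≤ n) (h : n ≤ 10) : (zeta ^ n).im ≤ 0 := by
  obtain ⟨m, rfl⟩ : ∃ m, n = m + 5 := ⟨n - 5, by omega⟩
  rw [pow_add, zeta_pow_five]
  have := zeta_pow_im_nonneg (n := m) (by omega)
  simp only [mul_neg, mul_one, Complex.neg_im]
  linarith

theorem zeta_im_pos : 0 < zeta.im := by
  rw [zeta_im]
  linarith [sin_pi_div_five_gt]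

theorem sin_two_pi_div_five_gt : 1 / 2 < sin (2 * (π / 5)) := by
  have h1 : sin (π / 6) = 1 / 2 := Real.sin_pi_div_six
  rw [← h1]
  apply Real.sin_lt_sin_of_lt_of_le_pi_div_two
  · linarith [Real.pi_pos]
  · linarith [Real.pi_pos]
  · linarith [Real.pi_pos]

theorem cross_mul (ω u : ℂ) : cross u (ω * u) = ω.im * ‖u‖ ^ 2 := by
  unfold cross
  rw [← Complex.normSq_eq_norm_sq, Complex.normSq_apply]
  simp only [Complex.mul_re, Complex.mul_im]
  ring

theorem Inv.cross {t : Tile} (h : Inv t) : 1 / 2 < |cross (t.b - t.a) (t.c - t.a)| := by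
  obtain ⟨ω, h1, h2, h3⟩ := h
  rw [h1, cross_mul, h2, one_pow, mul_one]
  have s1 := sin_pi_div_five_gt
  have s2 := sin_two_pi_div_five_gt
  rcases h3 with ⟨-, h | h⟩ | ⟨-, h | h⟩
  · rw [h, zeta_pow_im]
    have e : sin ((3 : ℕ) * (π / 5)) = sin (2 * (π / 5)) := by
      rw [← Real.sin_pi_sub]
      congr 1
      push_cast
      ring
    rw [e, abs_of_pos (by linarith)]
    exact s2
  · rw [h, Complex.neg_im, zeta_pow_im, abs_neg]
    push_cast
    rw [abs_of_pos (by linarith)]
    exact s2
  · rw [h, zeta_im, abs_of_pos (by linarith)]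
    exact s1
  · rw [h, Complex.neg_im, zeta_pow_im, abs_neg]
    have e : sin ((4 : ℕ) * (π / 5)) = sin (π / 5) := by
      rw [← Real.sin_pi_sub]
      congr 1
      push_cast
      ring
    rw [e, abs_of_pos (by linarith)]
    exact s1

theorem Inv.ne {t : Tile} (h : Inv t) : Rob.cross (t.b - t.a) (t.c - t.a) ≠ 0 := by
  have := h.cross
  intro h0
  rw [h0] at this
  norm_num at this

theorem Inv.interior {t : Tile} (h : Inv t) : interior t.carrier = t.op := by
  rw [carrier_eq]
  exact interior_CT h.ne

/-! ### the children of a tile -/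

/-- inverse golden ratio -/
noncomputable def g : ℝ := Real.goldenRatio⁻¹

theorem g_pos : 0 < g := inv_pos.mpr Real.goldenRatio_pos

theorem g_lt : g < 1 := inv_lt_one_of_one_lt₀ Real.one_lt_goldenRatio

theorem gr_mul_g : gr * (g : ℝ) = 1 := by
  rw [gr, ← Complex.ofReal_mul, g, mul_inv_cancel₀ Real.goldenRatio_ne_zero, Complex.ofReal_one]

theorem gold_bary (p q : ℂ) : gr * p + (q - p) = ((1 - g : ℝ) : ℂ) * (gr * p) + (g : ℝ) * (gr * q) := by
  have := gr_mul_g
  rw [Complex.ofReal_sub, Complex.ofReal_one]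
  linear_combination (p - q) * this

theorem child_zero (t : Tile) :
    childTile 0 t = ⟨false, gr * t.c, gr * t.a + (t.b - t.a), gr * t.b⟩ := by
  rw [childTile, if_pos rfl]

theorem child_one (t : Tile) :
    childTile 1 t = ⟨true, gr * t.a + (t.b - t.a), gr * t.c, gr * t.a⟩ := by
  rw [childTile, if_neg (by norm_num), if_pos rfl]

theorem child_two (t : Tile) :
    childTile 2 t = ⟨true, gr * t.b + (t.c - t.b), gr * t.c, gr * t.a⟩ := by
  rw [childTile, if_neg (by norm_num), if_neg (by norm_num), if_pos rfl]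

theorem child_three (t : Tile) :
    childTile 3 t = ⟨true, gr * t.b + (t.a - t.b), gr * t.b + (t.c - t.b), gr * t.b⟩ := by
  rw [childTile, if_neg (by norm_num), if_neg (by norm_num), if_neg (by norm_num), if_pos rfl]

theorem child_four (t : Tile) :
    childTile 4 t = ⟨false, gr * t.b + (t.c - t.b), gr * t.b + (t.a - t.b), gr * t.a⟩ := by
  rw [childTile, if_neg (by norm_num), if_neg (by norm_num), if_neg (by norm_num),
    if_neg (by norm_num)]

/-- position of the child number `d` in barycentric coordinates of the inflated tile -/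
def Cond (d : ℕ) (α β γ : ℝ) : Prop :=
  (d = 0 → α * g < β * (1 - g)) ∧ (d = 1 → β * (1 - g) < α * g) ∧
  (d = 2 → β * g < γ * (1 - g)) ∧ (d = 3 → (1 - g) * (α + γ) < β * g) ∧
  (d = 4 → γ * (1 - g) < β * g ∧ β * g < (1 - g) * (α + γ))

theorem child_coord {t : Tile} {d : ℕ} (hd : compat t.obt d = true) {z : ℂ}
    (hz : z ∈ (childTile d t).op) :
    ∃ α β γ : ℝ, 0 < α ∧ 0 < β ∧ 0 < γ ∧ α + β + γ = 1 ∧
      z = α * (gr * t.a) + β * (gr * t.b) + γ * (gr * t.c) ∧ Cond d α β γ := by
  obtain ⟨x, y, w, hx, hy, hw, hs, rfl⟩ := hz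
  have g0 := g_pos
  have g1 : 0 < 1 - g := by linarith [g_lt]
  cases ht : t.obt
  · rw [ht] at hd
    rcases compat_false.mp hd with rfl | rfl
    · refine ⟨y * (1 - g), y * g + w, x, by positivity, by positivity, hx, by linarith, ?_, ?_⟩
      · rw [child_zero]
        simp only [gold_bary, Complex.ofReal_mul, Complex.ofReal_add, Complex.ofReal_sub,
          Complex.ofReal_one]
        ring
      · refine ⟨fun _ => ?_, fun h => ?_, fun h => ?_, fun h => ?_, fun h => ?_⟩
        · have : 0 < w * (1 - g) := by positivity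
          nlinarith
        all_goals norm_num at h
    · refine ⟨x * (1 - g) + w, x * g, y, by positivity, by positivity, hy, by linarith, ?_, ?_⟩
      · rw [child_one]
        simp only [gold_bary, Complex.ofReal_mul, Complex.ofReal_add, Complex.ofReal_sub,
          Complex.ofReal_one]
        ring
      · refine ⟨fun h => ?_, fun _ => ?_, fun h => ?_, fun h => ?_, fun h => ?_⟩
        rotate_left
        · have : 0 < w * g := by positivity
          nlinarith
        all_goals norm_num at h
  · rw [ht] at hd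
    rcases compat_true.mp hd with rfl | rfl | rfl
    · refine ⟨w, x * (1 - g), x * g + y, hw, by positivity, by positivity, by linarith, ?_, ?_⟩
      · rw [child_two]
        simp only [gold_bary, Complex.ofReal_mul, Complex.ofReal_add, Complex.ofReal_sub,
          Complex.ofReal_one]
        ring
      · refine ⟨fun h => ?_, fun h => ?_, fun _ => ?_, fun h => ?_, fun h => ?_⟩
        rotate_left 2
        · have : 0 < y * (1 - g) := by positivity
          nlinarith
        all_goals norm_num at h
    · refine ⟨x * g, x * (1 - g) + y * (1 - g) + w, y * g, by positivity, by positivity,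
        by positivity, by linarith, ?_, ?_⟩
      · rw [child_three]
        simp only [gold_bary, Complex.ofReal_mul, Complex.ofReal_add, Complex.ofReal_sub,
          Complex.ofReal_one]
        ring
      · refine ⟨fun h => ?_, fun h => ?_, fun h => ?_, fun _ => ?_, fun h => ?_⟩
        rotate_left 3
        · have : 0 < w * g := by positivity
          nlinarith
        all_goals norm_num at h
    · refine ⟨y * g + w, x * (1 - g) + y * (1 - g), x * g, by positivity, by positivity,
        by positivity, by linarith, ?_, ?_⟩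
      · rw [child_four]
        simp only [gold_bary, Complex.ofReal_mul, Complex.ofReal_add, Complex.ofReal_sub,
          Complex.ofReal_one]
        ring
      · refine ⟨fun h => ?_, fun h => ?_, fun h => ?_, fun h => ?_, fun _ => ?_⟩
        rotate_left 4
        · have h1 : 0 < y * (1 - g) * g := by positivity
          have h2 : 0 < w * (1 - g) := by positivity
          constructor <;> nlinarith
        all_goals norm_num at h

theorem scaled_ne {t : Tile} (h : Inv t) :
    cross (gr * t.b - gr * t.a) (gr * t.c - gr * t.a) ≠ 0 := by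
  have e : cross (gr * t.b - gr * t.a) (gr * t.c - gr * t.a) =
      Real.goldenRatio ^ 2 * cross (t.b - t.a) (t.c - t.a) := by
    unfold cross gr
    simp only [Complex.sub_re, Complex.sub_im, Complex.mul_re, Complex.mul_im, Complex.ofReal_re,
      Complex.ofReal_im]
    ring
  rw [e]
  exact mul_ne_zero (pow_ne_zero _ Real.goldenRatio_ne_zero) h.ne

/-- a child lies in the inflated parent -/
theorem child_sub {t : Tile} {d : ℕ} (hd : compat t.obt d = true) {z : ℂ}
    (hz : z ∈ (childTile d t).op) : ((g : ℝ) : ℂ) * z ∈ t.op := by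
  obtain ⟨α, β, γ, h1, h2, h3, h4, rfl, -⟩ := child_coord hd hz
  refine ⟨α, β, γ, h1, h2, h3, h4, ?_⟩
  have := gr_mul_g
  linear_combination (α * t.a + β * t.b + γ * t.c) * this

theorem children_disj {t : Tile} (ht : Inv t) {d d' : ℕ} (hd : compat t.obt d = true)
    (hd' : compat t.obt d' = true) (hne : d ≠ d') {z : ℂ} (hz : z ∈ (childTile d t).op)
    (hz' : z ∈ (childTile d' t).op) : False := by
  obtain ⟨α, β, γ, h1, h2, h3, h4, h5, h6⟩ := child_coord hd hz
  obtain ⟨α', β', γ', -, -, -, h4', h5', h6'⟩ := child_coord hd' hz'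
  obtain ⟨rfl, rfl, rfl⟩ := bary_uniq (scaled_ne ht) h4 h4' (h5.symm.trans h5')
  have g0 := g_pos
  have g1 : 0 < 1 - g := by linarith [g_lt]
  have k1 : 0 < (1 - g) * α := by positivity
  obtain ⟨a0, a1, a2, a3, a4⟩ := h6
  obtain ⟨b0, b1, b2, b3, b4⟩ := h6'
  cases hb : t.obt
  · rw [hb] at hd hd'
    rcases compat_false.mp hd with rfl | rfl <;> rcases compat_false.mp hd' with rfl | rfl
    · exact hne rfl
    · have := a0 rfl; have := b1 rfl; linarith
    · have := a1 rfl; have := b0 rfl; linarith
    · exact hne rfl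
  · rw [hb] at hd hd'
    rcases compat_true.mp hd with rfl | rfl | rfl <;>
      rcases compat_true.mp hd' with rfl | rfl | rfl
    · exact hne rfl
    · have := a2 rfl; have := b3 rfl; nlinarith
    · have := a2 rfl; have := b4 rfl; nlinarith
    · have := a3 rfl; have := b2 rfl; nlinarith
    · exact hne rfl
    · have := a3 rfl; have := b4 rfl; nlinarith
    · have := a4 rfl; have := b2 rfl; nlinarith
    · have := a4 rfl; have := b3 rfl; nlinarith
    · exact hne rfl

/-! ### the star -/

theorem cone_disj_aux {s s' : ℕ} (hs' : s' < 10) (hss : s < s') {z : ℂ}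
    {α β α' β' : ℝ} (hα : 0 < α) (hβ : 0 < β) (hα' : 0 < α') (hβ' : 0 < β')
    (hz : z = α * zeta ^ s + β * zeta ^ (s + 1))
    (hz' : z = α' * zeta ^ s' + β' * zeta ^ (s' + 1)) : False := by
  have h10 := zeta_pow_ten
  have h20 : zeta ^ 20 = 1 := by
    calc zeta ^ 20 = (zeta ^ 10) ^ 2 := by ring
      _ = 1 := by rw [h10, one_pow]
  have him := zeta_im_pos
  by_cases hd : s' - s ≤ 5
  · have h1 : z * zeta ^ (20 - s') = α' + β' * zeta := by
      rw [hz']
      have e1 : zeta ^ s' * zeta ^ (20 - s') = 1 := by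
        rw [← pow_add, show s' + (20 - s') = 20 by omega, h20]
      rw [pow_succ]
      linear_combination (α' + β' * zeta) * e1
    have h2 : z * zeta ^ (20 - s') = α * zeta ^ (10 - (s' - s)) +
        β * zeta ^ (10 - (s' - s) + 1) := by
      rw [hz]
      have e1 : zeta ^ s * zeta ^ (20 - s') = zeta ^ (10 - (s' - s)) := by
        rw [← pow_add, show s + (20 - s') = (10 - (s' - s)) + 10 by omega, pow_add, h10, mul_one]
      rw [pow_succ, pow_succ]
      linear_combination (α + β * zeta) * e1
    have h3 := congrArg Complex.im (h1.symm.trans h2)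
    simp only [Complex.add_im, Complex.mul_im, Complex.ofReal_re, Complex.ofReal_im, zero_mul,
      add_zero, zero_add] at h3
    have n1 := zeta_pow_im_nonpos (n := 10 - (s' - s)) (by omega) (by omega)
    have n2 := zeta_pow_im_nonpos (n := 10 - (s' - s) + 1) (by omega) (by omega)
    have : 0 < β' * zeta.im := by positivity
    nlinarith
  · have h1 : z * zeta ^ (20 - s) = α + β * zeta := by
      rw [hz]
      have e1 : zeta ^ s * zeta ^ (20 - s) = 1 := by
        rw [← pow_add, show s + (20 - s) = 20 by omega, h20]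
      rw [pow_succ]
      linear_combination (α + β * zeta) * e1
    have h2 : z * zeta ^ (20 - s) = α' * zeta ^ (s' - s) + β' * zeta ^ (s' - s + 1) := by
      rw [hz']
      have e1 : zeta ^ s' * zeta ^ (20 - s) = zeta ^ (s' - s) := by
        rw [← pow_add, show s' + (20 - s) = (s' - s) + 20 by omega, pow_add, h20, mul_one]
      rw [pow_succ, pow_succ]
      linear_combination (α' + β' * zeta) * e1
    have h3 := congrArg Complex.im (h1.symm.trans h2)
    simp only [Complex.add_im, Complex.mul_im, Complex.ofReal_re, Complex.ofReal_im, zero_mul,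
      add_zero, zero_add] at h3
    have n1 := zeta_pow_im_nonpos (n := s' - s) (by omega) (by omega)
    have n2 := zeta_pow_im_nonpos (n := s' - s + 1) (by omega) (by omega)
    have : 0 < β * zeta.im := by positivity
    nlinarith

/-- the sector of a tile of the star -/
def sec (k : ℕ) : ℕ := if k % 2 = 1 then (k + 9) % 10 else (k + 7) % 10

theorem zeta_pow_mod (n : ℕ) : zeta ^ n = zeta ^ (n % 10) := by
  conv_lhs => rw [← Nat.div_add_mod n 10, pow_add, pow_mul, zeta_pow_ten, one_pow, one_mul]

theorem tile0_cone {k : ℕ} {z : ℂ} (hz : z ∈ (tile0 k).op) :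
    ∃ α β : ℝ, 0 < α ∧ 0 < β ∧ z = α * zeta ^ sec k + β * zeta ^ (sec k + 1) := by
  have hg := Real.goldenRatio_pos
  obtain ⟨x, y, w, hx, hy, hw, hs, rfl⟩ := hz
  unfold tile0 sec
  split_ifs with hk
  · refine ⟨w * Real.goldenRatio, x, by positivity, hx, ?_⟩
    have e1 : zeta ^ (k + 9) = zeta ^ ((k + 9) % 10) := zeta_pow_mod _
    have e2 : zeta ^ k = zeta ^ ((k + 9) % 10 + 1) := by
      rw [zeta_pow_mod k, zeta_pow_mod ((k + 9) % 10 + 1)]
      congr 1
      omega
    simp only
    rw [e1, e2, gr]
    push_cast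
    ring
  · refine ⟨x, w * Real.goldenRatio, hx, by positivity, ?_⟩
    have e1 : zeta ^ (k + 7) = zeta ^ ((k + 7) % 10) := zeta_pow_mod _
    have e2 : zeta ^ (k + 8) = zeta ^ ((k + 7) % 10 + 1) := by
      rw [zeta_pow_mod (k + 8), zeta_pow_mod ((k + 7) % 10 + 1)]
      congr 1
      omega
    simp only
    rw [e1, e2, gr]
    push_cast
    ring

theorem tile0_disj {k k' : ℕ} (h1 : 1 ≤ k) (h2 : k ≤ 10) (h1' : 1 ≤ k') (h2' : k' ≤ 10)
    (hne : k ≠ k') {z : ℂ} (hz : z ∈ (tile0 k).op) (hz' : z ∈ (tile0 k').op) : False := by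
  obtain ⟨α, β, hα, hβ, e⟩ := tile0_cone hz
  obtain ⟨α', β', hα', hβ', e'⟩ := tile0_cone hz'
  have hs : sec k < 10 := by unfold sec; split_ifs <;> omega
  have hs' : sec k' < 10 := by unfold sec; split_ifs <;> omega
  have hss : sec k ≠ sec k' := by
    unfold sec
    split_ifs <;> omega
  rcases Nat.lt_or_gt_of_ne hss with h | h
  · exact cone_disj_aux hs' h hα hβ hα' hβ' e e'
  · exact cone_disj_aux hs h hα' hβ' hα hβ e' e

/-- tiles with different addresses are disjoint -/
theorem tileAt_disj {n x y : ℕ} (hx : real n x) (hy : real n y) (hne : x ≠ y) {z : ℂ}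
    (hz : z ∈ (tileAt n x).op) (hz' : z ∈ (tileAt n y).op) : False := by
  induction n generalizing x y z with
  | zero => exact tile0_disj hx.1 hx.2 hy.1 hy.2 hne hz hz'
  | succ n ih =>
    by_cases h : x / 8 = y / 8
    · have hd : x % 8 ≠ y % 8 := by
        intro h'
        apply hne
        omega
      have hcx := real_compat hx
      have hcy := real_compat hy
      have hz1 : z ∈ (childTile (x % 8) (tileAt n (x / 8))).op := hz
      have hz2 : z ∈ (childTile (y % 8) (tileAt n (y / 8))).op := hz'
      rw [← h] at hcy hz2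
      exact children_disj (inv_tileAt hx.1) hcx hcy hd hz1 hz2
    · exact ih hx.1 hy.1 h (child_sub (real_compat hx) hz) (child_sub (real_compat hy) hz')

end Pool.Agent.helper43.Rob
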