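import Pool.Agent.helper43.Rob.Disj

/-!
# Nested patches and the existence of a Robinson triangle tiling
-/

namespace Pool.Agent.helper43.Rob

open Real

theorem gr_sq : gr * gr = gr + 1 := by
  have h := Real.goldenRatio_sq
  rw [gr, ← Complex.ofReal_mul, ← sq, h]
  simp only [Complex.ofReal_add, Complex.ofReal_one]

theorem two_steps (p q : ℂ) :
    childTile 2 (childTile 3 ⟨true, p, 0, gr * q⟩) = ⟨true, q, 0, gr * p⟩ := by
  rw [child_three, child_two]
  have h := gr_sq
  simp only [mul_zero, zero_add, sub_zero]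
  congr 1
  · linear_combination q * h

theorem four_steps (p q : ℂ) :
    childTile 2 (childTile 3 (childTile 2 (childTile 3 ⟨true, p, 0, gr * q⟩))) =
      ⟨true, p, 0, gr * q⟩ := by
  rw [two_steps, two_steps]

theorem base_real {k : ℕ} (h : real 0 k) :
    real 4 (4096 * k + 1690) ∧ tileAt 4 (4096 * k + 1690) = tileAt 0 k := by
  have ho : (tileAt 0 k).obt = true := by
    rw [real_obt h]
    exact X0_sh k h.1 h.2
  obtain ⟨r1, e1⟩ := real_step (dd := 3) h (by rw [ho]; decide)
  have o1 : (tileAt (0 + 1) (8 * k + 3)).obt = true := by rw [e1, child_three]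
  obtain ⟨r2, e2⟩ := real_step (dd := 2) r1 (by rw [o1]; decide)
  have o2 : (tileAt (0 + 1 + 1) (8 * (8 * k + 3) + 2)).obt = true := by rw [e2, child_two]
  obtain ⟨r3, e3⟩ := real_step (dd := 3) r2 (by rw [o2]; decide)
  have o3 : (tileAt (0 + 1 + 1 + 1) (8 * (8 * (8 * k + 3) + 2) + 3)).obt = true := by
    rw [e3, child_three]
  obtain ⟨r4, e4⟩ := real_step (dd := 2) r3 (by rw [o3]; decide)
  have hx : 8 * (8 * (8 * (8 * k + 3) + 2) + 3) + 2 = 4096 * k + 1690 := by ring
  rw [hx] at r4 e4
  refine ⟨r4, ?_⟩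
  rw [show (4 : ℕ) = 0 + 1 + 1 + 1 + 1 from rfl, e4, e3, e2, e1]
  show _ = tile0 k
  show childTile 2 (childTile 3 (childTile 2 (childTile 3 (tile0 k)))) = _
  unfold tile0
  split_ifs
  · rw [four_steps]
  · rw [four_steps]

/-- every tile of the level-`n` patch is a good tile of the level-`n + 4` patch -/
theorem embed {n x : ℕ} (h : real n x) :
    ∃ x', real (n + 4) x' ∧ tileAt (n + 4) x' = tileAt n x ∧ Good (Xg (n + 4)) x' := by
  induction n generalizing x with
  | zero =>
    obtain ⟨h1, h2⟩ := base_real h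
    exact ⟨_, h1, h2, good_base h.1 h.2⟩
  | succ n ih =>
    obtain ⟨y, h1, h2, h3⟩ := ih h.1
    have hc := real_compat h
    rw [← h2] at hc
    obtain ⟨h4, h5⟩ := real_step h1 hc
    have e : n + 1 + 4 = n + 4 + 1 := by omega
    rw [e]
    refine ⟨8 * y + x % 8, h4, ?_, ?_⟩
    · rw [h5, h2]
      rfl
    · have : compat ((Xg (n + 4)).sh y) (x % 8) = true := by
        rw [← real_obt h1]
        exact hc
      exact h3.child this

theorem patch_mono (n : ℕ) : patch true n ⊆ patch true (n + 4) := by
  intro t ht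
  obtain ⟨x, hx, rfl⟩ := (mem_patch_iff n t).mp ht
  obtain ⟨x', h1, h2, -⟩ := embed hx
  exact (mem_patch_iff _ _).mpr ⟨x', h1, h2.symm⟩

/-! ### covering -/

theorem child_cover {t : Tile} {z : ℂ}
    (hz : z ∈ CT (gr * t.a) (gr * t.b) (gr * t.c)) :
    ∃ d, compat t.obt d = true ∧ z ∈ (childTile d t).carrier := by
  obtain ⟨α, β, γ, hα, hβ, hγ, hs, rfl⟩ := hz
  have g0 := g_pos
  have g1 : 0 < 1 - g := by linarith [g_lt]
  have hgn : (g : ℝ) ≠ 0 := g0.ne'
  have hg1n : (1 - g : ℝ) ≠ 0 := g1.ne'
  have hgc : ((g : ℝ) : ℂ) ≠ 0 := Complex.ofReal_ne_zero.mpr hgn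
  have hgc1 : (1 - (g : ℂ)) ≠ 0 := by
    rw [← Complex.ofReal_one, ← Complex.ofReal_sub]
    exact Complex.ofReal_ne_zero.mpr hg1n
  cases ho : t.obt
  · rcases le_total (α * g) (β * (1 - g)) with h | h
    · refine ⟨0, by decide, ?_⟩
      rw [carrier_eq, child_zero]
      refine ⟨γ, α / (1 - g), β - α * g / (1 - g), hγ, by positivity, ?_, ?_, ?_⟩
      · rw [sub_nonneg, div_le_iff₀ g1]
        exact h
      · field_simp
        linear_combination (1 - g) * hs
      · simp only [gold_bary]
        generalize gr * t.a = p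
        generalize gr * t.b = q
        generalize gr * t.c = r
        push_cast
        field_simp
        ring
    · refine ⟨1, by decide, ?_⟩
      rw [carrier_eq, child_one]
      refine ⟨β / g, γ, α - β * (1 - g) / g, by positivity, hγ, ?_, ?_, ?_⟩
      · rw [sub_nonneg, div_le_iff₀ g0]
        exact h
      · field_simp
        linear_combination g * hs
      · simp only [gold_bary]
        generalize gr * t.a = p
        generalize gr * t.b = q
        generalize gr * t.c = r
        push_cast
        field_simp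
        ring
  · rcases le_total (β * g) (γ * (1 - g)) with h | h
    · refine ⟨2, by decide, ?_⟩
      rw [carrier_eq, child_two]
      refine ⟨β / (1 - g), γ - β * g / (1 - g), α, by positivity, ?_, hα, ?_, ?_⟩
      · rw [sub_nonneg, div_le_iff₀ g1]
        exact h
      · field_simp
        linear_combination (1 - g) * hs
      · simp only [gold_bary]
        generalize gr * t.a = p
        generalize gr * t.b = q
        generalize gr * t.c = r
        push_cast
        field_simp
        ring
    · rcases le_total (β * g) ((1 - g) * (α + γ)) with h' | h'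
      · refine ⟨4, by decide, ?_⟩
        rw [carrier_eq, child_four]
        refine ⟨γ / g, β / (1 - g) - γ / g, α + γ - β * g / (1 - g), by positivity, ?_, ?_, ?_, ?_⟩
        · rw [sub_nonneg, div_le_div_iff₀ g0 g1]
          exact h
        · rw [sub_nonneg, div_le_iff₀ g1]
          linarith
        · have e1 : β / (1 - g) - β * g / (1 - g) = β := by
            field_simp
          linarith
        · simp only [gold_bary]
          generalize gr * t.a = p
          generalize gr * t.b = q
          generalize gr * t.c = r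
          push_cast
          field_simp
          ring
      · refine ⟨3, by decide, ?_⟩
        rw [carrier_eq, child_three]
        refine ⟨α / g, γ / g, β - (1 - g) * (α + γ) / g, by positivity, by positivity, ?_, ?_, ?_⟩
        · rw [sub_nonneg, div_le_iff₀ g0]
          exact h'
        · field_simp
          linear_combination g * hs
        · simp only [gold_bary]
          generalize gr * t.a = p
          generalize gr * t.b = q
          generalize gr * t.c = r
          push_cast
          field_simp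
          ring

/-- every point lies in one of the ten closed sectors -/
theorem sector (z : ℂ) : ∃ s, s < 10 ∧ ∃ α β : ℝ, 0 ≤ α ∧ 0 ≤ β ∧ α ≤ 2 * ‖z‖ ∧ β ≤ 2 * ‖z‖ ∧
    z = α * zeta ^ s + β * zeta ^ (s + 1) := by
  have h10 := zeta_pow_ten
  have h5 := zeta_pow_five
  set f : ℕ → ℝ := fun s => (z * zeta ^ (20 - s)).im with hf
  have hper : ∀ s, s ≤ 5 → f (s + 5) = -f s := by
    intro s hs
    simp only [hf]
    have e : zeta ^ (20 - s) = -zeta ^ (20 - (s + 5)) := by
      rw [show 20 - s = 20 - (s + 5) + 5 by omega, pow_add, h5]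
      ring
    rw [e]
    simp
  have hex : ∃ s, s < 10 ∧ 0 ≤ f s ∧ f (s + 1) ≤ 0 := by
    by_contra hcon
    push Not at hcon
    have step : ∀ s, s < 10 → 0 ≤ f s → 0 < f (s + 1) := hcon
    have q5 := hper 0 (by norm_num)
    have q10 := hper 5 (by norm_num)
    rcases le_or_gt 0 (f 0) with h0 | h0
    · have s1 := step 0 (by norm_num) h0
      have s2 := step 1 (by norm_num) s1.le
      have s3 := step 2 (by norm_num) s2.le
      have s4 := step 3 (by norm_num) s3.le
      have s5 := step 4 (by norm_num) s4.le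
      norm_num at q5 s5
      linarith
    · have s5 : 0 < f 5 := by
        norm_num at q5
        linarith
      have s6 := step 5 (by norm_num) s5.le
      have s7 := step 6 (by norm_num) s6.le
      have s8 := step 7 (by norm_num) s7.le
      have s9 := step 8 (by norm_num) s8.le
      have s10 := step 9 (by norm_num) s9.le
      norm_num at q5 q10 s10
      linarith
  obtain ⟨s, hs, h1, h2⟩ := hex
  have him := zeta_im_pos
  have him2 : 1 / 2 < zeta.im := by rw [zeta_im]; exact sin_pi_div_five_gt
  refine ⟨s, hs, -f (s + 1) / zeta.im, f s / zeta.im, div_nonneg (by linarith) him.le,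
    div_nonneg h1 him.le, ?_, ?_, ?_⟩
  · rw [div_le_iff₀ him]
    have h3 : |f (s + 1)| ≤ ‖z‖ := by
      calc |f (s + 1)| ≤ ‖z * zeta ^ (20 - (s + 1))‖ := Complex.abs_im_le_norm _
        _ = ‖z‖ := by rw [norm_mul, norm_pow, norm_zeta, one_pow, mul_one]
    have h4 := neg_abs_le (f (s + 1))
    nlinarith [norm_nonneg z]
  · rw [div_le_iff₀ him]
    have h3 : |f s| ≤ ‖z‖ := by
      calc |f s| ≤ ‖z * zeta ^ (20 - s)‖ := Complex.abs_im_le_norm _
        _ = ‖z‖ := by rw [norm_mul, norm_pow, norm_zeta, one_pow, mul_one]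
    have h4 := le_abs_self (f s)
    nlinarith [norm_nonneg z]
  · -- `w = z ζ^(20 - s)`, `w = α + β ζ`
    set w := z * zeta ^ (20 - s) with hw
    have hz : z = w * zeta ^ s := by
      rw [hw, mul_assoc, ← pow_add, show 20 - s + s = 20 by omega]
      have : zeta ^ 20 = 1 := by
        calc zeta ^ 20 = (zeta ^ 10) ^ 2 := by ring
          _ = 1 := by rw [h10, one_pow]
      rw [this, mul_one]
    have hfs : f s = w.im := rfl
    have hfs1 : f (s + 1) * 1 = w.im * zeta.re - w.re * zeta.im := by
      have e : w = z * zeta ^ (20 - (s + 1)) * zeta := by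
        rw [hw, show 20 - s = 20 - (s + 1) + 1 by omega, pow_succ]
        ring
      have hn : zeta.re ^ 2 + zeta.im ^ 2 = 1 := by
        have := Complex.sq_norm zeta
        rw [norm_zeta, Complex.normSq_apply] at this
        linarith
      rw [e]
      simp only [hf, Complex.mul_re, Complex.mul_im]
      set P := (z.re * (zeta ^ (20 - (s + 1))).re - z.im * (zeta ^ (20 - (s + 1))).im)
      set Q := (z.re * (zeta ^ (20 - (s + 1))).im + z.im * (zeta ^ (20 - (s + 1))).re)
      linear_combination (-Q) * hn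
    have hwz : w = ((-f (s + 1) / zeta.im : ℝ) : ℂ) + ((f s / zeta.im : ℝ) : ℂ) * zeta := by
      rw [hfs]
      have him' : zeta.im ≠ 0 := him.ne'
      apply Complex.ext
      · simp only [Complex.add_re, Complex.ofReal_re, Complex.mul_re, Complex.ofReal_im, zero_mul,
          sub_zero]
        field_simp
        linarith
      · simp only [Complex.add_im, Complex.ofReal_im, Complex.mul_im, Complex.ofReal_re, zero_mul,
          add_zero, zero_add]
        field_simp
    rw [hz, hwz, pow_succ]
    simp only [Complex.ofReal_div, Complex.ofReal_neg]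
    ring

theorem star_cover {z : ℂ} (hz : ‖z‖ ≤ 1 / 4) : ∃ k, real 0 k ∧ z ∈ (tile0 k).carrier := by
  obtain ⟨s, hs, α, β, hα, hβ, hα2, hβ2, e⟩ := sector z
  have hφ := Real.one_lt_goldenRatio
  have hφ0 := Real.goldenRatio_pos
  have hd : ∀ x : ℝ, 0 ≤ x → x / Real.goldenRatio ≤ x := fun x hx => div_le_self hx hφ.le
  by_cases hs2 : s % 2 = 0
  · -- odd index `k = s + 1`
    refine ⟨s + 1, ⟨by omega, by omega⟩, ?_⟩
    rw [carrier_eq]
    unfold tile0
    rw [if_pos (by omega)]
    refine ⟨β, 1 - β - α / Real.goldenRatio, α / Real.goldenRatio, hβ, ?_, by positivity, by ring, ?_⟩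
    · have := hd α hα
      linarith
    · rw [e]
      have e1 : zeta ^ (s + 1 + 9) = zeta ^ s := by
        rw [show s + 1 + 9 = s + 10 by ring, pow_add, zeta_pow_ten, mul_one]
      have h0 : ((α / Real.goldenRatio : ℝ) : ℂ) * gr = α := by
        rw [gr, ← Complex.ofReal_mul, div_mul_cancel₀ _ Real.goldenRatio_ne_zero]
      simp only
      rw [e1]
      linear_combination (-zeta ^ s) * h0
  · -- even index
    obtain ⟨k, hk1, hk2, hk3, e1, e2⟩ : ∃ k, 1 ≤ k ∧ k ≤ 10 ∧ ¬ k % 2 = 1 ∧
        zeta ^ (k + 7) = zeta ^ s ∧ zeta ^ (k + 8) = zeta ^ (s + 1) := by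
      by_cases h9 : s = 9
      · subst h9
        exact ⟨2, by norm_num, by norm_num, by norm_num, rfl, rfl⟩
      · refine ⟨s + 3, by omega, by omega, by omega, ?_, ?_⟩
        · rw [show s + 3 + 7 = s + 10 by ring, pow_add, zeta_pow_ten, mul_one]
        · rw [show s + 3 + 8 = s + 1 + 10 by ring, pow_add _ (s + 1), zeta_pow_ten, mul_one]
    refine ⟨k, ⟨hk1, hk2⟩, ?_⟩
    rw [carrier_eq]
    unfold tile0
    rw [if_neg hk3]
    refine ⟨α, 1 - α - β / Real.goldenRatio, β / Real.goldenRatio, hα, ?_, by positivity,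
      by ring, ?_⟩
    · have := hd β hβ
      linarith
    · rw [e]
      have h0 : ((β / Real.goldenRatio : ℝ) : ℂ) * gr = β := by
        rw [gr, ← Complex.ofReal_mul, div_mul_cancel₀ _ Real.goldenRatio_ne_zero]
      simp only
      rw [e1, e2]
      linear_combination (-zeta ^ (s + 1)) * h0

theorem scale_CT {t : Tile} {z : ℂ} (hz : ((g : ℝ) : ℂ) * z ∈ t.carrier) :
    z ∈ CT (gr * t.a) (gr * t.b) (gr * t.c) := by
  rw [carrier_eq] at hz
  obtain ⟨x, y, w, hx, hy, hw, hs, e⟩ := hz
  refine ⟨x, y, w, hx, hy, hw, hs, ?_⟩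
  have := gr_mul_g
  linear_combination gr * e - z * this

theorem patch_cover (n : ℕ) {z : ℂ} (hz : ‖z‖ ≤ 1 / 4 * Real.goldenRatio ^ n) :
    ∃ x, real n x ∧ z ∈ (tileAt n x).carrier := by
  induction n generalizing z with
  | zero => exact star_cover (by simpa using hz)
  | succ n ih =>
    have h1 : ‖((g : ℝ) : ℂ) * z‖ ≤ 1 / 4 * Real.goldenRatio ^ n := by
      rw [norm_mul, Complex.norm_real, Real.norm_of_nonneg g_pos.le]
      calc g * ‖z‖ ≤ g * (1 / 4 * Real.goldenRatio ^ (n + 1)) :=
            mul_le_mul_of_nonneg_left hz g_pos.le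
        _ = (g * Real.goldenRatio) * (1 / 4 * Real.goldenRatio ^ n) := by ring
        _ = 1 / 4 * Real.goldenRatio ^ n := by
            rw [g, inv_mul_cancel₀ Real.goldenRatio_ne_zero, one_mul]
    obtain ⟨x, hx, hzx⟩ := ih h1
    obtain ⟨d, hd, hzd⟩ := child_cover (scale_CT hzx)
    obtain ⟨h2, h3⟩ := real_step hx hd
    exact ⟨_, h2, by rw [h3]; exact hzd⟩

/-- the limit tiling -/
noncomputable def limitTiling : Set Tile := {t | ∃ j, t ∈ patch true (4 * j)}

theorem patch_mono' {i j : ℕ} (h : i ≤ j) : patch true (4 * i) ⊆ patch true (4 * j) := by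
  induction j with
  | zero =>
    have : i = 0 := by omega
    rw [this]
  | succ j ih =>
    rcases Nat.lt_or_ge j i with h1 | h1
    · have : i = j + 1 := by omega
      rw [this]
    · exact (ih h1).trans (patch_mono (4 * j))

theorem patch_disj {n : ℕ} {s t : Tile} (hs : s ∈ patch true n) (ht : t ∈ patch true n)
    (hne : s ≠ t) : Disjoint (interior s.carrier) (interior t.carrier) := by
  obtain ⟨x, hx, rfl⟩ := (mem_patch_iff n s).mp hs
  obtain ⟨y, hy, rfl⟩ := (mem_patch_iff n t).mp ht
  rw [(inv_tileAt hx).interior, (inv_tileAt hy).interior, Set.disjoint_left]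
  intro z hz hz'
  exact tileAt_disj hx hy (fun h => hne (by rw [h])) hz hz'

/-- the two families of patches -/
theorem cstar_sub : Rob.star false ⊆ patch true 1 := by
  rintro t ⟨m, k, hm, hk, rfl⟩
  have h0 : (⟨true, zeta ^ m, 0, gr * zeta ^ k⟩ : Tile) ∈ patch true 0 := by
    show _ ∈ Rob.star true
    exact ⟨m, k, hm, hk, by simp⟩
  show _ ∈ substitute (patch true 0)
  unfold substitute
  simp only [Set.mem_iUnion, mem_dissect]
  refine ⟨_, h0, 3, (show compat true 3 = true by decide), ?_⟩
  rw [child_three]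
  simp

theorem child_mem {w : Bool} {n : ℕ} {t : Tile} (ht : t ∈ patch w n) {d : ℕ}
    (hd : compat t.obt d = true) : childTile d t ∈ patch w (n + 1) := by
  show _ ∈ substitute (patch w n)
  unfold substitute
  simp only [Set.mem_iUnion, mem_dissect]
  exact ⟨t, ht, d, hd, rfl⟩

theorem bstar_sub : Rob.star true ⊆ patch false 3 := by
  rintro t ⟨m, k, hm, hk, rfl⟩
  have h0 : (⟨true, zeta ^ m, gr * zeta ^ k, 0⟩ : Tile) ∈ patch false 0 := by
    show _ ∈ Rob.star false
    exact ⟨m, k, hm, hk, by simp⟩
  have h := gr_sq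
  have e1 : ∀ p q : ℂ, childTile 2 ⟨true, p, gr * q, 0⟩ = ⟨true, q, 0, gr * p⟩ := by
    intro p q
    rw [child_two]
    simp only [mul_zero]
    congr 1
    linear_combination q * h
  have e2 : ∀ p q : ℂ, childTile 3 ⟨true, p, 0, q⟩ = ⟨true, p, q, 0⟩ := by
    intro p q
    rw [child_three]
    simp
  have h1 := child_mem h0 (d := 2) (show compat true 2 = true by decide)
  rw [e1] at h1
  have h2 := child_mem h1 (d := 3) (show compat true 3 = true by decide)
  rw [e2] at h2
  have h3 := child_mem h2 (d := 2) (show compat true 2 = true by decide)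
  rw [e1] at h3
  simpa using h3

theorem substitute_mono {P Q : Set Tile} (h : P ⊆ Q) : substitute P ⊆ substitute Q :=
  Set.biUnion_subset_biUnion_left h

theorem patch_false_sub (n : ℕ) : patch false n ⊆ patch true (n + 1) := by
  induction n with
  | zero => exact cstar_sub
  | succ n ih => exact substitute_mono ih

theorem patch_true_sub (n : ℕ) : patch true n ⊆ patch false (n + 3) := by
  induction n with
  | zero => exact bstar_sub
  | succ n ih => exact substitute_mono ih

theorem patch_sub_true (w : Bool) (n : ℕ) : ∃ m, patch w n ⊆ patch true m := by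
  cases w
  · exact ⟨n + 1, patch_false_sub n⟩
  · exact ⟨n, Set.Subset.refl _⟩

theorem patch_sub_of_true (w : Bool) (n : ℕ) : ∃ m, patch true n ⊆ patch w m := by
  cases w
  · exact ⟨n + 3, patch_true_sub n⟩
  · exact ⟨n, Set.Subset.refl _⟩

theorem translate_zero (t : Tile) : Tile.translate 0 t = t := by
  unfold Tile.translate
  simp only [add_zero]

theorem limitTiling_robinson (w : Bool) : IsRobinsonTiling w limitTiling := by
  refine ⟨?_, ?_, ?_⟩
  · rw [Set.eq_univ_iff_forall]
    intro z
    have hφ := Real.one_lt_goldenRatio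
    have h4 : 1 < Real.goldenRatio ^ 4 := one_lt_pow₀ hφ (by norm_num)
    obtain ⟨j, hj⟩ := pow_unbounded_of_one_lt (4 * ‖z‖) h4
    have h1 : ‖z‖ ≤ 1 / 4 * Real.goldenRatio ^ (4 * j) := by
      rw [pow_mul]
      linarith
    obtain ⟨x, hx, hz⟩ := patch_cover (4 * j) h1
    simp only [Set.mem_iUnion]
    exact ⟨tileAt (4 * j) x, ⟨j, (mem_patch_iff _ _).mpr ⟨x, hx, rfl⟩⟩, hz⟩
  · rintro s ⟨i, hi⟩ t ⟨j, hj⟩ hne
    exact patch_disj (patch_mono' (le_max_left i j) hi) (patch_mono' (le_max_right i j) hj) hne
  · intro F hF hFT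
    have h1 : ∃ j, F ⊆ patch true (4 * j) := by
      induction F, hF using Set.Finite.induction_on with
      | empty => exact ⟨0, Set.empty_subset _⟩
      | @insert a s _ _ ih =>
        obtain ⟨i, hi⟩ := ih ((Set.subset_insert _ _).trans hFT)
        obtain ⟨j, hj⟩ := hFT (Set.mem_insert _ _)
        refine ⟨max i j, Set.insert_subset (patch_mono' (le_max_right i j) hj)
          (hi.trans (patch_mono' (le_max_left i j)))⟩
    obtain ⟨j, hj⟩ := h1
    obtain ⟨m, hm⟩ := patch_sub_of_true w (4 * j)
    refine ⟨m, 0, ?_⟩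
    rintro t ⟨u, hu, rfl⟩
    rw [translate_zero]
    exact hm (hj hu)

end Pool.Agent.helper43.Rob
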