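import Mathlib

/-!
# Spectrum of self-adjoint operators: Rayleigh quotients and gaps
-/

namespace Pool.Agent.helper43.Rob

open scoped InnerProductSpace

section

variable {H : Type*} [NormedAddCommGroup H] [InnerProductSpace ℂ H] [CompleteSpace H]

theorem exists_spec_gt {T : H →L[ℂ] H} (hT : IsSelfAdjoint T) {c : ℝ} {ψ : H}
    (h : c * ‖ψ‖ ^ 2 < (⟪T ψ, ψ⟫_ℂ).re) : ∃ x : ℝ, c < x ∧ (x : ℂ) ∈ spectrum ℂ T := by
  by_contra hne
  push Not at hne
  have h1 : T ≤ algebraMap ℝ (H →L[ℂ] H) c := by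
    refine le_algebraMap_of_spectrum_le ?_ hT
    intro x hx
    by_contra hcx
    exact hne x (not_le.mp hcx) ((spectrum.algebraMap_mem_iff ℂ).mpr hx)
  rw [ContinuousLinearMap.le_def] at h1
  have h2 := h1.re_inner_nonneg_left ψ
  rw [FunLike.coe_sub, Pi.sub_apply, inner_sub_left, map_sub] at h2
  have h3 : (algebraMap ℝ (H →L[ℂ] H) c) ψ = (c : ℂ) • ψ := rfl
  rw [h3, inner_smul_left, Complex.conj_ofReal, inner_self_eq_norm_sq_to_K] at h2
  have h4 : RCLike.re ((c : ℂ) * (‖ψ‖ : ℂ) ^ 2) = c * ‖ψ‖ ^ 2 := by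
    rw [← Complex.ofReal_pow, ← Complex.ofReal_mul]
    rfl
  have h5 : RCLike.re (⟪T ψ, ψ⟫_ℂ) = (⟪T ψ, ψ⟫_ℂ).re := rfl
  have h6 : RCLike.re ((c : ℂ) * ((‖ψ‖ : ℝ) : ℂ) ^ 2) - RCLike.re (⟪T ψ, ψ⟫_ℂ) < 0 := by
    rw [h4, h5]; linarith
  exact absurd h2 (not_le.mpr h6)

theorem exists_spec_lt {T : H →L[ℂ] H} (hT : IsSelfAdjoint T) {c : ℝ} {ψ : H}
    (h : (⟪T ψ, ψ⟫_ℂ).re < c * ‖ψ‖ ^ 2) : ∃ x : ℝ, x < c ∧ (x : ℂ) ∈ spectrum ℂ T := by
  by_contra hne
  push Not at hne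
  have h1 : algebraMap ℝ (H →L[ℂ] H) c ≤ T := by
    refine algebraMap_le_of_le_spectrum ?_ hT
    intro x hx
    by_contra hcx
    exact hne x (not_le.mp hcx) ((spectrum.algebraMap_mem_iff ℂ).mpr hx)
  rw [ContinuousLinearMap.le_def] at h1
  have h2 := h1.re_inner_nonneg_left ψ
  rw [FunLike.coe_sub, Pi.sub_apply, inner_sub_left, map_sub] at h2
  have h3 : (algebraMap ℝ (H →L[ℂ] H) c) ψ = (c : ℂ) • ψ := rfl
  rw [h3, inner_smul_left, Complex.conj_ofReal, inner_self_eq_norm_sq_to_K] at h2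
  have h4 : RCLike.re ((c : ℂ) * (‖ψ‖ : ℂ) ^ 2) = c * ‖ψ‖ ^ 2 := by
    rw [← Complex.ofReal_pow, ← Complex.ofReal_mul]
    rfl
  have h5 : RCLike.re (⟪T ψ, ψ⟫_ℂ) = (⟪T ψ, ψ⟫_ℂ).re := rfl
  have h6 : RCLike.re (⟪T ψ, ψ⟫_ℂ) - RCLike.re ((c : ℂ) * ((‖ψ‖ : ℝ) : ℂ) ^ 2) < 0 := by
    rw [h4, h5]; linarith
  exact absurd h2 (not_le.mpr h6)

end

/-- the real points of the spectrum -/
def Sig {H : Type*} [NormedAddCommGroup H] [InnerProductSpace ℂ H] (T : H →L[ℂ] H) : Set ℝ :=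
  {E | (E : ℂ) ∈ spectrum ℂ T}

theorem Sig_closed {H : Type*} [NormedAddCommGroup H] [InnerProductSpace ℂ H] [CompleteSpace H]
    (T : H →L[ℂ] H) : IsClosed (Sig T) :=
  (spectrum.isClosed T).preimage Complex.continuous_ofReal

/-- a closed set with points on both sides of `c ∉ S` has a gap around `c` -/
theorem exists_gap {S : Set ℝ} (hS : IsClosed S) {c x y : ℝ} (hc : c ∉ S) (hx : x ∈ S) (hxc : x < c)
    (hy : y ∈ S) (hcy : c < y) :
    ∃ a b, a ∈ S ∧ b ∈ S ∧ c ∈ Set.Ioo a b ∧ Set.Ioo a b = connectedComponentIn Sᶜ c := by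
  set A := S ∩ Set.Iic c with hA
  set B := S ∩ Set.Ici c with hB
  have hAc : IsClosed A := hS.inter isClosed_Iic
  have hBc : IsClosed B := hS.inter isClosed_Ici
  have hAb : BddAbove A := ⟨c, fun z hz => hz.2⟩
  have hBb : BddBelow B := ⟨c, fun z hz => hz.2⟩
  have hAn : A.Nonempty := ⟨x, hx, hxc.le⟩
  have hBn : B.Nonempty := ⟨y, hy, hcy.le⟩
  have ha := hAc.csSup_mem hAn hAb
  have hb := hBc.csInf_mem hBn hBb
  have hac : sSup A < c := lt_of_le_of_ne ha.2 (fun h => hc (h ▸ ha.1))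
  have hcb : c < sInf B := lt_of_le_of_ne hb.2 (fun h => hc (h ▸ hb.1))
  refine ⟨sSup A, sInf B, ha.1, hb.1, ⟨hac, hcb⟩, ?_⟩
  apply Set.Subset.antisymm
  · apply isPreconnected_Ioo.subset_connectedComponentIn ⟨hac, hcb⟩
    intro z hz hzS
    rcases le_total z c with h | h
    · exact absurd (le_csSup hAb ⟨hzS, h⟩) (not_le.mpr hz.1)
    · exact absurd (csInf_le hBb ⟨hzS, h⟩) (not_le.mpr hz.2)
  · intro z hz
    have hcS : c ∈ Sᶜ := hc
    have hpre : (connectedComponentIn Sᶜ c).OrdConnected :=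
      isPreconnected_connectedComponentIn.ordConnected
    have hcm : c ∈ connectedComponentIn Sᶜ c := mem_connectedComponentIn hcS
    have hsub := connectedComponentIn_subset Sᶜ c
    constructor
    · by_contra h
      push Not at h
      have : sSup A ∈ connectedComponentIn Sᶜ c := hpre.out hz hcm ⟨h, hac.le⟩
      exact hsub this ha.1
    · by_contra h
      push Not at h
      have : sInf B ∈ connectedComponentIn Sᶜ c := hpre.out hcm hz ⟨hcb.le, h⟩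
      exact hsub this hb.1

end Pool.Agent.helper43.Rob
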