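import Pool.Agent.helper43.Rob.Spec
import Pool.Agent.helper43.Rob.SpecGen

/-!
# The spectral gap of `3 - A` from a parametrix
-/

namespace Pool.Agent.helper43.Rob

open scoped InnerProductSpace

variable {V : Type*} (s : Fin 3 → V → V) (hs : ∀ l, Function.Involutive (s l))

theorem Lr_coord (r : ℝ) (ψ : lp (fun _ : V => ℂ) 2) (x : V) :
    Lr s hs r ψ x = Tc s (3 - r) (fun y => ψ y) x := by
  have h1 : Lr s hs r ψ x = (r : ℂ) * ψ x - Lop s hs ψ x := by rw [Lr_apply]; rfl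
  rw [h1, Lop_apply]
  unfold Tc
  rw [Complex.real_smul, Complex.ofReal_sub, Complex.ofReal_ofNat]
  ring

theorem Lop_resolvent {G E : V → V →₀ ℝ} {M θ : ℝ} (hM : 0 ≤ M) (hθ : 0 ≤ θ) (hθ1 : θ < 1)
    (hG : ∀ v, N1 (G v) ≤ M) (hE : ∀ v, N1 (E v) ≤ θ) (r : ℝ)
    (hT : ∀ y, TF s (3 - r) (G y) = Finsupp.single y 1 + E y) :
    (r : ℂ) ∉ spectrum ℂ (Lop s hs) := by
  rw [spectrum.notMem_iff]
  have hC : 0 ≤ M / (1 - θ) := div_nonneg hM (by linarith)
  have h2 : (0 : ℝ) < (2 : ENNReal).toReal := by norm_num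
  refine isUnit_of_bounded_below (Lr_symm s hs r) hC fun ψ => ?_
  apply lp.norm_le_of_forall_sum_le h2 (by positivity)
  intro S
  have h := l2_bound (s := s) (c := 3 - r) hs hM hθ hθ1 hG hE hT (fun y => ψ y) (B := ‖ψ‖)
    (A := ‖Lr s hs r ψ‖ ^ 2) (fun x => lp.norm_apply_le_norm (by norm_num) ψ x) (fun S' => by
      have := lp.sum_rpow_le_norm_rpow h2 (Lr s hs r ψ) S'
      simpa [Lr_coord] using this) S
  have e : ∀ t : ℝ, t ^ (2 : ENNReal).toReal = t ^ 2 := fun t => by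
    rw [toReal_two, Real.rpow_two]
  simp only [e, mul_pow]
  exact h

/-- there is spectrum above `43/16`: the Rayleigh quotient of a delta function is `3`. -/
theorem Lop_spec_gt (hfix : ∀ l x, s l x ≠ x) (x : V) {c : ℝ} (hc : c < 3) :
    ∃ E : ℝ, c < E ∧ (E : ℂ) ∈ spectrum ℂ (Lop s hs) := by
  classical
  apply exists_spec_gt (Lop_selfAdjoint s hs) (ψ := lp.single 2 x 1)
  rw [lp.inner_single_right, lp.norm_single (by norm_num), Lop_apply, lp.single_apply_self,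
    lp.single_apply_ne _ _ _ (hfix 0 x), lp.single_apply_ne _ _ _ (hfix 1 x),
    lp.single_apply_ne _ _ _ (hfix 2 x)]
  simp
  linarith

/-- there is spectrum below `43/16`: the Rayleigh quotient of the indicator function of two
neighbours is at most `2`. -/
theorem Lop_spec_lt (hfix : ∀ l x, s l x ≠ x) (x : V) {c : ℝ} (hc : 2 < c) :
    ∃ E : ℝ, E < c ∧ (E : ℂ) ∈ spectrum ℂ (Lop s hs) := by
  classical
  set y := s 0 x with hy
  have hyx : y ≠ x := hfix 0 x
  have hsy : s 0 y = x := hs 0 x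
  set ψ : lp (fun _ : V => ℂ) 2 := lp.single 2 x 1 + lp.single 2 y 1 with hψ
  have hv : ∀ z, ψ z = ((if z = x ∨ z = y then (1 : ℝ) else 0 : ℝ) : ℂ) := by
    intro z
    have h0 : ψ z = (Pi.single x (1 : ℂ) : V → ℂ) z + (Pi.single y (1 : ℂ) : V → ℂ) z := rfl
    rw [h0, Pi.single_apply, Pi.single_apply]
    by_cases h1 : z = x
    · have h2 : z ≠ y := fun h => hyx (h ▸ h1)
      simp [h1, hyx.symm]
    · by_cases h2 : z = y <;> simp [h1, h2, hyx]
  have hnn : ∀ z, 0 ≤ (ψ z).re := by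
    intro z
    rw [hv z, Complex.ofReal_re]
    split_ifs <;> norm_num
  have hx1 : ψ x = 1 := by rw [hv]; simp
  have hy1 : ψ y = 1 := by rw [hv]; simp
  have hnorm : ‖ψ‖ ^ 2 = 2 := by
    have h1 : ⟪ψ, ψ⟫_ℂ = 2 := by
      conv_lhs => rw [hψ]
      rw [← hψ, inner_add_left, lp.inner_single_left, lp.inner_single_left, hx1, hy1]
      simp
      norm_num
    rw [inner_self_eq_norm_sq_to_K] at h1
    have h2 : ((‖ψ‖ ^ 2 : ℝ) : ℂ) = ((2 : ℝ) : ℂ) := by
      rw [Complex.ofReal_pow]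
      simpa using h1
    exact Complex.ofReal_injective h2
  apply exists_spec_lt (Lop_selfAdjoint s hs) (ψ := ψ)
  rw [hnorm]
  have h3 : ⟪Lop s hs ψ, ψ⟫_ℂ = (starRingEnd ℂ) (Lop s hs ψ x) + (starRingEnd ℂ) (Lop s hs ψ y) := by
    conv_lhs => rw [hψ]
    rw [← hψ, inner_add_right, lp.inner_single_right, lp.inner_single_right]
    simp
  rw [h3, Lop_apply, Lop_apply, ← hy, hsy, hx1, hy1]
  simp only [Complex.add_re, Complex.conj_re, Complex.sub_re, Complex.one_re]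
  linarith [hnn (s 1 x), hnn (s 2 x), hnn (s 1 y), hnn (s 2 y)]

end Pool.Agent.helper43.Rob
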