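import Pool.Agent.helper43.Rob.Tiling2
import Pool.Agent.helper43.Rob.Exist
import Pool.Agent.helper43.Rob.Spec2

/-!
# The Laplacian of a Robinson triangle tiling has a spectral gap
-/

namespace Pool.Agent.helper43.Rob

open Finset

open scoped InnerProductSpace

theorem KapOK.le {m N g : ℕ} (K : KapOK m N g) (hm : 1 ≤ m) : m ≤ 1024 := by
  by_cases hj1 : m = 1
  · omega
  · obtain ⟨l, hl, h2, h3⟩ := K.par m (by omega) le_rfl
    obtain ⟨h4, h5⟩ := K.sym m ⟨hm, le_rfl⟩ l hl h2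
    have : kn N l (kn N l m) < 2 ^ 10 := fld_lt _ _ _
    rw [h5] at this
    norm_num at this
    omega

section

variable {𝒯 : Set Tile}

theorem RT.exists_nb (h : RT 𝒯) (l : Fin 3) (t : 𝒯) :
    ∃ u : 𝒯, u ≠ t ∧ (u : Tile).edge l = (t : Tile).edge l := by
  obtain ⟨u, hu, h1, h2⟩ := (h.local t.2).1 l l.2
  exact ⟨⟨u, hu⟩, fun e => h1 (congrArg Subtype.val e), h2⟩

/-- the neighbour across the edge of type `l` -/
noncomputable def RT.nb (h : RT 𝒯) (l : Fin 3) (t : 𝒯) : 𝒯 := (h.exists_nb l t).choose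

theorem RT.nb_ne (h : RT 𝒯) (l : Fin 3) (t : 𝒯) : h.nb l t ≠ t :=
  (h.exists_nb l t).choose_spec.1

theorem RT.nb_edge (h : RT 𝒯) (l : Fin 3) (t : 𝒯) :
    (h.nb l t : Tile).edge l = (t : Tile).edge l :=
  (h.exists_nb l t).choose_spec.2

theorem RT.nb_unique (h : RT 𝒯) (l : Fin 3) (t u : 𝒯) (hne : u ≠ t)
    (he : (t : Tile).edge l ∈ (u : Tile).edges) : u = h.nb l t := by
  apply Subtype.ext
  refine h.edge_unique t.2 u.2 (h.nb l t).2 (fun e => hne (Subtype.ext e))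
    (fun e => h.nb_ne l t (Subtype.ext e)) (edge_mem (l := l) (t : Tile)) he ?_
  rw [← h.nb_edge l t]
  exact edge_mem _

theorem RT.nb_invol (h : RT 𝒯) (l : Fin 3) : Function.Involutive (h.nb l) := by
  intro t
  refine (h.nb_unique l (h.nb l t) t (h.nb_ne l t).symm ?_).symm
  rw [h.nb_edge]
  exact edge_mem _

theorem RT.nb_inj (h : RT 𝒯) {l k : Fin 3} (hlk : l ≠ k) (t : 𝒯) : h.nb l t ≠ h.nb k t := by
  intro e
  refine h.edge_inj t.2 (h.nb l t).2 (fun e' => h.nb_ne l t (Subtype.ext e')) l.2 k.2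
    (fun e' => hlk (Fin.ext e')) ?_ ?_
  · rw [← h.nb_edge]
    exact edge_mem _
  · rw [e, ← h.nb_edge]
    exact edge_mem _

theorem RT.neighborSet (h : RT 𝒯) (t : 𝒯) :
    (tileGraph 𝒯).neighborSet t = {h.nb 0 t, h.nb 1 t, h.nb 2 t} := by
  ext u
  rw [SimpleGraph.mem_neighborSet]
  constructor
  · rintro ⟨hne, e, h1, h2⟩
    obtain ⟨l, hl, rfl⟩ := mem_edges h1
    have h3 := h.nb_unique ⟨l, hl⟩ t u (Ne.symm hne) h2
    rw [h3]
    interval_cases l
    · exact Or.inl rfl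
    · exact Or.inr (Or.inl rfl)
    · exact Or.inr (Or.inr rfl)
  · have aux : ∀ l, (tileGraph 𝒯).Adj t (h.nb l t) := fun l =>
      ⟨(h.nb_ne l t).symm, _, edge_mem (l := l) _, by rw [← h.nb_edge]; exact edge_mem _⟩
    rintro (rfl | rfl | rfl)
    · exact aux 0
    · exact aux 1
    · exact aux 2

theorem RT.lop_apply (h : RT 𝒯) (ψ : lp (fun _ : 𝒯 => ℂ) 2) (v : 𝒯) :
    Lop h.nb h.nb_invol ψ v = ∑ᶠ u ∈ (tileGraph 𝒯).neighborSet v, (ψ v - ψ u) := by
  classical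
  rw [Lop_apply, h.neighborSet]
  have e : ({h.nb 0 v, h.nb 1 v, h.nb 2 v} : Set 𝒯) =
      (({h.nb 0 v, h.nb 1 v, h.nb 2 v} : Finset 𝒯) : Set 𝒯) := by simp
  rw [e, finsum_mem_coe_finset, Finset.sum_insert, Finset.sum_insert, Finset.sum_singleton]
  · ring
  · rw [Finset.mem_singleton]
    exact h.nb_inj (by decide) v
  · rw [Finset.mem_insert, Finset.mem_singleton]
    rintro (e | e)
    · exact h.nb_inj (by decide) v e
    · exact h.nb_inj (by decide) v e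

theorem RT.parametrix (h : RT 𝒯) (t : 𝒯) : ∃ G E : 𝒯 →₀ ℝ, N1 G ≤ 2048 ∧ N1 E ≤ 31 / 32 ∧
    TF h.nb (5 / 16) G = Finsupp.single t 1 + E := by
  classical
  obtain ⟨-, m, N, g, K, hm, F, F1, F2, F3⟩ := h.local t.2
  set Fv : ℕ → 𝒯 := fun j => if hj : dom m j then ⟨F j, F2 j hj⟩ else t with hFv
  have hv : ∀ j, dom m j → (Fv j : Tile) = F j := by
    intro j hj
    rw [hFv]
    simp only
    rw [dif_pos hj]
  have hv1 : Fv 1 = t := Subtype.ext (by rw [hv 1 ⟨le_rfl, hm⟩, F1])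
  set Fs : ℕ → 𝒯 →₀ ℝ := fun j => Finsupp.single (Fv j) 1 with hFs
  have hnb : ∀ j, dom m j → ∀ l : Fin 3, kn N l j ≠ 0 → h.nb l (Fv j) = Fv (kn N l j) := by
    intro j hj l hne
    have hd : dom m (kn N l j) := ⟨Nat.one_le_iff_ne_zero.mpr hne, (K.sym j hj l l.2 hne).1⟩
    obtain ⟨h1, h2⟩ := F3 j hj l l.2 hne
    refine (h.nb_unique l (Fv j) _ ?_ ?_).symm
    · intro e
      apply h1
      rw [← hv _ hd, ← hv _ hj, e]
    · rw [hv _ hj, hv _ hd, ← h2]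
      exact edge_mem _
  refine ⟨∑ j ∈ Finset.Icc 1 m, gam g j • Fs j, ∑ j ∈ Finset.Icc 1 m, eps N g j • Fs j, ?_, ?_, ?_⟩
  · calc N1 (∑ j ∈ Finset.Icc 1 m, gam g j • Fs j) ≤ ∑ j ∈ Finset.Icc 1 m, N1 (gam g j • Fs j) :=
          N1_sum _ _
      _ ≤ ∑ j ∈ Finset.Icc 1 m, (2 : ℝ) := by
          refine Finset.sum_le_sum fun j _ => ?_
          calc N1 (gam g j • Fs j) ≤ |gam g j| * N1 (Fs j) := N1_smul _ _
            _ ≤ 2 * 1 := by
                refine mul_le_mul (abs_gam_le g j) ?_ (N1_nonneg _) (by norm_num)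
                have := N1_single (Fv j) (1 : ℝ)
                rwa [abs_one] at this
            _ = 2 := by norm_num
      _ ≤ 2048 := by
          rw [Finset.sum_const, Nat.card_Icc, nsmul_eq_mul]
          have h1 : ((m + 1 - 1 : ℕ) : ℝ) ≤ 1024 := by
            have := K.le hm
            rw [Nat.add_sub_cancel]
            exact_mod_cast this
          linarith
  · calc N1 (∑ j ∈ Finset.Icc 1 m, eps N g j • Fs j) ≤
          ∑ j ∈ Finset.Icc 1 m, N1 (eps N g j • Fs j) := N1_sum _ _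
      _ ≤ ∑ j ∈ Finset.Icc 1 m, |eps N g j| := by
          refine Finset.sum_le_sum fun j _ => ?_
          calc N1 (eps N g j • Fs j) ≤ |eps N g j| * N1 (Fs j) := N1_smul _ _
            _ ≤ |eps N g j| * 1 := by
                refine mul_le_mul_of_nonneg_left ?_ (abs_nonneg _)
                have := N1_single (Fv j) (1 : ℝ)
                rwa [abs_one] at this
            _ = |eps N g j| := mul_one _
      _ ≤ 31 / 32 := sum_eps_le K
  · rw [map_sum]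
    have h1 : ∀ j ∈ Finset.Icc 1 m, TF h.nb (5 / 16) (gam g j • Fs j) = gam g j •
        (Fs (kn N 0 j) + Fs (kn N 1 j) + Fs (kn N 2 j) - (5 / 16 : ℝ) • Fs j) := by
      intro j hj
      rw [Finset.mem_Icc] at hj
      rw [map_smul]
      have h2 : TF h.nb (5 / 16) (Fs j) = Finsupp.single (h.nb 0 (Fv j)) 1 +
          Finsupp.single (h.nb 1 (Fv j)) 1 + Finsupp.single (h.nb 2 (Fv j)) 1 -
          (5 / 16 : ℝ) • Fs j := by
        unfold TF
        rw [Finsupp.linearCombination_single, one_smul]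
      rw [h2]
      by_cases hz : kn N 0 j = 0 ∨ kn N 1 j = 0 ∨ kn N 2 j = 0
      · have hg : gam g j = 0 := by
          rcases hz with hz | hz | hz
          · exact gam_bd K hj (by norm_num) hz
          · exact gam_bd K hj (by norm_num) hz
          · exact gam_bd K hj (by norm_num) hz
        rw [hg, zero_smul, zero_smul]
      · push Not at hz
        rw [hnb j hj 0 hz.1, hnb j hj 1 hz.2.1, hnb j hj 2 hz.2.2]
        rfl
    rw [Finset.sum_congr rfl h1, kap_identity K hm Fs]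
    congr 1
    rw [hFs]
    simp only
    rw [hv1]

theorem RT.not_spec (h : RT 𝒯) : (((43 / 16 : ℝ)) : ℂ) ∉ spectrum ℂ (Lop h.nb h.nb_invol) := by
  choose G E hG hE hT using h.parametrix
  refine Lop_resolvent h.nb h.nb_invol (by norm_num) (by norm_num) (by norm_num) hG hE (43 / 16) ?_
  intro y
  have e : (3 - 43 / 16 : ℝ) = 5 / 16 := by norm_num
  rw [e]
  exact hT y

theorem RT.nonempty (h : RT 𝒯) : Nonempty 𝒯 := by
  have h1 : (0 : ℂ) ∈ ⋃ t ∈ 𝒯, t.carrier := by rw [h.covers]; trivial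
  simp only [Set.mem_iUnion] at h1
  obtain ⟨t, ht, -⟩ := h1
  exact ⟨⟨t, ht⟩⟩

section

variable {H : Type} [NormedAddCommGroup H] [InnerProductSpace ℂ H]

theorem isLaplacian_unique {δ : HilbertBasis 𝒯 ℂ H} {L L' : H →L[ℂ] H}
    (h : IsLaplacian δ L) (h' : IsLaplacian δ L') : L = L' := by
  ext ψ
  apply δ.repr.injective
  ext v
  rw [δ.repr_apply_apply, δ.repr_apply_apply, h ψ v, h' ψ v]

/-- the Laplacian on `H` -/
noncomputable def RT.LH (h : RT 𝒯) (δ : HilbertBasis 𝒯 ℂ H) : H →L[ℂ] H :=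
  δ.repr.symm.toContinuousLinearEquiv.conjContinuousAlgEquiv (Lop h.nb h.nb_invol)

theorem RT.repr_LH (h : RT 𝒯) (δ : HilbertBasis 𝒯 ℂ H) (ψ : H) :
    δ.repr (h.LH δ ψ) = Lop h.nb h.nb_invol (δ.repr ψ) := by
  unfold RT.LH
  rw [ContinuousLinearEquiv.conjContinuousAlgEquiv_apply_apply]
  exact δ.repr.apply_symm_apply _

theorem RT.isLaplacian (h : RT 𝒯) (δ : HilbertBasis 𝒯 ℂ H) : IsLaplacian δ (h.LH δ) := by
  intro ψ v
  rw [← δ.repr_apply_apply, h.repr_LH, h.lop_apply]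
  simp only [δ.repr_apply_apply]

theorem RT.LH_selfAdjoint [CompleteSpace H] (h : RT 𝒯) (δ : HilbertBasis 𝒯 ℂ H) :
    IsSelfAdjoint (h.LH δ) := by
  refine ContinuousLinearMap.isSelfAdjoint_iff_isSymmetric.mpr fun x y => ?_
  show ⟪h.LH δ x, y⟫_ℂ = ⟪x, h.LH δ y⟫_ℂ
  rw [← δ.repr.inner_map_map, ← δ.repr.inner_map_map x, h.repr_LH, h.repr_LH, Lop_symm]

theorem RT.LH_spectrum (h : RT 𝒯) (δ : HilbertBasis 𝒯 ℂ H) :
    spectrum ℂ (h.LH δ) = spectrum ℂ (Lop h.nb h.nb_invol) :=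
  AlgEquiv.spectrum_eq δ.repr.symm.toContinuousLinearEquiv.conjContinuousAlgEquiv _

theorem RT.gap [CompleteSpace H] (h : RT 𝒯) (δ : HilbertBasis 𝒯 ℂ H) :
    (∃ L, IsLaplacian δ L) ∧ ∀ L, IsLaplacian δ L →
    IsSelfAdjoint L ∧ ∃ a b : ℝ, (43 / 16 : ℝ) ∈ Set.Ioo a b ∧
      IsSpectralGap (realSpectrum L) (Set.Ioo a b) := by
  refine ⟨⟨_, h.isLaplacian δ⟩, fun L hL => ?_⟩
  rw [isLaplacian_unique hL (h.isLaplacian δ)]
  refine ⟨h.LH_selfAdjoint δ, ?_⟩
  unfold realSpectrum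
  rw [h.LH_spectrum]
  obtain ⟨x⟩ := h.nonempty
  obtain ⟨y, hy1, hy2⟩ := Lop_spec_gt h.nb h.nb_invol h.nb_ne x
    (show (43 / 16 : ℝ) < 3 by norm_num)
  obtain ⟨z, hz1, hz2⟩ := Lop_spec_lt h.nb h.nb_invol h.nb_ne x
    (show (2 : ℝ) < 43 / 16 by norm_num)
  obtain ⟨a, b, -, -, h3, h4⟩ := exists_gap (Sig_closed (Lop h.nb h.nb_invol)) (c := 43 / 16)
    h.not_spec hz2 hz1 hy2 hy1
  exact ⟨a, b, h3, Metric.isBounded_Ioo a b, 43 / 16, h.not_spec, h4⟩

end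

end

/-- **The Laplacian of every Robinson triangle tiling has a spectral gap around `43/16`.** -/
theorem spectral_gap (w : Bool) : (∃ 𝒯, IsRobinsonTiling w 𝒯) ∧ ∀ 𝒯, IsRobinsonTiling w 𝒯 →
    ∀ (H : Type) [NormedAddCommGroup H] [InnerProductSpace ℂ H] [CompleteSpace H]
      (δ : HilbertBasis 𝒯 ℂ H), (∃ L, IsLaplacian δ L) ∧ ∀ L, IsLaplacian δ L →
        IsSelfAdjoint L ∧ ∃ a b : ℝ, (43 / 16 : ℝ) ∈ Set.Ioo a b ∧
          IsSpectralGap (realSpectrum L) (Set.Ioo a b) :=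
  ⟨⟨_, limitTiling_robinson w⟩, fun _ h _ _ _ _ δ => h.rt.gap δ⟩

end Pool.Agent.helper43.Rob
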