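import Mathlib

/-!
# Open and closed triangles in the plane
-/

namespace Pool.Agent.helper43.Rob

/-- cross product -/
def cross (u v : ℂ) : ℝ := u.re * v.im - u.im * v.re

/-- open triangle -/
def OT (p q r : ℂ) : Set ℂ :=
  {z | ∃ x y w : ℝ, 0 < x ∧ 0 < y ∧ 0 < w ∧ x + y + w = 1 ∧ z = x * p + y * q + w * r}

/-- closed triangle -/
def CT (p q r : ℂ) : Set ℂ :=
  {z | ∃ x y w : ℝ, 0 ≤ x ∧ 0 ≤ y ∧ 0 ≤ w ∧ x + y + w = 1 ∧ z = x * p + y * q + w * r}

theorem CT_eq_hull (p q r : ℂ) : convexHull ℝ {p, q, r} = CT p q r := by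
  apply Set.Subset.antisymm
  · apply convexHull_min
    · intro z hz
      simp only [Set.mem_insert_iff, Set.mem_singleton_iff] at hz
      rcases hz with rfl | rfl | rfl
      · exact ⟨1, 0, 0, by norm_num, le_refl _, le_refl _, by norm_num, by simp⟩
      · exact ⟨0, 1, 0, le_refl _, by norm_num, le_refl _, by norm_num, by simp⟩
      · exact ⟨0, 0, 1, le_refl _, le_refl _, by norm_num, by norm_num, by simp⟩
    · rintro z ⟨x, y, w, hx, hy, hw, hs, rfl⟩ z' ⟨x', y', w', hx', hy', hw', hs', rfl⟩ α β hα hβ hαβ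
      refine ⟨α * x + β * x', α * y + β * y', α * w + β * w', by positivity, by positivity,
        by positivity, ?_, ?_⟩
      · calc _ = α * (x + y + w) + β * (x' + y' + w') := by ring
          _ = 1 := by rw [hs, hs']; linarith
      · simp only [Complex.real_smul]
        push_cast
        ring
  · rintro z ⟨x, y, w, hx, hy, hw, hs, rfl⟩
    have hc := convex_convexHull ℝ ({p, q, r} : Set ℂ)
    have hp : p ∈ convexHull ℝ ({p, q, r} : Set ℂ) := subset_convexHull ℝ _ (by simp)
    have hq : q ∈ convexHull ℝ ({p, q, r} : Set ℂ) := subset_convexHull ℝ _ (by simp)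
    have hr : r ∈ convexHull ℝ ({p, q, r} : Set ℂ) := subset_convexHull ℝ _ (by simp)
    by_cases h0 : x + y = 0
    · have hx0 : x = 0 := by linarith
      have hy0 : y = 0 := by linarith
      have hw1 : w = 1 := by linarith
      rw [hx0, hy0, hw1]
      simpa using hr
    · have hpos : 0 < x + y := lt_of_le_of_ne (by positivity) (Ne.symm h0)
      have h1 := hc hp hq (a := x / (x + y)) (b := y / (x + y)) (by positivity) (by positivity)
        (by rw [← add_div]; exact div_self h0)
      have h2 := hc h1 hr (a := x + y) (b := w) hpos.le hw (by linarith)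
      convert h2 using 1
      simp only [Complex.real_smul]
      push_cast
      have h0' : ((x : ℂ) + y) ≠ 0 := by
        rw [← Complex.ofReal_add]
        exact Complex.ofReal_ne_zero.mpr h0
      field_simp

theorem OT_sub_CT (p q r : ℂ) : OT p q r ⊆ CT p q r := by
  rintro z ⟨x, y, w, hx, hy, hw, hs, rfl⟩
  exact ⟨x, y, w, hx.le, hy.le, hw.le, hs, rfl⟩

/-- barycentric coordinates are determined by cross products -/
theorem bary {p q r z : ℂ} {x y w : ℝ} (hs : x + y + w = 1)
    (hz : z = x * p + y * q + w * r) :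
    cross (q - z) (r - z) = x * cross (q - p) (r - p) ∧
    cross (r - z) (p - z) = y * cross (q - p) (r - p) ∧
    cross (p - z) (q - z) = w * cross (q - p) (r - p) := by
  have hx : x = 1 - y - w := by linarith
  subst hx
  subst hz
  unfold cross
  simp only [Complex.sub_re, Complex.sub_im, Complex.add_re, Complex.add_im, Complex.mul_re,
    Complex.mul_im, Complex.ofReal_re, Complex.ofReal_im]
  refine ⟨?_, ?_, ?_⟩ <;> ring

theorem bary_uniq {p q r : ℂ} (hD : cross (q - p) (r - p) ≠ 0) {x y w x' y' w' : ℝ}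
    (hs : x + y + w = 1) (hs' : x' + y' + w' = 1)
    (h : (x : ℂ) * p + y * q + w * r = x' * p + y' * q + w' * r) :
    x = x' ∧ y = y' ∧ w = w' := by
  obtain ⟨h1, h2, h3⟩ := bary hs (rfl : _ = (x : ℂ) * p + y * q + w * r)
  obtain ⟨h4, h5, h6⟩ := bary hs' h
  rw [h1] at h4
  rw [h2] at h5
  rw [h3] at h6
  exact ⟨mul_right_cancel₀ hD h4, mul_right_cancel₀ hD h5, mul_right_cancel₀ hD h6⟩

/-- every point has barycentric coordinates -/
theorem bary_exists {p q r : ℂ} (hD : cross (q - p) (r - p) ≠ 0) (z : ℂ) :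
    z = ((cross (q - z) (r - z) / cross (q - p) (r - p) : ℝ) : ℂ) * p +
      ((cross (r - z) (p - z) / cross (q - p) (r - p) : ℝ) : ℂ) * q +
      ((cross (p - z) (q - z) / cross (q - p) (r - p) : ℝ) : ℂ) * r ∧
    cross (q - z) (r - z) / cross (q - p) (r - p) + cross (r - z) (p - z) / cross (q - p) (r - p) +
      cross (p - z) (q - z) / cross (q - p) (r - p) = 1 := by
  constructor
  · have hD' : ((cross (q - p) (r - p) : ℝ) : ℂ) ≠ 0 := Complex.ofReal_ne_zero.mpr hD
    have key : ((cross (q - p) (r - p) : ℝ) : ℂ) * z = ((cross (q - z) (r - z) : ℝ) : ℂ) * p +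
        ((cross (r - z) (p - z) : ℝ) : ℂ) * q + ((cross (p - z) (q - z) : ℝ) : ℂ) * r := by
      unfold cross
      apply Complex.ext
      · simp only [Complex.sub_re, Complex.sub_im, Complex.add_re, Complex.mul_re,
          Complex.ofReal_re, Complex.ofReal_im]
        ring
      · simp only [Complex.sub_re, Complex.sub_im, Complex.add_im, Complex.mul_im,
          Complex.ofReal_re, Complex.ofReal_im]
        ring
    push_cast
    field_simp
    linear_combination key
  · rw [← add_div, ← add_div, div_eq_one_iff_eq hD]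
    unfold cross
    simp only [Complex.sub_re, Complex.sub_im]
    ring

theorem mem_OT_iff {p q r : ℂ} (hD : cross (q - p) (r - p) ≠ 0) {z : ℂ} :
    z ∈ OT p q r ↔ 0 < cross (q - z) (r - z) / cross (q - p) (r - p) ∧
      0 < cross (r - z) (p - z) / cross (q - p) (r - p) ∧
      0 < cross (p - z) (q - z) / cross (q - p) (r - p) := by
  constructor
  · rintro ⟨x, y, w, hx, hy, hw, hs, hz⟩
    obtain ⟨h1, h2, h3⟩ := bary hs hz
    rw [h1, h2, h3, mul_div_cancel_right₀ _ hD, mul_div_cancel_right₀ _ hD,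
      mul_div_cancel_right₀ _ hD]
    exact ⟨hx, hy, hw⟩
  · rintro ⟨h1, h2, h3⟩
    obtain ⟨h4, h5⟩ := bary_exists hD z
    exact ⟨_, _, _, h1, h2, h3, h5, h4⟩

theorem mem_CT_iff {p q r : ℂ} (hD : cross (q - p) (r - p) ≠ 0) {z : ℂ} :
    z ∈ CT p q r ↔ 0 ≤ cross (q - z) (r - z) / cross (q - p) (r - p) ∧
      0 ≤ cross (r - z) (p - z) / cross (q - p) (r - p) ∧
      0 ≤ cross (p - z) (q - z) / cross (q - p) (r - p) := by
  constructor
  · rintro ⟨x, y, w, hx, hy, hw, hs, hz⟩
    obtain ⟨h1, h2, h3⟩ := bary hs hz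
    rw [h1, h2, h3, mul_div_cancel_right₀ _ hD, mul_div_cancel_right₀ _ hD,
      mul_div_cancel_right₀ _ hD]
    exact ⟨hx, hy, hw⟩
  · rintro ⟨h1, h2, h3⟩
    obtain ⟨h4, h5⟩ := bary_exists hD z
    exact ⟨_, _, _, h1, h2, h3, h5, h4⟩

theorem continuous_cross {f g : ℂ → ℂ} (hf : Continuous f) (hg : Continuous g) :
    Continuous (fun z => cross (f z) (g z)) := by
  unfold cross
  exact ((Complex.continuous_re.comp hf).mul (Complex.continuous_im.comp hg)).sub
    ((Complex.continuous_im.comp hf).mul (Complex.continuous_re.comp hg))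

theorem isOpen_OT {p q r : ℂ} (hD : cross (q - p) (r - p) ≠ 0) : IsOpen (OT p q r) := by
  have h : OT p q r = {z | 0 < cross (q - z) (r - z) / cross (q - p) (r - p)} ∩
      ({z | 0 < cross (r - z) (p - z) / cross (q - p) (r - p)} ∩
      {z | 0 < cross (p - z) (q - z) / cross (q - p) (r - p)}) := by
    ext z
    rw [mem_OT_iff hD]
    rfl
  rw [h]
  refine IsOpen.inter ?_ (IsOpen.inter ?_ ?_) <;>
    exact isOpen_lt continuous_const ((continuous_cross (by fun_prop) (by fun_prop)).div_const _)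

theorem OT_sub_interior {p q r : ℂ} (hD : cross (q - p) (r - p) ≠ 0) :
    OT p q r ⊆ interior (CT p q r) :=
  interior_maximal (OT_sub_CT p q r) (isOpen_OT hD)

/-- pushing an interior point away from `v` by a small amount stays inside -/
theorem push {S : Set ℂ} {z v : ℂ} (hz : z ∈ interior S) :
    ∃ ε : ℝ, 0 < ε ∧ z + ε * (z - v) ∈ S := by
  have hc : Filter.Tendsto (fun ε : ℝ => z + ε * (z - v)) (nhds 0) (nhds z) := by
    have : Continuous (fun ε : ℝ => z + (ε : ℂ) * (z - v)) := by fun_prop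
    have h2 := this.tendsto 0
    simpa using h2
  have h3 := hc (mem_interior_iff_mem_nhds.mp hz)
  rw [Filter.mem_map, Metric.mem_nhds_iff] at h3
  obtain ⟨δ, hδ, hb⟩ := h3
  refine ⟨δ / 2, by linarith, hb ?_⟩
  rw [Metric.mem_ball, Real.dist_eq, sub_zero, abs_of_pos (by linarith)]
  linarith

theorem interior_CT {p q r : ℂ} (hD : cross (q - p) (r - p) ≠ 0) :
    interior (CT p q r) = OT p q r := by
  apply Set.Subset.antisymm _ (OT_sub_interior hD)
  intro z hz
  obtain ⟨x, y, w, hx, hy, hw, hs, hzz⟩ := interior_subset hz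
  have aux : ∀ (v : ℂ) (a b c : ℝ), a + b + c = 1 → v = a * p + b * q + c * r →
      ∃ ε : ℝ, 0 < ε ∧ 0 ≤ (1 + ε) * x - ε * a ∧ 0 ≤ (1 + ε) * y - ε * b ∧
        0 ≤ (1 + ε) * w - ε * c := by
    intro v a b c habc hv
    obtain ⟨ε, hε, x', y', w', hx', hy', hw', hs', hz'⟩ := push (v := v) hz
    refine ⟨ε, hε, ?_⟩
    have h1 : ((1 + ε) * x - ε * a) + ((1 + ε) * y - ε * b) + ((1 + ε) * w - ε * c) = 1 := by
      calc _ = (1 + ε) * (x + y + w) - ε * (a + b + c) := by ring
        _ = 1 := by rw [hs, habc]; ring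
    have h2 := bary_uniq hD h1 hs' (by
      rw [← hz', hzz, hv]
      push_cast
      ring)
    rw [h2.1, h2.2.1, h2.2.2]
    exact ⟨hx', hy', hw'⟩
  refine ⟨x, y, w, ?_, ?_, ?_, hs, hzz⟩
  · obtain ⟨ε, hε, h1, -, -⟩ := aux p 1 0 0 (by norm_num) (by simp)
    rcases hx.lt_or_eq with h | h
    · exact h
    · rw [← h] at h1; linarith
  · obtain ⟨ε, hε, -, h1, -⟩ := aux q 0 1 0 (by norm_num) (by simp)
    rcases hy.lt_or_eq with h | h
    · exact h
    · rw [← h] at h1; linarith
  · obtain ⟨ε, hε, -, -, h1⟩ := aux r 0 0 1 (by norm_num) (by simp)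
    rcases hw.lt_or_eq with h | h
    · exact h
    · rw [← h] at h1; linarith

/-- a point of the closed triangle and an open set containing it meet the open triangle -/
theorem CT_open_inter {p q r : ℂ} {U : Set ℂ} (hU : IsOpen U) {z : ℂ} (hz : z ∈ CT p q r)
    (hzU : z ∈ U) : (OT p q r ∩ U).Nonempty := by
  obtain ⟨x, y, w, hx, hy, hw, hs, hzz⟩ := hz
  have hc : Filter.Tendsto (fun s : ℝ => (1 - (s : ℂ)) * z + s * ((p + q + r) / 3)) (nhds 0)
      (nhds z) := by
    have : Continuous (fun s : ℝ => (1 - (s : ℂ)) * z + s * ((p + q + r) / 3)) := by fun_prop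
    have h2 := this.tendsto 0
    simpa using h2
  have h3 := hc (hU.mem_nhds hzU)
  rw [Filter.mem_map, Metric.mem_nhds_iff] at h3
  obtain ⟨δ, hδ, hb⟩ := h3
  set s : ℝ := min (δ / 2) (1 / 2) with hs'
  have hs0 : 0 < s := lt_min (by linarith) (by norm_num)
  have hs1 : s ≤ 1 / 2 := min_le_right _ _
  have hs2 : s ≤ δ / 2 := min_le_left _ _
  refine ⟨(1 - (s : ℂ)) * z + s * ((p + q + r) / 3), ?_, hb ?_⟩
  · refine ⟨(1 - s) * x + s / 3, (1 - s) * y + s / 3, (1 - s) * w + s / 3, ?_, ?_, ?_, ?_, ?_⟩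
    · have : 0 ≤ (1 - s) * x := mul_nonneg (by linarith) hx
      linarith
    · have : 0 ≤ (1 - s) * y := mul_nonneg (by linarith) hy
      linarith
    · have : 0 ≤ (1 - s) * w := mul_nonneg (by linarith) hw
      linarith
    · calc _ = (1 - s) * (x + y + w) + s := by ring
        _ = 1 := by rw [hs]; ring
    · rw [hzz]
      push_cast
      ring
  · rw [Metric.mem_ball, Real.dist_eq, sub_zero, abs_of_pos hs0]
    linarith

theorem OT_perm1 (p q r : ℂ) : OT p q r = OT q p r := by
  ext z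
  constructor
  · rintro ⟨x, y, w, hx, hy, hw, hs, rfl⟩
    exact ⟨y, x, w, hy, hx, hw, by linarith, by ring⟩
  · rintro ⟨x, y, w, hx, hy, hw, hs, rfl⟩
    exact ⟨y, x, w, hy, hx, hw, by linarith, by ring⟩

theorem OT_perm2 (p q r : ℂ) : OT p q r = OT q r p := by
  ext z
  constructor
  · rintro ⟨x, y, w, hx, hy, hw, hs, rfl⟩
    exact ⟨y, w, x, hy, hw, hx, by linarith, by ring⟩
  · rintro ⟨x, y, w, hx, hy, hw, hs, rfl⟩
    exact ⟨w, x, y, hw, hx, hy, by linarith, by ring⟩

/-- two triangles on the same side of a common edge overlap -/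
theorem same_side {p q r r' : ℂ} (h : 0 < cross (q - p) (r - p) * cross (q - p) (r' - p)) :
    (OT p q r ∩ OT p q r').Nonempty := by
  have hD : cross (q - p) (r - p) ≠ 0 := by
    intro h0
    rw [h0] at h
    simp at h
  obtain ⟨h1, h2⟩ := bary_exists hD r'
  set x := cross (q - r') (r - r') / cross (q - p) (r - p) with hx
  set y := cross (r - r') (p - r') / cross (q - p) (r - p) with hy
  set w := cross (p - r') (q - r') / cross (q - p) (r - p) with hw
  have hw0 : 0 < w := by
    rw [hw]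
    have e1 : cross (p - r') (q - r') = cross (q - p) (r' - p) := by
      unfold cross
      simp only [Complex.sub_re, Complex.sub_im]
      ring
    rw [e1]
    rcases mul_pos_iff.mp h with ⟨h3, h4⟩ | ⟨h3, h4⟩
    · exact div_pos h4 h3
    · exact div_pos_of_neg_of_neg h4 h3
  set K : ℝ := 1 + |x| + |y| with hK
  have hK1 : 1 ≤ K := by
    have := abs_nonneg x
    have := abs_nonneg y
    linarith
  set s : ℝ := 1 / (4 * K) with hs
  have hs0 : 0 < s := by positivity
  have hsK : s * K = 1 / 4 := by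
    rw [hs]
    field_simp
  have hs1 : s ≤ 1 / 4 := by
    nlinarith
  have hx1 : -(1 / 4) ≤ s * x := by
    have h3 : -(K) ≤ x := by
      have := neg_abs_le x
      have := abs_nonneg y
      linarith
    nlinarith
  have hy1 : -(1 / 4) ≤ s * y := by
    have h3 : -(K) ≤ y := by
      have := neg_abs_le y
      have := abs_nonneg x
      linarith
    nlinarith
  refine ⟨((1 - s) / 2 : ℝ) * p + ((1 - s) / 2 : ℝ) * q + (s : ℝ) * r', ?_, ?_⟩
  · refine ⟨(1 - s) / 2 + s * x, (1 - s) / 2 + s * y, s * w, by linarith, by linarith,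
      by positivity, ?_, ?_⟩
    · calc _ = (1 - s) + s * (x + y + w) := by ring
        _ = 1 := by rw [h2]; ring
    · rw [h1]
      push_cast
      ring
  · exact ⟨(1 - s) / 2, (1 - s) / 2, s, by linarith, by linarith, hs0, by ring, rfl⟩

theorem cross_swap (u v : ℂ) : cross u v = -cross v u := by
  unfold cross; ring

end Pool.Agent.helper43.Rob
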