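import Pool.Agent.helper43.Rob.Defs
import Pool.Agent.helper43.Rob.Tri
import Pool.Agent.helper43.Rob.Cover

/-!
# Geometry of the Robinson triangle patches
-/

namespace Pool.Agent.helper43.Rob

open Real

/-! ### the tenth root of unity -/

theorem zeta_eq : zeta = ⟨cos (π / 5), sin (π / 5)⟩ := by
  unfold zeta
  have h : Complex.I * ((π : ℂ) / 5) = ((π / 5 : ℝ) : ℂ) * Complex.I := by
    push_cast; ring
  rw [h, Complex.exp_mul_I, ← Complex.ofReal_cos, ← Complex.ofReal_sin]
  generalize cos (π / 5) = c
  generalize sin (π / 5) = s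
  apply Complex.ext
  · simp
  · simp

theorem zeta_pow (n : ℕ) : zeta ^ n = Complex.exp (((n * (π / 5) : ℝ) : ℂ) * Complex.I) := by
  unfold zeta
  rw [← Complex.exp_nat_mul]
  congr 1
  push_cast
  ring

theorem zeta_pow_five : zeta ^ 5 = -1 := by
  rw [zeta_pow]
  have h : (((5 : ℕ) * (π / 5) : ℝ) : ℂ) = π := by push_cast; ring
  rw [h, Complex.exp_pi_mul_I]

theorem zeta_ne_zero : zeta ≠ 0 := Complex.exp_ne_zero _

theorem zeta_pow_ten : zeta ^ 10 = 1 := by
  calc zeta ^ 10 = (zeta ^ 5) ^ 2 := by ring
    _ = 1 := by rw [zeta_pow_five]; ring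

theorem zeta_zpow_ten : zeta ^ (10 : ℤ) = 1 := by
  exact_mod_cast zeta_pow_ten

theorem norm_zeta : ‖zeta‖ = 1 := by
  have h := zeta_pow 1
  rw [pow_one] at h
  rw [h, Complex.norm_exp_ofReal_mul_I]

theorem sin_pi_div_five_gt : 1 / 2 < sin (π / 5) := by
  have h1 : sin (π / 6) = 1 / 2 := Real.sin_pi_div_six
  rw [← h1]
  apply Real.sin_lt_sin_of_lt_of_le_pi_div_two
  · linarith [Real.pi_pos]
  · linarith [Real.pi_pos]
  · linarith [Real.pi_pos]

theorem zeta_im : zeta.im = sin (π / 5) := by rw [zeta_eq]

theorem zeta_rel : zeta ^ 4 - zeta ^ 3 + zeta ^ 2 - zeta + 1 = 0 := by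
  have h1 : (zeta + 1) * (zeta ^ 4 - zeta ^ 3 + zeta ^ 2 - zeta + 1) = 0 := by
    have := zeta_pow_five
    linear_combination this
  rcases mul_eq_zero.mp h1 with h | h
  · exfalso
    have h2 : zeta = -1 := by linear_combination h
    have h3 := zeta_im
    rw [h2] at h3
    have := sin_pi_div_five_gt
    simp at h3
    linarith
  · exact h

/-- the golden ratio as a complex number -/
noncomputable abbrev gr : ℂ := (Real.goldenRatio : ℝ)

theorem gr_eq : gr = zeta - zeta ^ 4 := by
  have h1 : Real.goldenRatio = 2 * cos (π / 5) := by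
    rw [Real.cos_pi_div_five, Real.goldenRatio]
    ring
  have h2 : zeta ^ 4 = -⟨cos (π / 5), -sin (π / 5)⟩ := by
    have h3 : zeta * zeta ^ 4 = -1 := by
      have := zeta_pow_five
      linear_combination this
    have h4 : zeta * (-(⟨cos (π / 5), -sin (π / 5)⟩ : ℂ)) = -1 := by
      rw [zeta_eq]
      have h5 := Real.sin_sq_add_cos_sq (π / 5)
      generalize cos (π / 5) = c at h5
      generalize sin (π / 5) = s at h5
      apply Complex.ext
      · simp
        nlinarith
      · simp
        ring
    exact mul_left_cancel₀ zeta_ne_zero (h3.trans h4.symm)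
  rw [h2, zeta_eq, gr, h1]
  generalize cos (π / 5) = c
  generalize sin (π / 5) = s
  apply Complex.ext
  · simp
    ring
  · simp

theorem gr_ne : gr ≠ 0 := Complex.ofReal_ne_zero.mpr Real.goldenRatio_ne_zero

theorem gold_infl (p q : ℂ) : gold (gr * p) (gr * q) = gr * p + (q - p) := by
  unfold gold
  have := gr_ne
  field_simp

/-! ### the child tiles -/

/-- the child number `d` of a tile -/
noncomputable def childTile (d : ℕ) (t : Tile) : Tile :=
  if d = 0 then ⟨false, gr * t.c, gr * t.a + (t.b - t.a), gr * t.b⟩
  else if d = 1 then ⟨true, gr * t.a + (t.b - t.a), gr * t.c, gr * t.a⟩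
  else if d = 2 then ⟨true, gr * t.b + (t.c - t.b), gr * t.c, gr * t.a⟩
  else if d = 3 then ⟨true, gr * t.b + (t.a - t.b), gr * t.b + (t.c - t.b), gr * t.b⟩
  else ⟨false, gr * t.b + (t.c - t.b), gr * t.b + (t.a - t.b), gr * t.a⟩

theorem mem_dissect {t u : Tile} :
    u ∈ t.inflate.dissect ↔ ∃ d, compat t.obt d = true ∧ u = childTile d t := by
  unfold Tile.dissect Tile.inflate
  simp only [gold_infl]
  cases h : t.obt
  · simp only [Bool.false_eq_true, if_false, Set.mem_insert_iff, Set.mem_singleton_iff]
    constructor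
    · rintro (h | h)
      · exact ⟨0, by decide, by rw [h]; simp [childTile]⟩
      · exact ⟨1, by decide, by rw [h]; simp [childTile]⟩
    · rintro ⟨d, hd, rfl⟩
      rcases compat_false.mp hd with rfl | rfl
      · left; simp [childTile]
      · right; simp [childTile]
  · simp only [if_true, Set.mem_insert_iff, Set.mem_singleton_iff]
    constructor
    · rintro (h | h | h)
      · exact ⟨2, by decide, by rw [h]; simp [childTile]⟩
      · exact ⟨3, by decide, by rw [h]; simp [childTile]⟩
      · exact ⟨4, by decide, by rw [h]; simp [childTile]⟩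
    · rintro ⟨d, hd, rfl⟩
      rcases compat_true.mp hd with rfl | rfl | rfl
      · left; simp [childTile]
      · right; left; simp [childTile]
      · right; right; simp [childTile]

theorem childTile_obt {t : Tile} {d : ℕ} (hd : compat t.obt d = true) :
    (childTile d t).obt = Nat.testBit 14 d := by
  cases h : t.obt
  · rw [h] at hd
    rcases compat_false.mp hd with rfl | rfl <;> simp [childTile] <;> decide
  · rw [h] at hd
    rcases compat_true.mp hd with rfl | rfl | rfl <;> simp [childTile] <;> decide

/-! ### shape invariant -/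

/-- the tile is congruent to one of the prototiles -/
def Inv (t : Tile) : Prop :=
  ∃ ω : ℂ, t.c - t.a = ω * (t.b - t.a) ∧ ‖t.b - t.a‖ = 1 ∧
    ((t.obt = true ∧ (ω = zeta ^ 3 ∨ ω = -zeta ^ 2)) ∨
      (t.obt = false ∧ (ω = zeta ∨ ω = -zeta ^ 4)))

theorem norm_pow_mul (k : ℕ) (u : ℂ) : ‖zeta ^ k * u‖ = ‖u‖ := by
  rw [norm_mul, norm_pow, norm_zeta, one_pow, one_mul]

theorem norm_npow_mul (k : ℕ) (u : ℂ) : ‖-zeta ^ k * u‖ = ‖u‖ := by
  rw [norm_mul, norm_neg, norm_pow, norm_zeta, one_pow, one_mul]

theorem Inv.child {t : Tile} (h : Inv t) {d : ℕ} (hd : compat t.obt d = true) :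
    Inv (childTile d t) := by
  obtain ⟨ω, h1, h2, h3⟩ := h
  have hr := zeta_rel
  have hg := gr_eq
  have hc : t.c = t.a + ω * (t.b - t.a) := by linear_combination h1
  rcases h3 with ⟨ho, h3⟩ | ⟨ho, h3⟩
  · rw [ho] at hd
    rcases compat_true.mp hd with rfl | rfl | rfl
    · rcases h3 with rfl | rfl
      · refine ⟨zeta ^ 3, ?_, ?_, Or.inl ⟨rfl, Or.inl rfl⟩⟩
        · simp only [childTile, hc, hg]
          norm_num
          linear_combination (t.b - t.a) * (1 - zeta ^ 2 - 2 * zeta ^ 3 + zeta ^ 5 + zeta ^ 6) * hr
        · have e : (childTile 2 t).b - (childTile 2 t).a = zeta ^ 4 * (t.b - t.a) := by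
            simp only [childTile, hc, hg]
            norm_num
            linear_combination (t.b - t.a) * (1 - zeta ^ 2 - zeta ^ 3) * hr
          rw [e, norm_pow_mul, h2]
      · refine ⟨-zeta ^ 2, ?_, ?_, Or.inl ⟨rfl, Or.inr rfl⟩⟩
        · simp only [childTile, hc, hg]
          norm_num
          linear_combination (t.b - t.a) * (1 + zeta ^ 2 + zeta ^ 3 + zeta ^ 4) * hr
        · have e : (childTile 2 t).b - (childTile 2 t).a = -zeta ^ 1 * (t.b - t.a) := by
            simp only [childTile, hc, hg]
            norm_num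
            linear_combination (t.b - t.a) * (1 + zeta + zeta ^ 2) * hr
          rw [e, norm_npow_mul, h2]
    · rcases h3 with rfl | rfl
      · refine ⟨-zeta ^ 2, ?_, ?_, Or.inl ⟨rfl, Or.inr rfl⟩⟩
        · simp only [childTile, hc, hg]
          norm_num
          linear_combination (t.b - t.a) * (1 + zeta) * hr
        · have e : (childTile 3 t).b - (childTile 3 t).a = zeta ^ 3 * (t.b - t.a) := by
            simp only [childTile, hc, hg]
            norm_num
            try ring
          rw [e, norm_pow_mul, h2]
      · refine ⟨zeta ^ 3, ?_, ?_, Or.inl ⟨rfl, Or.inl rfl⟩⟩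
        · simp only [childTile, hc, hg]
          norm_num
          linear_combination (t.b - t.a) * (1 + zeta) * hr
        · have e : (childTile 3 t).b - (childTile 3 t).a = -zeta ^ 2 * (t.b - t.a) := by
            simp only [childTile, hc, hg]
            norm_num
            try ring
          rw [e, norm_npow_mul, h2]
    · rcases h3 with rfl | rfl
      · refine ⟨-zeta ^ 4, ?_, ?_, Or.inr ⟨rfl, Or.inr rfl⟩⟩
        · simp only [childTile, hc, hg]
          norm_num
          linear_combination (t.b - t.a) * (1 - zeta ^ 2 - zeta ^ 3) * hr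
        · have e : (childTile 4 t).b - (childTile 4 t).a = -zeta ^ 3 * (t.b - t.a) := by
            simp only [childTile, hc, hg]
            norm_num
            try ring
          rw [e, norm_npow_mul, h2]
      · refine ⟨zeta, ?_, ?_, Or.inr ⟨rfl, Or.inl rfl⟩⟩
        · simp only [childTile, hc, hg]
          norm_num
          linear_combination (t.b - t.a) * hr
        · have e : (childTile 4 t).b - (childTile 4 t).a = zeta ^ 2 * (t.b - t.a) := by
            simp only [childTile, hc, hg]
            norm_num
            try ring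
          rw [e, norm_pow_mul, h2]
  · rw [ho] at hd
    rcases compat_false.mp hd with rfl | rfl
    · rcases h3 with rfl | rfl
      · refine ⟨zeta, ?_, ?_, Or.inr ⟨rfl, Or.inl rfl⟩⟩
        · simp only [childTile, hc, hg]
          norm_num
          linear_combination (t.b - t.a) * (-zeta ^ 2) * hr
        · have e : (childTile 0 t).b - (childTile 0 t).a = -zeta ^ 2 * (t.b - t.a) := by
            simp only [childTile, hc, hg]
            norm_num
            linear_combination (t.b - t.a) * (1 + zeta) * hr
          rw [e, norm_npow_mul, h2]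
      · refine ⟨-zeta ^ 4, ?_, ?_, Or.inr ⟨rfl, Or.inr rfl⟩⟩
        · simp only [childTile, hc, hg]
          norm_num
          linear_combination (t.b - t.a) *
            (zeta + zeta ^ 2 + zeta ^ 5 - zeta ^ 7 - zeta ^ 8) * hr
        · have e : (childTile 0 t).b - (childTile 0 t).a = zeta ^ 3 * (t.b - t.a) := by
            simp only [childTile, hc, hg]
            norm_num
            linear_combination (t.b - t.a) * (1 + zeta - zeta ^ 3 - zeta ^ 4) * hr
          rw [e, norm_pow_mul, h2]
    · rcases h3 with rfl | rfl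
      · refine ⟨zeta ^ 3, ?_, ?_, Or.inl ⟨rfl, Or.inl rfl⟩⟩
        · simp only [childTile, hc, hg]
          norm_num
          linear_combination (t.b - t.a) * (-1 - zeta + zeta ^ 3 + zeta ^ 4) * hr
        · have e : (childTile 1 t).b - (childTile 1 t).a = zeta ^ 2 * (t.b - t.a) := by
            simp only [childTile, hc, hg]
            norm_num
            linear_combination (t.b - t.a) * (-1 - zeta) * hr
          rw [e, norm_pow_mul, h2]
      · refine ⟨-zeta ^ 2, ?_, ?_, Or.inl ⟨rfl, Or.inr rfl⟩⟩
        · simp only [childTile, hc, hg]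
          norm_num
          linear_combination (t.b - t.a) *
            (-1 - zeta - zeta ^ 2 - zeta ^ 3 + zeta ^ 5 + zeta ^ 6) * hr
        · have e : (childTile 1 t).b - (childTile 1 t).a = -zeta ^ 3 * (t.b - t.a) := by
            simp only [childTile, hc, hg]
            norm_num
            linear_combination (t.b - t.a) * (-1 - zeta + zeta ^ 3 + zeta ^ 4) * hr
          rw [e, norm_npow_mul, h2]

end Pool.Agent.helper43.Rob
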