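import Pool.Agent.helper43.Rob.Ana

/-!
# The operator on `ℓ²` and its spectrum
-/

namespace Pool.Agent.helper43.Rob

open scoped InnerProductSpace

variable {V : Type*}

theorem toReal_two : ((2 : ENNReal).toReal) = 2 := by norm_num

/-- composition with an involution, on `ℓ²` -/
noncomputable def Uop (s : V → V) (hs : Function.Involutive s) :
    lp (fun _ : V => ℂ) 2 →L[ℂ] lp (fun _ : V => ℂ) 2 :=
  LinearMap.mkContinuous
    { toFun := fun ψ => ⟨fun x => ψ (s x), by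
        have h1 : Memℓp (fun x => ψ x) (2 : ENNReal) := lp.memℓp ψ
        have h2 := h1.summable (by norm_num)
        exact memℓp_gen ((hs.toPerm s).summable_iff.mpr h2)⟩
      map_add' := fun ψ χ => by ext x; rfl
      map_smul' := fun a ψ => by ext x; rfl } 1 (fun ψ => by
        rw [one_mul, lp.norm_eq_tsum_rpow (by norm_num), lp.norm_eq_tsum_rpow (by norm_num)]
        apply le_of_eq
        congr 1
        exact (hs.toPerm s).tsum_eq (fun x => ‖ψ x‖ ^ (2 : ENNReal).toReal))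

theorem Uop_apply (s : V → V) (hs : Function.Involutive s) (ψ : lp (fun _ : V => ℂ) 2) (x : V) :
    Uop s hs ψ x = ψ (s x) := rfl

theorem Uop_symm (s : V → V) (hs : Function.Involutive s) (ψ χ : lp (fun _ : V => ℂ) 2) :
    ⟪Uop s hs ψ, χ⟫_ℂ = ⟪ψ, Uop s hs χ⟫_ℂ := by
  rw [lp.inner_eq_tsum, lp.inner_eq_tsum]
  rw [← (hs.toPerm s).tsum_eq (fun i => ⟪Uop s hs ψ i, χ i⟫_ℂ)]
  refine tsum_congr fun i => ?_
  rw [Uop_apply, Uop_apply]
  show ⟪ψ (s (s i)), χ (s i)⟫_ℂ = _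
  rw [hs i]

section

variable (s : Fin 3 → V → V) (hs : ∀ l, Function.Involutive (s l))

/-- adjacency operator -/
noncomputable def Aop : lp (fun _ : V => ℂ) 2 →L[ℂ] lp (fun _ : V => ℂ) 2 :=
  Uop (s 0) (hs 0) + Uop (s 1) (hs 1) + Uop (s 2) (hs 2)

/-- the operator `3 - A` -/
noncomputable def Lop : lp (fun _ : V => ℂ) 2 →L[ℂ] lp (fun _ : V => ℂ) 2 :=
  (3 : ℂ) • 1 - Aop s hs

theorem Lop_apply (ψ : lp (fun _ : V => ℂ) 2) (x : V) :
    Lop s hs ψ x = (ψ x - ψ (s 0 x)) + (ψ x - ψ (s 1 x)) + (ψ x - ψ (s 2 x)) := by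
  have h : Lop s hs ψ x = 3 * ψ x - (ψ (s 0 x) + ψ (s 1 x) + ψ (s 2 x)) := rfl
  rw [h]
  ring

theorem Lop_symm (ψ χ : lp (fun _ : V => ℂ) 2) : ⟪Lop s hs ψ, χ⟫_ℂ = ⟪ψ, Lop s hs χ⟫_ℂ := by
  have e : ∀ η : lp (fun _ : V => ℂ) 2, Lop s hs η = (3 : ℂ) • η -
      (Uop (s 0) (hs 0) η + Uop (s 1) (hs 1) η + Uop (s 2) (hs 2) η) := fun η => rfl
  rw [e, e, inner_sub_left, inner_sub_right, inner_smul_left, inner_smul_right, inner_add_left,
    inner_add_left, inner_add_right, inner_add_right, Uop_symm, Uop_symm, Uop_symm]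
  have h3 : (starRingEnd ℂ) 3 = 3 := Complex.conj_ofNat 3
  rw [h3]

theorem Lop_selfAdjoint : IsSelfAdjoint (Lop s hs) :=
  ContinuousLinearMap.isSelfAdjoint_iff_isSymmetric.mpr (Lop_symm s hs)

/-- the shifted operator -/
noncomputable def Lr (r : ℝ) : lp (fun _ : V => ℂ) 2 →L[ℂ] lp (fun _ : V => ℂ) 2 :=
  algebraMap ℂ _ (r : ℂ) - Lop s hs

theorem Lr_apply (r : ℝ) (ψ : lp (fun _ : V => ℂ) 2) : Lr s hs r ψ = (r : ℂ) • ψ - Lop s hs ψ := by
  unfold Lr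
  rw [sub_apply, ContinuousLinearMap.algebraMap_apply]

theorem Lr_symm (r : ℝ) (ψ χ : lp (fun _ : V => ℂ) 2) :
    ⟪Lr s hs r ψ, χ⟫_ℂ = ⟪ψ, Lr s hs r χ⟫_ℂ := by
  rw [Lr_apply, Lr_apply, inner_sub_left, inner_sub_right, inner_smul_left, inner_smul_right,
    Lop_symm, Complex.conj_ofReal]

theorem Lr_selfAdjoint (r : ℝ) : IsSelfAdjoint (Lr s hs r) :=
  ContinuousLinearMap.isSelfAdjoint_iff_isSymmetric.mpr (Lr_symm s hs r)

end

/-- a self-adjoint operator that is bounded below is invertible -/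
theorem isUnit_of_bounded_below {H : Type*} [NormedAddCommGroup H] [InnerProductSpace ℂ H]
    [CompleteSpace H] {T : H →L[ℂ] H} (hT : ∀ x y, ⟪T x, y⟫_ℂ = ⟪x, T y⟫_ℂ) {C : ℝ} (hC : 0 ≤ C)
    (h : ∀ ψ, ‖ψ‖ ≤ C * ‖T ψ‖) : IsUnit T := by
  have hanti : AntilipschitzWith ⟨C, hC⟩ T := by
    apply AddMonoidHomClass.antilipschitz_of_bound
    intro ψ
    exact h ψ
  rw [ContinuousLinearMap.isUnit_iff_bijective,
    ContinuousLinearMap.bijective_iff_dense_range_and_antilipschitz]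
  refine ⟨?_, ⟨_, hanti⟩⟩
  rw [Submodule.topologicalClosure_eq_top_iff, Submodule.eq_bot_iff]
  intro x hx
  rw [Submodule.mem_orthogonal] at hx
  have h1 : ∀ y, ⟪T x, y⟫_ℂ = 0 := by
    intro y
    have h2 := hx (T y) ⟨y, rfl⟩
    rw [hT x y, ← inner_conj_symm, h2, map_zero]
  have h5 : T x = 0 := by
    have := h1 (T x)
    rwa [inner_self_eq_zero] at this
  have h6 := h x
  rw [h5, norm_zero, mul_zero] at h6
  exact norm_le_zero_iff.mp h6

end Pool.Agent.helper43.Rob
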