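import Pool.Agent.helper43.Rob.Exist

/-!
# From patches to tilings
-/

namespace Pool.Agent.helper43.Rob

open Real

theorem Good.nb_ne {X : PG} {x : ℕ} (h : Good X x) {l : ℕ} (hl : l < 3) : X.nb l x ≠ 0 := by
  obtain ⟨p, hp, -, hm, g, M, h1⟩ := h.sh
  have h2 := allB_iff.mp root_check p hp
  obtain ⟨h3, h4⟩ := cond_nand h2
  obtain ⟨h5, h6⟩ := cond_nand h4
  obtain ⟨h7, -⟩ := cond_nand h6
  rw [← Bool.not_eq_true, Nat.beq_eq] at h3 h5 h7
  have hd : dom (pdm p) 1 := ⟨le_refl 1, hm⟩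
  have key : (pdG p).nb l 1 ≠ 0 := by
    interval_cases l
    · exact h3
    · exact h5
    · exact h7
  rw [← h1, M.nb 1 hd l hl key]
  exact M.ne _ (M.cl 1 hd l hl key)

/-! ### addresses with certificates -/

theorem cert_at {n x : ℕ} (hx : real (n + 3) x) :
    ∃ x', real (n + 7) x' ∧ tileAt (n + 7) x' = tileAt (n + 3) x ∧
      (∀ l, l < 3 → (Xg (n + 7)).nb l x' ≠ 0) ∧
      ∃ m N g f, KapOK m N g ∧ 1 ≤ m ∧ Placed m N (Xg (n + 7)) x' f := by
  have r3 : real (n + 2 + 1) x := hx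
  have r2 : real (n + 1 + 1) (x / 8) := r3.1
  have r1 : real (n + 1) (x / 8 / 8) := r2.1
  have r0 : real n (x / 8 / 8 / 8) := r1.1
  obtain ⟨z, hz, ez, gz⟩ := embed r0
  have c1 := real_compat r1
  have c2 := real_compat r2
  have c3 := real_compat r3
  have t1 : tileAt (n + 1) (x / 8 / 8) = childTile (x / 8 / 8 % 8) (tileAt n (x / 8 / 8 / 8)) :=
    rfl
  have t2 : tileAt (n + 1 + 1) (x / 8) = childTile (x / 8 % 8) (tileAt (n + 1) (x / 8 / 8)) := rfl
  have t3 : tileAt (n + 2 + 1) x = childTile (x % 8) (tileAt (n + 1 + 1) (x / 8)) := rfl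
  have c1' : compat (tileAt (n + 4) z).obt (x / 8 / 8 % 8) = true := by rw [ez]; exact c1
  obtain ⟨s1, e1⟩ := real_step hz c1'
  have E1 : tileAt (n + 4 + 1) (8 * z + x / 8 / 8 % 8) = tileAt (n + 1) (x / 8 / 8) := by
    rw [e1, ez, t1]
  have c2' : compat (tileAt (n + 4 + 1) (8 * z + x / 8 / 8 % 8)).obt (x / 8 % 8) = true := by
    rw [E1]; exact c2
  obtain ⟨s2, e2⟩ := real_step s1 c2'
  have E2 : tileAt (n + 4 + 1 + 1) (8 * (8 * z + x / 8 / 8 % 8) + x / 8 % 8) =
      tileAt (n + 1 + 1) (x / 8) := by rw [e2, E1, t2]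
  have c3' : compat (tileAt (n + 4 + 1 + 1) (8 * (8 * z + x / 8 / 8 % 8) + x / 8 % 8)).obt
      (x % 8) = true := by rw [E2]; exact c3
  obtain ⟨s3, e3⟩ := real_step s2 c3'
  have E3 : tileAt (n + 4 + 1 + 1 + 1)
      (8 * (8 * (8 * z + x / 8 / 8 % 8) + x / 8 % 8) + x % 8) = tileAt (n + 3) x := by
    rw [e3, E2]
    exact t3.symm
  have hcode : 8 * (8 * (8 * z + x / 8 / 8 % 8) + x / 8 % 8) + x % 8 = 512 * z + x % 512 := by
    omega
  rw [hcode] at s3 E3
  have g1 := gz.child (d := x / 8 / 8 % 8) (by rw [← real_obt hz]; exact c1')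
  have g2 := g1.child (d := x / 8 % 8) (by
    have : (sub (Xg (n + 4))) = Xg (n + 4 + 1) := rfl
    rw [this, ← real_obt s1]; exact c2')
  have g3 := g2.child (d := x % 8) (by
    have : (sub (sub (Xg (n + 4)))) = Xg (n + 4 + 1 + 1) := rfl
    rw [this, ← real_obt s2]; exact c3')
  rw [hcode] at g3
  have hc3 : compat3 ((Xg (n + 4)).sh z) (x % 512) = true := by
    unfold compat3
    have d1 : Nat.div (x % 512) 64 = x / 8 / 8 % 8 := by
      show x % 512 / 64 = _
      omega
    have d2 : Nat.mod (Nat.div (x % 512) 8) 8 = x / 8 % 8 := by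
      show x % 512 / 8 % 8 = _
      omega
    have d3 : Nat.mod (x % 512) 8 = x % 8 := by
      show x % 512 % 8 = _
      omega
    rw [d1, d2, d3]
    have k1 : compat ((Xg (n + 4)).sh z) (x / 8 / 8 % 8) = true := by
      rw [← real_obt hz]; exact c1'
    have k2 : compat (dsh (x / 8 / 8 % 8)) (x / 8 % 8) = true := by
      rw [t1, childTile_obt c1] at c2
      exact c2
    have k3 : compat (dsh (x / 8 % 8)) (x % 8) = true := by
      have c3'' : compat (tileAt (n + 1 + 1) (x / 8)).obt (x % 8) = true := c3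
      rw [t2, childTile_obt c2] at c3''
      exact c3''
    rw [k1, k2, k3]
    rfl
  obtain ⟨m, N, g, f, K, hm, P⟩ := gz.cert hc3
  exact ⟨512 * z + x % 512, s3, E3, fun l hl => g3.nb_ne hl, m, N, g, f, K, hm, P⟩

/-! ### metric facts -/

/-- centroid -/
noncomputable def Tile.m (t : Tile) : ℂ := (t.a + t.b + t.c) / 3

theorem Inv.norm_ac {t : Tile} (h : Inv t) : ‖t.c - t.a‖ = 1 := by
  obtain ⟨ω, h1, h2, h3⟩ := h
  rw [h1]
  rcases h3 with ⟨-, h | h⟩ | ⟨-, h | h⟩
  · rw [h, norm_pow_mul, h2]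
  · rw [h, norm_npow_mul, h2]
  · have := norm_pow_mul 1 (t.b - t.a)
    rw [pow_one] at this
    rw [h, this, h2]
  · rw [h, norm_npow_mul, h2]

theorem Inv.norm_ab {t : Tile} (h : Inv t) : ‖t.b - t.a‖ = 1 := by
  obtain ⟨ω, h1, h2, h3⟩ := h
  exact h2

theorem Inv.norm_bc {t : Tile} (h : Inv t) : ‖t.c - t.b‖ ≤ 2 := by
  have e : t.c - t.b = (t.c - t.a) - (t.b - t.a) := by ring
  rw [e]
  calc ‖(t.c - t.a) - (t.b - t.a)‖ ≤ ‖t.c - t.a‖ + ‖t.b - t.a‖ := norm_sub_le _ _
    _ = 2 := by rw [h.norm_ac, h.norm_ab]; norm_num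

theorem Inv.dist_m {t : Tile} (h : Inv t) {z : ℂ} (hz : z ∈ t.carrier) : ‖z - t.m‖ ≤ 2 := by
  rw [carrier_eq] at hz
  obtain ⟨x, y, w, hx, hy, hw, hs, rfl⟩ := hz
  have e : (x : ℂ) * t.a + y * t.b + w * t.c - t.m =
      ((y - 1 / 3 : ℝ) : ℂ) * (t.b - t.a) + ((w - 1 / 3 : ℝ) : ℂ) * (t.c - t.a) := by
    have hs' : (x : ℂ) + y + w = 1 := by exact_mod_cast hs
    unfold Tile.m
    push_cast
    linear_combination t.a * hs'
  rw [e]
  have hy1 : |y - 1 / 3| ≤ 1 := by rw [abs_le]; constructor <;> linarith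
  have hw1 : |w - 1 / 3| ≤ 1 := by rw [abs_le]; constructor <;> linarith
  calc _ ≤ ‖((y - 1 / 3 : ℝ) : ℂ) * (t.b - t.a)‖ + ‖((w - 1 / 3 : ℝ) : ℂ) * (t.c - t.a)‖ :=
        norm_add_le _ _
    _ = |y - 1 / 3| + |w - 1 / 3| := by
        rw [norm_mul, norm_mul, h.norm_ab, h.norm_ac, Complex.norm_real, Complex.norm_real,
          Real.norm_eq_abs, Real.norm_eq_abs, mul_one, mul_one]
    _ ≤ 2 := by linarith

theorem mem_carrier_a (t : Tile) : t.a ∈ t.carrier := subset_convexHull ℝ _ (by simp)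
theorem mem_carrier_b (t : Tile) : t.b ∈ t.carrier := subset_convexHull ℝ _ (by simp)
theorem mem_carrier_c (t : Tile) : t.c ∈ t.carrier := subset_convexHull ℝ _ (by simp)

theorem m_mem_op (t : Tile) : t.m ∈ t.op :=
  ⟨1 / 3, 1 / 3, 1 / 3, by norm_num, by norm_num, by norm_num, by norm_num, by
    unfold Tile.m
    push_cast
    ring⟩

theorem abs_cross_le (u v : ℂ) : |cross u v| ≤ ‖u‖ * ‖v‖ := by
  have e : cross u v = ((starRingEnd ℂ) u * v).im := by
    unfold cross
    simp only [Complex.mul_im, Complex.conj_re, Complex.conj_im]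
    ring
  rw [e]
  calc _ ≤ ‖(starRingEnd ℂ) u * v‖ := Complex.abs_im_le_norm _
    _ = ‖u‖ * ‖v‖ := by rw [norm_mul, Complex.norm_conj]

theorem Inv.ball {t : Tile} (h : Inv t) {v : ℂ} (hv : ‖v‖ < 1 / 12) : t.m + v ∈ t.op := by
  have hD := h.cross
  have hne := h.ne
  have aux : ∀ (w X : ℂ), ‖w‖ ≤ 2 → ∀ c : ℝ,
      c = Rob.cross (t.b - t.a) (t.c - t.a) / 3 + Rob.cross w v →
      0 < c / Rob.cross (t.b - t.a) (t.c - t.a) := by
    intro w _ hw c hc
    have h1 := abs_cross_le w v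
    have h2 : |Rob.cross w v| ≤ 2 * ‖v‖ := h1.trans
      (mul_le_mul_of_nonneg_right hw (norm_nonneg _))
    generalize Rob.cross (t.b - t.a) (t.c - t.a) = D at *
    have h3 : |Rob.cross w v| < |D| / 3 := by linarith
    rw [hc]
    rcases lt_or_gt_of_ne hne with hneg | hpos
    · apply div_pos_of_neg_of_neg _ hneg
      rw [abs_of_neg hneg] at h3
      have := le_abs_self (Rob.cross w v)
      linarith
    · apply div_pos _ hpos
      rw [abs_of_pos hpos] at h3
      have := neg_abs_le (Rob.cross w v)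
      linarith
  unfold Tile.op
  rw [mem_OT_iff hne]
  refine ⟨?_, ?_, ?_⟩
  · apply aux (t.c - t.b) 0 h.norm_bc
    unfold Rob.cross Tile.m
    simp only [Complex.sub_re, Complex.sub_im, Complex.add_re, Complex.add_im, Complex.div_re,
      Complex.div_im, Complex.normSq_ofNat, Complex.re_ofNat, Complex.im_ofNat]
    ring
  · apply aux (t.a - t.c) 0 (by rw [norm_sub_rev, h.norm_ac]; norm_num)
    unfold Rob.cross Tile.m
    simp only [Complex.sub_re, Complex.sub_im, Complex.add_re, Complex.add_im, Complex.div_re,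
      Complex.div_im, Complex.normSq_ofNat, Complex.re_ofNat, Complex.im_ofNat]
    ring
  · apply aux (t.b - t.a) 0 (by rw [h.norm_ab]; norm_num)
    unfold Rob.cross Tile.m
    simp only [Complex.sub_re, Complex.sub_im, Complex.add_re, Complex.add_im, Complex.div_re,
      Complex.div_im, Complex.normSq_ofNat, Complex.re_ofNat, Complex.im_ofNat]
    ring

/-! ### translations -/

theorem translate_translate (u v : ℂ) (t : Tile) :
    (t.translate u).translate v = t.translate (u + v) := by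
  unfold Tile.translate
  simp only [add_assoc]

theorem translate_neg (v : ℂ) (t : Tile) : (t.translate v).translate (-v) = t := by
  rw [translate_translate, add_neg_cancel, translate_zero]

theorem translate_neg' (v : ℂ) (t : Tile) : (t.translate (-v)).translate v = t := by
  rw [translate_translate, neg_add_cancel, translate_zero]

theorem translate_m (v : ℂ) (t : Tile) : (t.translate v).m = t.m + v := by
  unfold Tile.m Tile.translate
  ring

theorem Inv.translate {t : Tile} (h : Inv t) (v : ℂ) : Inv (t.translate v) := by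
  unfold Inv Tile.translate at *
  simpa using h

theorem inv_translate_iff {t : Tile} {v : ℂ} : Inv (t.translate v) ↔ Inv t :=
  ⟨fun h => by have := h.translate (-v); rwa [translate_neg] at this, fun h => h.translate v⟩

theorem mem_op_translate {t : Tile} {v z : ℂ} : z + v ∈ (t.translate v).op ↔ z ∈ t.op := by
  have aux : ∀ (s : Tile) (y u : ℂ), y ∈ s.op → y + u ∈ (s.translate u).op := by
    rintro s y u ⟨a, b, c, ha, hb, hc, hs, rfl⟩
    refine ⟨a, b, c, ha, hb, hc, hs, ?_⟩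
    have hs' : (a : ℂ) + b + c = 1 := by exact_mod_cast hs
    unfold Tile.translate
    linear_combination (-u) * hs'
  constructor
  · intro h
    have := aux _ _ (-v) h
    rwa [translate_neg, add_neg_cancel_right] at this
  · exact aux t z v

theorem mem_carrier_translate {t : Tile} {v z : ℂ} (hz : z ∈ t.carrier) :
    z + v ∈ (t.translate v).carrier := by
  rw [carrier_eq] at hz ⊢
  obtain ⟨a, b, c, ha, hb, hc, hs, rfl⟩ := hz
  refine ⟨a, b, c, ha, hb, hc, hs, ?_⟩
  have hs' : (a : ℂ) + b + c = 1 := by exact_mod_cast hs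
  unfold Tile.translate
  linear_combination (-v) * hs'

end Pool.Agent.helper43.Rob
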