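import Pool.Agent.helper43.Rob.Tiling

/-!
# The neighbour structure of a Robinson triangle tiling
-/

namespace Pool.Agent.helper43.Rob

open Real

/-- Robinson tilings for the standard star -/
structure RT (𝒯 : Set Tile) : Prop where
  covers : ⋃ t ∈ 𝒯, t.carrier = Set.univ
  disjoint : ∀ s ∈ 𝒯, ∀ t ∈ 𝒯, s ≠ t → Disjoint (interior s.carrier) (interior t.carrier)
  patches : ∀ F : Set Tile, F.Finite → F ⊆ 𝒯 → ∃ n v, Tile.translate v '' F ⊆ patch true n

theorem IsRobinsonTiling.rt {w : Bool} {𝒯 : Set Tile} (h : IsRobinsonTiling w 𝒯) : RT 𝒯 := by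
  refine ⟨h.covers, h.disjoint, fun F hF hFT => ?_⟩
  obtain ⟨n, v, h1⟩ := h.patches F hF hFT
  obtain ⟨m, hm⟩ := patch_sub_true w n
  exact ⟨m, v, h1.trans hm⟩

theorem inv_patch {n : ℕ} {t : Tile} (h : t ∈ patch true n) : Inv t := by
  obtain ⟨x, hx, rfl⟩ := (mem_patch_iff n t).mp h
  exact inv_tileAt hx

theorem RT.inv {𝒯 : Set Tile} (h : RT 𝒯) {t : Tile} (ht : t ∈ 𝒯) : Inv t := by
  obtain ⟨n, v, h1⟩ := h.patches {t} (Set.finite_singleton t) (by simpa using ht)
  have h2 : t.translate v ∈ patch true n := h1 ⟨t, rfl, rfl⟩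
  exact inv_translate_iff.mp (inv_patch h2)

theorem RT.disj {𝒯 : Set Tile} (h : RT 𝒯) {s t : Tile} (hs : s ∈ 𝒯) (ht : t ∈ 𝒯) {z : ℂ}
    (h1 : z ∈ s.op) (h2 : z ∈ t.op) : s = t := by
  by_contra hne
  have h3 := h.disjoint s hs t ht hne
  rw [(h.inv hs).interior, (h.inv ht).interior, Set.disjoint_left] at h3
  exact h3 h1 h2

/-- local finiteness -/
theorem RT.finite {𝒯 : Set Tile} (h : RT 𝒯) (y : ℂ) (D : ℝ) :
    {t ∈ 𝒯 | ‖t.m - y‖ ≤ D}.Finite := by
  obtain ⟨C, hC, hCf, hcov⟩ := (isCompact_closedBall y D).finite_cover_balls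
    (show (0 : ℝ) < 1 / 24 by norm_num)
  have hch : ∀ t ∈ {t ∈ 𝒯 | ‖t.m - y‖ ≤ D}, ∃ c ∈ C, t.m ∈ Metric.ball c (1 / 24) := by
    intro t ht
    have : t.m ∈ Metric.closedBall y D := by
      rw [Metric.mem_closedBall, dist_eq_norm]
      exact ht.2
    have := hcov this
    simpa using this
  choose! c hc using hch
  apply Set.Finite.of_finite_image (f := c)
  · exact hCf.subset (by rintro _ ⟨t, ht, rfl⟩; exact (hc t ht).1)
  · intro s hs t ht hst
    have h1 := (hc s hs).2
    have h2 := (hc t ht).2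
    have hst' : c s = c t := hst
    rw [hst'] at h1
    rw [Metric.mem_ball, dist_eq_norm] at h1 h2
    have h3 : ‖t.m - s.m‖ < 1 / 12 := by
      calc ‖t.m - s.m‖ = ‖(t.m - c t) - (s.m - c t)‖ := by congr 1; ring
        _ ≤ ‖t.m - c t‖ + ‖s.m - c t‖ := norm_sub_le _ _
        _ < 1 / 12 := by linarith
    have h4 := (h.inv hs.1).ball h3
    rw [add_sub_cancel] at h4
    exact h.disj hs.1 ht.1 h4 (m_mem_op t)

/-- large pieces of the tiling coincide with pieces of the patches. -/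
theorem RT.window {𝒯 : Set Tile} (h : RT 𝒯) (y : ℂ) (D : ℝ) :
    ∃ n v, (∀ t ∈ 𝒯, ‖t.m - y‖ ≤ D → t.translate v ∈ patch true (n + 3)) ∧
      ∀ u ∈ patch true (n + 7), ‖u.m - (y + v)‖ ≤ D → u.translate (-v) ∈ 𝒯 := by
  have hfin := h.finite y (D + 2)
  obtain ⟨n, v, h1⟩ := h.patches _ hfin (fun t ht => ht.1)
  -- enlarge the level
  have h1' : Tile.translate v '' {t ∈ 𝒯 | ‖t.m - y‖ ≤ D + 2} ⊆ patch true (n + 4) :=
    h1.trans (patch_mono n)
  refine ⟨n + 1, v, ?_, ?_⟩
  · intro t ht hd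
    exact h1' ⟨t, ⟨ht, by linarith⟩, rfl⟩
  · intro u hu hd
    have hcov : u.m - v ∈ ⋃ t ∈ 𝒯, t.carrier := by rw [h.covers]; trivial
    simp only [Set.mem_iUnion] at hcov
    obtain ⟨w, hw, hwc⟩ := hcov
    have h2 := (h.inv hw).dist_m hwc
    have h3 : ‖w.m - y‖ ≤ D + 2 := by
      calc ‖w.m - y‖ = ‖(u.m - (y + v)) - (u.m - v - w.m)‖ := by congr 1; ring
        _ ≤ ‖u.m - (y + v)‖ + ‖u.m - v - w.m‖ := norm_sub_le _ _
        _ ≤ D + 2 := by linarith
    have h4 : w.translate v ∈ patch true (n + 8) := patch_mono (n + 4) (h1' ⟨w, ⟨hw, h3⟩, rfl⟩)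
    have h5 : u.m ∈ (w.translate v).carrier := by
      have := mem_carrier_translate (v := v) hwc
      rwa [sub_add_cancel] at this
    have hiu : Inv u := inv_patch hu
    have h6 : u = w.translate v := by
      by_contra hne
      obtain ⟨x, hx, rfl⟩ := (mem_patch_iff _ _).mp hu
      obtain ⟨z, hz, e⟩ := (mem_patch_iff _ _).mp h4
      rw [e] at h5 hne
      rw [carrier_eq] at h5
      obtain ⟨q, hq1, hq2⟩ := CT_open_inter (isOpen_OT hiu.ne) h5 (m_mem_op _)
      exact tileAt_disj hx hz (fun hxz => hne (by rw [hxz])) hq2 hq1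
    rw [h6, translate_neg]
    exact hw

/-! ### edges -/

/-- the edge of type `l` -/
def Tile.edge (l : ℕ) (t : Tile) : Sym2 ℂ :=
  if l = 0 then s(t.a, t.b) else if l = 1 then s(t.b, t.c) else s(t.c, t.a)

theorem edge_mem {l : ℕ} (t : Tile) : t.edge l ∈ t.edges := by
  unfold Tile.edge Tile.edges
  split_ifs <;> simp

theorem mem_edges {t : Tile} {e : Sym2 ℂ} (h : e ∈ t.edges) : ∃ l, l < 3 ∧ e = t.edge l := by
  unfold Tile.edges at h
  simp only [Set.mem_insert_iff, Set.mem_singleton_iff] at h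
  rcases h with h | h | h
  · exact ⟨0, by norm_num, by simpa [Tile.edge] using h⟩
  · exact ⟨1, by norm_num, by simpa [Tile.edge] using h⟩
  · exact ⟨2, by norm_num, by simpa [Tile.edge] using h⟩

theorem ER.edge {l : ℕ} (hl : l < 3) {t u : Tile} (h : ER l t u) : u.edge l = t.edge l := by
  unfold Tile.edge
  interval_cases l
  · rcases h.zero with ⟨-, h1, h2⟩ | ⟨-, h1, h2⟩
    · simp [h1, h2]
    · simp [h1, h2, Sym2.eq_swap]
  · obtain ⟨-, h1, h2⟩ := h.one
    simp [h1, h2]
  · obtain ⟨h1, h2⟩ := h.two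
    simp [h1, h2]

theorem ER.common {l : ℕ} (hl : l < 3) {t u : Tile} (h : ER l t u) :
    ∃ p, p ∈ t.carrier ∧ p ∈ u.carrier := by
  interval_cases l
  · rcases h.zero with ⟨-, h1, h2⟩ | ⟨-, h1, h2⟩
    · exact ⟨t.a, mem_carrier_a t, by rw [← h1]; exact mem_carrier_a u⟩
    · exact ⟨t.b, mem_carrier_b t, by rw [← h1]; exact mem_carrier_a u⟩
  · obtain ⟨-, h1, h2⟩ := h.one
    exact ⟨t.b, mem_carrier_b t, by rw [← h1]; exact mem_carrier_b u⟩
  · obtain ⟨h1, h2⟩ := h.two
    exact ⟨t.c, mem_carrier_c t, by rw [← h1]; exact mem_carrier_c u⟩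

theorem ER.dist {l : ℕ} (hl : l < 3) {t u : Tile} (h : ER l t u) (ht : Inv t) (hu : Inv u) :
    ‖u.m - t.m‖ ≤ 4 := by
  obtain ⟨p, h1, h2⟩ := h.common hl
  calc ‖u.m - t.m‖ = ‖(p - t.m) - (p - u.m)‖ := by congr 1; ring
    _ ≤ ‖p - t.m‖ + ‖p - u.m‖ := norm_sub_le _ _
    _ ≤ 4 := by linarith [ht.dist_m h1, hu.dist_m h2]

theorem translate_edge {l : ℕ} {t u : Tile} (v : ℂ) (h : u.edge l = t.edge l) :
    (u.translate v).edge l = (t.translate v).edge l := by
  have aux : ∀ s : Tile, (s.translate v).edge l = (s.edge l).map (· + v) := by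
    intro s
    unfold Tile.edge Tile.translate
    split_ifs <;> simp
  rw [aux, aux, h]

theorem edge_repr {t : Tile} (ht : Inv t) {p q : ℂ} (h : s(p, q) ∈ t.edges) :
    ∃ r, t.op = OT p q r ∧ cross (q - p) (r - p) ≠ 0 ∧
      ({p, q, r} : Set ℂ) = {t.a, t.b, t.c} := by
  have hne := ht.ne
  have e1 : cross (t.c - t.b) (t.a - t.b) = cross (t.b - t.a) (t.c - t.a) := by
    unfold Rob.cross; simp only [Complex.sub_re, Complex.sub_im]; ring
  have e2 : cross (t.a - t.c) (t.b - t.c) = cross (t.b - t.a) (t.c - t.a) := by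
    unfold Rob.cross; simp only [Complex.sub_re, Complex.sub_im]; ring
  have e3 : cross (t.a - t.b) (t.c - t.b) = -cross (t.b - t.a) (t.c - t.a) := by
    unfold Rob.cross; simp only [Complex.sub_re, Complex.sub_im]; ring
  have e4 : cross (t.b - t.c) (t.a - t.c) = -cross (t.b - t.a) (t.c - t.a) := by
    unfold Rob.cross; simp only [Complex.sub_re, Complex.sub_im]; ring
  have e5 : cross (t.c - t.a) (t.b - t.a) = -cross (t.b - t.a) (t.c - t.a) := by
    unfold Rob.cross; simp only [Complex.sub_re, Complex.sub_im]; ring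
  unfold Tile.edges at h
  simp only [Set.mem_insert_iff, Set.mem_singleton_iff, Sym2.eq_iff] at h
  unfold Tile.op
  rcases h with (⟨rfl, rfl⟩ | ⟨rfl, rfl⟩) | (⟨rfl, rfl⟩ | ⟨rfl, rfl⟩) | (⟨rfl, rfl⟩ | ⟨rfl, rfl⟩)
  · exact ⟨t.c, rfl, hne, rfl⟩
  · refine ⟨t.c, OT_perm1 _ _ _, by rw [e3]; exact neg_ne_zero.mpr hne, ?_⟩
    ext z; simp only [Set.mem_insert_iff, Set.mem_singleton_iff]; tauto
  · refine ⟨t.a, OT_perm2 _ _ _, by rw [e1]; exact hne, ?_⟩
    ext z; simp only [Set.mem_insert_iff, Set.mem_singleton_iff]; tauto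
  · refine ⟨t.a, ?_, by rw [e4]; exact neg_ne_zero.mpr hne, ?_⟩
    · rw [OT_perm2, OT_perm1]
    · ext z; simp only [Set.mem_insert_iff, Set.mem_singleton_iff]; tauto
  · refine ⟨t.b, ?_, by rw [e2]; exact hne, ?_⟩
    · rw [OT_perm2, OT_perm2]
    · ext z; simp only [Set.mem_insert_iff, Set.mem_singleton_iff]; tauto
  · refine ⟨t.b, ?_, by rw [e5]; exact neg_ne_zero.mpr hne, ?_⟩
    · rw [OT_perm1, OT_perm2]
    · ext z; simp only [Set.mem_insert_iff, Set.mem_singleton_iff]; tauto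

/-- at most two tiles share an edge -/
theorem RT.edge_unique {𝒯 : Set Tile} (h : RT 𝒯) {t u w : Tile} (ht : t ∈ 𝒯) (hu : u ∈ 𝒯)
    (hw : w ∈ 𝒯) (hut : u ≠ t) (hwt : w ≠ t) {e : Sym2 ℂ} (h1 : e ∈ t.edges) (h2 : e ∈ u.edges)
    (h3 : e ∈ w.edges) : u = w := by
  induction e using Sym2.ind with
  | _ p q =>
    obtain ⟨r1, o1, c1, -⟩ := edge_repr (h.inv ht) h1
    obtain ⟨r2, o2, c2, -⟩ := edge_repr (h.inv hu) h2
    obtain ⟨r3, o3, c3, -⟩ := edge_repr (h.inv hw) h3
    have same : ∀ {s s' : Tile}, s ∈ 𝒯 → s' ∈ 𝒯 → ∀ {r r' : ℂ}, s.op = OT p q r →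
        s'.op = OT p q r' → 0 < cross (q - p) (r - p) * cross (q - p) (r' - p) → s = s' := by
      intro s s' hs hs' r r' ho ho' hpos
      obtain ⟨z, hz1, hz2⟩ := same_side hpos
      exact h.disj hs hs' (by rw [ho]; exact hz1) (by rw [ho']; exact hz2)
    rcases lt_or_gt_of_ne (mul_ne_zero c2 c3) with hneg | hpos
    · exfalso
      rcases lt_or_gt_of_ne (mul_ne_zero c1 c2) with hneg' | hpos'
      · rcases lt_or_gt_of_ne (mul_ne_zero c1 c3) with hneg'' | hpos''
        · have h5 := mul_pos_of_neg_of_neg hneg hneg'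
          have h6 := mul_neg_of_pos_of_neg h5 hneg''
          have h7 : cross (q - p) (r2 - p) * cross (q - p) (r3 - p) *
              (cross (q - p) (r1 - p) * cross (q - p) (r2 - p)) *
              (cross (q - p) (r1 - p) * cross (q - p) (r3 - p)) =
              (cross (q - p) (r1 - p) * cross (q - p) (r2 - p) * cross (q - p) (r3 - p)) ^ 2 := by
            ring
          rw [h7] at h6
          exact absurd h6 (not_lt.mpr (sq_nonneg _))
        · exact hwt (same hw ht o3 o1 (by rw [mul_comm]; exact hpos''))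
      · exact hut (same hu ht o2 o1 (by rw [mul_comm]; exact hpos'))
    · exact same hu hw o2 o3 hpos

/-- two different edges of a tile are not shared with the same tile -/
theorem RT.edge_inj {𝒯 : Set Tile} (h : RT 𝒯) {t u : Tile} (ht : t ∈ 𝒯) (hu : u ∈ 𝒯)
    (hut : u ≠ t) {l k : ℕ} (hl : l < 3) (hk : k < 3) (hlk : l ≠ k) (h1 : t.edge l ∈ u.edges)
    (h2 : t.edge k ∈ u.edges) : False := by
  -- all vertices of `t` are vertices of `u`
  have hv : ∀ e : Sym2 ℂ, e ∈ u.edges → ∀ z ∈ e, z ∈ ({u.a, u.b, u.c} : Set ℂ) := by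
    intro e he z hz
    unfold Tile.edges at he
    simp only [Set.mem_insert_iff, Set.mem_singleton_iff] at he ⊢
    rcases he with rfl | rfl | rfl <;> rw [Sym2.mem_iff] at hz <;> tauto
  have ha : t.a ∈ ({u.a, u.b, u.c} : Set ℂ) := by
    by_cases hl1 : l = 1
    · apply hv _ h2
      unfold Tile.edge
      split_ifs with h0 h0'
      · simp
      · omega
      · simp
    · apply hv _ h1
      unfold Tile.edge
      split_ifs <;> simp
  have hb : t.b ∈ ({u.a, u.b, u.c} : Set ℂ) := by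
    by_cases hl1 : l = 2
    · apply hv _ h2
      unfold Tile.edge
      split_ifs with h0 h0'
      · simp
      · simp
      · omega
    · apply hv _ h1
      unfold Tile.edge
      split_ifs with h0 h0'
      · simp
      · simp
      · omega
  have hc : t.c ∈ ({u.a, u.b, u.c} : Set ℂ) := by
    by_cases hl1 : l = 0
    · apply hv _ h2
      unfold Tile.edge
      split_ifs with h0 h0'
      · omega
      · simp
      · simp
    · apply hv _ h1
      unfold Tile.edge
      split_ifs <;> simp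
  -- hence the carrier of `t` is inside that of `u`
  have hsub : t.carrier ⊆ u.carrier := by
    unfold Tile.carrier
    apply convexHull_mono
    intro z hz
    simp only [Set.mem_insert_iff, Set.mem_singleton_iff] at hz
    rcases hz with rfl | rfl | rfl
    · exact ha
    · exact hb
    · exact hc
  have h3 : t.m ∈ interior t.carrier := by
    rw [(h.inv ht).interior]; exact m_mem_op t
  have h4 := interior_mono hsub h3
  rw [(h.inv hu).interior] at h4
  exact hut (h.disj hu ht h4 (m_mem_op t))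

/-! ### the neighbour maps and the certificates in the tiling -/

/-- Every tile has a neighbour across each edge, and a parametrix certificate. -/
theorem RT.local {𝒯 : Set Tile} (h : RT 𝒯) {t : Tile} (ht : t ∈ 𝒯) :
    (∀ l, l < 3 → ∃ u ∈ 𝒯, u ≠ t ∧ u.edge l = t.edge l) ∧
    ∃ m N g, KapOK m N g ∧ 1 ≤ m ∧ ∃ F : ℕ → Tile, F 1 = t ∧ (∀ j, dom m j → F j ∈ 𝒯) ∧
      ∀ j, dom m j → ∀ l, l < 3 → kn N l j ≠ 0 →
        F (kn N l j) ≠ F j ∧ (F (kn N l j)).edge l = (F j).edge l := by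
  obtain ⟨n, v, w1, w2⟩ := h.window t.m 5000
  have h1 := w1 t ht (by simp)
  obtain ⟨x, hx, ex⟩ := (mem_patch_iff _ _).mp h1
  obtain ⟨x', hx', ex', hnb, m, N, g, f, K, hm, P⟩ := cert_at hx
  have e0 : tileAt (n + 7) x' = t.translate v := by rw [ex', ex]
  have back : ∀ z, real (n + 7) z → ‖(tileAt (n + 7) z).m - (t.m + v)‖ ≤ 5000 →
      (tileAt (n + 7) z).translate (-v) ∈ 𝒯 := by
    intro z hz hd
    exact w2 _ ((mem_patch_iff _ _).mpr ⟨z, hz, rfl⟩) hd
  have hne : ∀ {z z'}, real (n + 7) z → real (n + 7) z' → z ≠ z' →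
      (tileAt (n + 7) z).translate (-v) ≠ (tileAt (n + 7) z').translate (-v) := by
    intro z z' hz hz' hzz heq
    have h2 : tileAt (n + 7) z = tileAt (n + 7) z' := by
      have := congrArg (Tile.translate v) heq
      rwa [translate_neg', translate_neg'] at this
    exact tileAt_disj hz hz' hzz (m_mem_op _) (by rw [h2]; exact m_mem_op _)
  have hm0 : (tileAt (n + 7) x').m = t.m + v := by rw [e0, translate_m]
  constructor
  · intro l hl
    obtain ⟨h2, h3, h4⟩ := nbOK (n + 7) x' hx' l hl (hnb l hl)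
    refine ⟨(tileAt (n + 7) ((Xg (n + 7)).nb l x')).translate (-v), back _ h2 ?_, ?_, ?_⟩
    · have := h4.dist hl (inv_tileAt hx') (inv_tileAt h2)
      rw [← hm0]
      linarith
    · have := hne h2 hx' h3
      rwa [e0, translate_neg] at this
    · have := translate_edge (-v) (h4.edge hl)
      rwa [e0, translate_neg] at this
  · have key : ∀ j, dom m j → real (n + 7) (f j) ∧
        ‖(tileAt (n + 7) (f j)).m - (t.m + v)‖ ≤ 4 * j := by
      intro j
      induction j using Nat.strong_induction_on with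
      | _ j ih =>
        intro hj
        by_cases hj1 : j = 1
        · subst hj1
          rw [P.one]
          refine ⟨hx', ?_⟩
          rw [hm0]
          simp
        · obtain ⟨l, hl, h2, h3⟩ := K.par j (by have := hj.1; omega) hj.2
          obtain ⟨h4, h5⟩ := K.sym j hj l hl h2
          have hi : dom m (kn N l j) := ⟨Nat.one_le_iff_ne_zero.mpr h2, h4⟩
          obtain ⟨h6, h7⟩ := ih _ h3 hi
          have h8 : kn N l (kn N l j) ≠ 0 := by rw [h5]; have := hj.1; omega
          have h9 := P.nb _ hi l hl h8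
          rw [h5] at h9
          have h10 : (Xg (n + 7)).nb l (f (kn N l j)) ≠ 0 := by rw [h9]; exact P.ne j hj
          obtain ⟨h11, -, h12⟩ := nbOK (n + 7) _ h6 l hl h10
          rw [h9] at h11 h12
          refine ⟨h11, ?_⟩
          have h13 := h12.dist hl (inv_tileAt h6) (inv_tileAt h11)
          have h14 : ((kn N l j : ℕ) : ℝ) + 1 ≤ j := by exact_mod_cast h3
          calc _ = ‖((tileAt (n + 7) (f j)).m - (tileAt (n + 7) (f (kn N l j))).m) +
                ((tileAt (n + 7) (f (kn N l j))).m - (t.m + v))‖ := by congr 1; ring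
            _ ≤ _ := norm_add_le _ _
            _ ≤ 4 * j := by linarith
    have hb : ∀ j, dom m j → (j : ℝ) ≤ 1024 := by
      intro j hj
      by_cases hj1 : j = 1
      · subst hj1; norm_num
      · obtain ⟨l, hl, h2, h3⟩ := K.par j (by have := hj.1; omega) hj.2
        obtain ⟨h4, h5⟩ := K.sym j hj l hl h2
        have : kn N l (kn N l j) < 2 ^ 10 := fld_lt _ _ _
        rw [h5] at this
        have h6 : j ≤ 1024 := by
          norm_num at this
          omega
        exact_mod_cast h6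
    refine ⟨m, N, g, K, hm, fun j => (tileAt (n + 7) (f j)).translate (-v), ?_, ?_, ?_⟩
    · simp only
      rw [P.one, e0, translate_neg]
    · intro j hj
      obtain ⟨h2, h3⟩ := key j hj
      exact back _ h2 (by have := hb j hj; linarith)
    · intro j hj l hl h2
      obtain ⟨h3, h4⟩ := K.sym j hj l hl h2
      have hi : dom m (kn N l j) := ⟨Nat.one_le_iff_ne_zero.mpr h2, h3⟩
      have h5 := P.nb j hj l hl h2
      have h6 : (Xg (n + 7)).nb l (f j) ≠ 0 := by rw [h5]; exact P.ne _ hi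
      obtain ⟨h7, h8, h9⟩ := nbOK (n + 7) _ (key j hj).1 l hl h6
      rw [h5] at h7 h8 h9
      exact ⟨hne h7 (key j hj).1 h8, translate_edge (-v) (h9.edge hl)⟩

end Pool.Agent.helper43.Rob
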